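import Pool.Agent.N374.Gun.Check

/-! No sequence of sixteen columns of height fourteen has total cost at most two. -/

set_option autoImplicit false

namespace Pool.Agent.N374.Gun

open Finset

/-- a sequence of sixteen consistent columns of height fourteen -/
structure Cols (c : ℕ → List Lt) : Prop where
  len : (c 0).length = 14
  pair : ∀ j < 15, V .L .L (c j) (c (j + 1))
  first : ∀ y ∈ c 0, y ≠ .R
  last : ∀ y ∈ c 15, y ≠ .L

def s (p : List Lt) : ℤ := cL p + cR p

def B (c : ℕ → List Lt) (k : ℕ) : ℤ := ∑ i ∈ range k, s (c i) + cL (c k)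

theorem pendLL : pend .L .L = 0 := by decide

theorem B_succ (c : ℕ → List Lt) (k : ℕ) : B c (k + 1) = B c k + (cR (c k) + cL (c (k + 1))) := by
  unfold B s
  rw [sum_range_succ]
  ring

theorem w_nonneg {c : ℕ → List Lt} (h : Cols c) {k : ℕ} (hk : k < 15) :
    0 ≤ cR (c k) + cL (c (k + 1)) := by
  have := nonneg _ _ _ _ (h.pair k hk)
  rw [pendLL] at this
  linarith

theorem B_lower {c : ℕ → List Lt} (h : Cols c) : ∀ k ≤ 15, -1 ≤ B c k
  | 0, _ => by
      have h1 := cL_lower (c 0) .L (V1_left _ _ _ _ (h.pair 0 (by norm_num))) h.first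
      have h2 : psi .L = 0 := by simp [psi]
      rw [h2] at h1
      simpa [B] using h1
  | k + 1, hk => by
      rw [B_succ]
      have h1 := B_lower h k (by omega)
      have h2 := w_nonneg h (show k < 15 by omega)
      linarith

theorem forward {c : ℕ → List Lt} (h : Cols c) : ∀ k ≤ 15, ∀ v : ℕ, v < 3 → B c k ≤ (v : ℤ) - 1 →
    (G (k + 1) v).mem (c k)
  | 0, _, v, hv, hB => by
      refine chkF_sound 14 (G 1 v) .L v (c 0) (base_ok v hv) h.len
        (V1_left _ _ _ _ (h.pair 0 (by norm_num))) h.first ?_
      have h2 : psi .L = 0 := by simp [psi]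
      rw [h2]
      have : B c 0 = cL (c 0) := by simp [B]
      linarith
  | k + 1, hk, v', hv', hB => by
      have hlow := B_lower h k (by omega)
      have hw := w_nonneg h (show k < 15 by omega)
      rw [B_succ] at hB
      obtain ⟨v, hv⟩ : ∃ v : ℕ, (v : ℤ) = B c k + 1 := ⟨(B c k + 1).toNat, by
        rw [Int.toNat_of_nonneg]; linarith⟩
      have hvv : v ≤ v' := by
        have : (v : ℤ) ≤ v' := by linarith
        exact_mod_cast this
      have hmem := forward h k (by omega) v (by omega) (by linarith)
      refine chk_sound (G (k + 1) v) (G (k + 1 + 1) v') (c k) (c (k + 1)) .L .L (v' - v)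
        (trans_ok (k + 1) (by omega) (by omega) v' hv' v (by omega)) hmem (h.pair k (by omega)) ?_
      rw [pendLL]
      push_cast [Nat.cast_sub hvv]
      linarith

theorem cR_mir (p : List Lt) : cR (p.map mir) = cL p := by
  unfold cR cL
  rw [List.map_map]
  congr 1
  apply List.map_congr_left
  intro x _
  cases x <;> rfl

theorem cL_mir (p : List Lt) : cL (p.map mir) = cR p := by
  unfold cR cL
  rw [List.map_map]
  congr 1
  apply List.map_congr_left
  intro x _
  cases x <;> rfl

theorem okr_mir (a b x y : Lt) (h : okr a b x y) : okr (mir b) (mir a) (mir y) (mir x) := by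
  revert h
  cases a <;> cases b <;> cases x <;> cases y <;> decide

theorem V_mir : ∀ (p c : List Lt) (a b : Lt), V a b p c → V (mir b) (mir a) (c.map mir) (p.map mir)
  | [], [], a, b, h => by
      obtain ⟨h1, h2⟩ := h
      refine ⟨?_, ?_⟩
      · revert h2; cases b <;> decide
      · revert h1; cases a <;> decide
  | [], _ :: _, _, _, h => by simp [V] at h
  | _ :: _, [], _, _, h => by simp [V] at h
  | x :: p, y :: c, a, b, h => ⟨okr_mir a b x y h.1, V_mir p c x y h.2⟩

theorem V_RR : ∀ (p c : List Lt), V .R .R p c → V .L .L p c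
  | [], [], _ => by constructor <;> decide
  | [], _ :: _, h => by simp [V] at h
  | _ :: _, [], h => by simp [V] at h
  | x :: p, y :: c, h => ⟨by
      have h1 := h.1
      revert h1
      cases x <;> cases y <;> decide, h.2⟩

theorem V_length : ∀ (p c : List Lt) (a b : Lt), V a b p c → p.length = c.length
  | [], [], _, _, _ => rfl
  | [], _ :: _, _, _, h => by simp [V] at h
  | _ :: _, [], _, _, h => by simp [V] at h
  | x :: p, y :: c, a, b, h => by simp [V_length p c x y h.2]

theorem mir_mir (x : Lt) : mir (mir x) = x := by cases x <;> rfl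

/-- the mirror image -/
def M (c : ℕ → List Lt) (j : ℕ) : List Lt := (c (15 - j)).map mir

theorem Cols.length {c : ℕ → List Lt} (h : Cols c) : ∀ k ≤ 15, (c k).length = 14
  | 0, _ => h.len
  | k + 1, hk => by rw [← V_length _ _ _ _ (h.pair k (by omega)), h.length k (by omega)]

theorem Cols.mirror {c : ℕ → List Lt} (h : Cols c) : Cols (M c) where
  len := by
    show ((c 15).map mir).length = 14
    rw [List.length_map]
    exact h.length 15 le_rfl
  pair := by
    intro j hj
    have h1 := V_RR _ _ (V_mir _ _ _ _ (h.pair (14 - j) (by omega)))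
    unfold M
    have e1 : 15 - j = 14 - j + 1 := by omega
    have e2 : 15 - (j + 1) = 14 - j := by omega
    rw [e1, e2]
    exact h1
  first := by
    intro y hy hR
    unfold M at hy
    rw [List.mem_map] at hy
    obtain ⟨x, hx, rfl⟩ := hy
    apply h.last x hx
    rw [← mir_mir x, hR]
    rfl
  last := by
    intro y hy hR
    unfold M at hy
    rw [List.mem_map] at hy
    obtain ⟨x, hx, rfl⟩ := hy
    apply h.first x hx
    rw [← mir_mir x, hR]
    rfl

/-- the total cost -/
def tot (c : ℕ → List Lt) : ℤ := ∑ i ∈ range 16, s (c i)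

theorem s_mir (p : List Lt) : s (p.map mir) = s p := by
  unfold s; rw [cL_mir, cR_mir]; ring

theorem tot_mirror (c : ℕ → List Lt) : tot (M c) = tot c := by
  unfold tot M
  simp only [s_mir]
  exact Finset.sum_range_reflect (fun i => s (c i)) 16

theorem B_add (c : ℕ → List Lt) (j : ℕ) (hj : j ≤ 15) : B c j + B (M c) (15 - j) = tot c := by
  unfold B tot M
  simp only [s_mir, cL_mir]
  interval_cases j <;> simp only [sum_range_succ, sum_range_zero, Nat.reduceSub, s] <;> ring

theorem last_ok {c : ℕ → List Lt} (h : Cols c) (h2 : tot c ≤ 2) (hB : B c 15 ≤ 1) : False := by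
  have hlow := B_lower h 15 le_rfl
  obtain ⟨v, hv⟩ : ∃ v : ℕ, (v : ℤ) = B c 15 + 1 := ⟨(B c 15 + 1).toNat, by
    rw [Int.toNat_of_nonneg]; linarith⟩
  have hv3 : v < 3 := by
    have : (v : ℤ) < 3 := by linarith
    exact_mod_cast this
  have hmem := forward h 15 le_rfl v hv3 (by linarith)
  have hV : V1 .L (c 15) := V1_right _ _ _ _ (h.pair 14 (by norm_num))
  refine finck_sound (G 16 v) .L (4 - v) (c 15) (fin_ok v hv3) hmem hV h.last ?_
  have h3 : psi .L = 0 := by simp [psi]
  have h4 : tot c = B c 15 + cR (c 15) := by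
    unfold tot B s
    rw [sum_range_succ]
    ring
  rw [h3]
  push_cast [Nat.cast_sub (show v ≤ 4 by omega)]
  linarith

/-- There is no sequence of columns of total cost at most two. -/
theorem no_cols {c : ℕ → List Lt} (h : Cols c) : 3 ≤ tot c := by
  by_contra hlt
  have h2 : tot c ≤ 2 := by linarith [not_le.1 hlt]
  by_cases hall : ∀ j ≤ 15, B c j ≤ 0
  · exact last_ok h h2 (by linarith [hall 15 le_rfl])
  · push Not at hall
    classical
    have hex : ∃ j, j ≤ 15 ∧ 0 < B c j := hall
    obtain ⟨hj, hB⟩ := Nat.find_spec hex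
    have hmin := fun i (hi : i < Nat.find hex) => Nat.find_min hex hi
    generalize Nat.find hex = j at hj hB hmin
    cases j with
    | zero =>
      apply last_ok h.mirror (by rw [tot_mirror]; exact h2)
      have := B_add c 0 (by norm_num)
      rw [Nat.sub_zero] at this
      linarith
    | succ i =>
      have hBi : B c i ≤ 0 := by
        by_contra hc
        exact hmin i (by omega) ⟨by omega, not_le.1 hc⟩
      have hadd := B_add c (i + 1) hj
      have hl1 := B_lower h i (by omega)
      have hl2 := B_lower h.mirror (15 - (i + 1)) (by omega)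
      obtain ⟨v, hv⟩ : ∃ v : ℕ, (v : ℤ) = B c i + 1 := ⟨(B c i + 1).toNat, by
        rw [Int.toNat_of_nonneg]; linarith⟩
      obtain ⟨w, hw⟩ : ∃ w : ℕ, (w : ℤ) = B (M c) (15 - (i + 1)) + 1 :=
        ⟨(B (M c) (15 - (i + 1)) + 1).toNat, by rw [Int.toNat_of_nonneg]; linarith⟩
      have hv2 : v < 2 := by
        have : (v : ℤ) < 2 := by linarith
        exact_mod_cast this
      have hw3 : w < 3 := by
        have : (w : ℤ) < 3 := by linarith
        exact_mod_cast this
      have m1 := forward h i (by omega) v (by omega) (by linarith)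
      have m2 := forward h.mirror (15 - (i + 1)) (by omega) w (by omega) (by linarith)
      have e1 : 15 - (i + 1) + 1 = 16 - (i + 1) := by omega
      have e2 : M c (15 - (i + 1)) = (c (i + 1)).map mir := by
        unfold M
        congr 2
        omega
      rw [e1, e2] at m2
      refine jn_sound _ _ _ _ _ _ _ (join_ok (i + 1) (by omega) (by omega) v hv2 w hw3) m1
        (h.pair i (by omega)) m2 ?_
      rw [pendLL]
      rw [B_succ] at hadd
      push_cast [Nat.cast_sub (show w ≤ 4 - v by omega), Nat.cast_sub (show v ≤ 4 by omega)]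
      linarith

end Pool.Agent.N374.Gun
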