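import Pool.Agent.N374.Gun.Core

/-! Prefix trees of column words (part 0). -/

set_option autoImplicit false

namespace Pool.Agent.N374.Gun

def t0 : Tr := .node .leaf .nil .nil .nil .nil
def t1 : Tr := .node .nil .nil .nil .nil t0
def t2 : Tr := .node .nil .nil .nil t1 .nil
def t3 : Tr := .node t2 .nil .nil .nil .nil
def t4 : Tr := .node .nil t0 .nil .nil .nil
def t5 : Tr := .node t4 .nil .nil .nil .nil
def t6 : Tr := .node .nil .nil .nil .nil t5
def t7 : Tr := .node .nil t3 .nil t6 .nil
def t8 : Tr := .node t7 .nil .nil .nil .nil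
def t9 : Tr := .node .nil t5 .nil .nil .nil
def t10 : Tr := .node t9 .nil .nil .nil .nil
def t11 : Tr := .node .nil .nil .nil .nil t10
def t12 : Tr := .node .nil t8 .nil t11 .nil
def t13 : Tr := .node t12 .nil .nil .nil .nil
def t14 : Tr := .node .nil .nil .nil .nil t3
def t15 : Tr := .node .nil t10 .nil t14 .nil
def t16 : Tr := .node t15 .nil .nil .nil .nil
def t17 : Tr := .node .nil .nil .nil .nil t16
def t18 : Tr := .node .nil t13 .nil t17 .nil
def t19 : Tr := .node t18 .nil .nil .nil .nil
def t20 : Tr := .node .nil .nil .nil .nil t8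
def t21 : Tr := .node .nil t16 .nil t20 .nil
def t22 : Tr := .node t21 .nil .nil .nil .nil
def t23 : Tr := .node .nil .nil .nil .nil t22
def t24 : Tr := .node .nil t19 .nil t23 .nil
def t25 : Tr := .node t24 .nil .nil .nil .nil
def t26 : Tr := .node .nil .nil .nil .nil t13
def t27 : Tr := .node .nil t22 .nil t26 .nil
def t28 : Tr := .node t27 .nil .nil .nil .nil
def t29 : Tr := .node .nil .nil .nil .nil t28
def t30 : Tr := .node .nil t25 .nil t29 .nil
def t31 : Tr := .node t30 .nil .nil .nil .nil
def t32 : Tr := .node .nil .leaf .nil .nil .nil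
def t33 : Tr := .node t32 t0 .nil .nil .nil
def t34 : Tr := .node .nil t33 .nil t1 .nil
def t35 : Tr := .node t34 t5 .nil .nil .nil
def t36 : Tr := .node .nil .nil .nil .nil .leaf
def t37 : Tr := .node .nil t0 .nil t36 .nil
def t38 : Tr := .node t37 .nil .nil t1 .nil
def t39 : Tr := .node .nil .nil .nil .nil t38
def t40 : Tr := .node .nil t35 .nil t39 .nil
def t41 : Tr := .node t40 t10 .nil t14 .nil
def t42 : Tr := .node .nil .nil .nil .nil t33
def t43 : Tr := .node .nil t38 .nil t42 .nil
def t44 : Tr := .node t43 t3 .nil t6 .nil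
def t45 : Tr := .node .nil .nil .nil .nil t44
def t46 : Tr := .node .nil t41 .nil t45 .nil
def t47 : Tr := .node t46 t16 .nil t20 .nil
def t48 : Tr := .node .nil .nil .nil .nil t35
def t49 : Tr := .node .nil t44 .nil t48 .nil
def t50 : Tr := .node t49 t8 .nil t11 .nil
def t51 : Tr := .node .nil .nil .nil .nil t50
def t52 : Tr := .node .nil t47 .nil t51 .nil
def t53 : Tr := .node t52 t22 .nil t26 .nil
def t54 : Tr := .node .nil .nil .nil .nil t41
def t55 : Tr := .node .nil t50 .nil t54 .nil
def t56 : Tr := .node t55 t13 .nil t17 .nil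
def t57 : Tr := .node .nil .nil .nil .nil t56
def t58 : Tr := .node .nil t53 .nil t57 .nil
def t59 : Tr := .node .nil .nil .nil .nil t19
def t60 : Tr := .node t58 t28 .nil t59 .nil
def t61 : Tr := .node .nil .nil .nil .nil t47
def t62 : Tr := .node .nil t56 .nil t61 .nil
def t63 : Tr := .node t62 t19 .nil t23 .nil
def t64 : Tr := .node .nil .nil .nil .nil t63
def t65 : Tr := .node .nil t60 .nil t64 .nil
def t66 : Tr := .node .nil t28 .nil t59 .nil
def t67 : Tr := .node t66 .nil .nil .nil .nil
def t68 : Tr := .node .nil .nil .nil .nil t25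
def t69 : Tr := .node t65 t67 .nil t68 .nil
def t70 : Tr := .node t32 t0 .nil t36 .nil
def t71 : Tr := .node .leaf .leaf .nil .nil .nil
def t72 : Tr := .node .nil .nil .nil .nil t71
def t73 : Tr := .node .nil t70 .nil t72 .nil
def t74 : Tr := .node t73 t38 .nil t42 .nil
def t75 : Tr := .node .nil t71 .nil t36 .nil
def t76 : Tr := .node t75 t33 .nil t1 .nil
def t77 : Tr := .node .nil .nil .nil .nil t76
def t78 : Tr := .node .nil t74 .nil t77 .nil
def t79 : Tr := .node t78 t44 .nil t48 .nil
def t80 : Tr := .node .nil .nil .nil .nil t70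
def t81 : Tr := .node .nil t76 .nil t80 .nil
def t82 : Tr := .node t81 t35 .nil t39 .nil
def t83 : Tr := .node .nil .nil .nil .nil t82
def t84 : Tr := .node .nil t79 .nil t83 .nil
def t85 : Tr := .node t84 t50 .nil t54 .nil
def t86 : Tr := .node .nil .nil .nil .nil t74
def t87 : Tr := .node .nil t82 .nil t86 .nil
def t88 : Tr := .node t87 t41 .nil t45 .nil
def t89 : Tr := .node .nil .nil .nil .nil t88
def t90 : Tr := .node .nil t85 .nil t89 .nil
def t91 : Tr := .node t90 t56 .nil t61 .nil
def t92 : Tr := .node .nil .nil .nil .nil t79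
def t93 : Tr := .node .nil t88 .nil t92 .nil
def t94 : Tr := .node t93 t47 .nil t51 .nil
def t95 : Tr := .node .nil .nil .nil .nil t94
def t96 : Tr := .node .nil t91 .nil t95 .nil
def t97 : Tr := .node .nil .nil .nil .nil t53
def t98 : Tr := .node t96 t63 .nil t97 .nil
def t99 : Tr := .node .nil .nil .nil .nil t85
def t100 : Tr := .node .nil t94 .nil t99 .nil
def t101 : Tr := .node t100 t53 .nil t57 .nil
def t102 : Tr := .node .nil .nil .nil .nil t101
def t103 : Tr := .node .nil t98 .nil t102 .nil
def t104 : Tr := .node .nil t63 .nil t97 .nil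
def t105 : Tr := .node t104 t25 .nil t29 .nil
def t106 : Tr := .node .nil .nil .nil .nil t60
def t107 : Tr := .node t103 t105 .nil t106 .nil
def t108 : Tr := .node .nil .nil t32 .nil .nil
def t109 : Tr := .node .nil t108 .nil .nil .nil
def t110 : Tr := .node .nil .nil t109 .nil .nil
def t111 : Tr := .node .nil .nil .nil .nil t110
def t112 : Tr := .node .nil .nil .nil t111 .nil
def t113 : Tr := .node .nil .nil .nil .nil t108
def t114 : Tr := .node .nil .nil .nil t113 .nil
def t115 : Tr := .node .nil .nil .nil t36 .nil
def t116 : Tr := .node t115 .nil .nil .nil .nil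
def t117 : Tr := .node t32 .nil .nil .nil .nil
def t118 : Tr := .node .nil .nil .nil .nil t117
def t119 : Tr := .node .nil t116 .nil t118 .nil
def t120 : Tr := .node t114 .nil t119 .nil .nil
def t121 : Tr := .node t109 .nil .nil .nil .nil
def t122 : Tr := .node .nil .nil .nil .nil t121
def t123 : Tr := .node .nil t120 .nil t122 .nil
def t124 : Tr := .node t112 .nil t123 .nil .nil
def t125 : Tr := .node .nil .nil .nil .nil t124
def t126 : Tr := .node .nil .nil .nil t125 .nil
def t127 : Tr := .node .nil .nil .nil .nil t120
def t128 : Tr := .node .nil .nil .nil t127 .nil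
def t129 : Tr := .node .nil .nil .nil .nil t116
def t130 : Tr := .node .nil .nil .nil t129 .nil
def t131 : Tr := .node .nil t110 .nil .nil .nil
def t132 : Tr := .node t130 .nil t131 .nil .nil
def t133 : Tr := .node t119 .nil .nil .nil .nil
def t134 : Tr := .node .nil .nil .nil .nil t133
def t135 : Tr := .node .nil t132 .nil t134 .nil
def t136 : Tr := .node t128 .nil t135 .nil .nil
def t137 : Tr := .node t123 .nil .nil .nil .nil
def t138 : Tr := .node .nil .nil .nil .nil t137
def t139 : Tr := .node .nil t136 .nil t138 .nil
def t140 : Tr := .node t126 .nil t139 .nil .nil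
def t141 : Tr := .node .nil .nil .nil .nil t140
def t142 : Tr := .node .nil .nil .nil t141 .nil
def t143 : Tr := .node .nil .nil .nil .nil t136
def t144 : Tr := .node .nil .nil .nil t143 .nil
def t145 : Tr := .node .nil .nil .nil .nil t132
def t146 : Tr := .node .nil .nil .nil t145 .nil
def t147 : Tr := .node t131 .nil .nil .nil .nil
def t148 : Tr := .node .nil .nil .nil .nil t147
def t149 : Tr := .node .nil t124 .nil t148 .nil
def t150 : Tr := .node t146 .nil t149 .nil .nil
def t151 : Tr := .node t135 .nil .nil .nil .nil
def t152 : Tr := .node .nil .nil .nil .nil t151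
def t153 : Tr := .node .nil t150 .nil t152 .nil
def t154 : Tr := .node t144 .nil t153 .nil .nil
def t155 : Tr := .node t139 .nil .nil .nil .nil
def t156 : Tr := .node .nil .nil .nil .nil t155
def t157 : Tr := .node .nil t154 .nil t156 .nil
def t158 : Tr := .node t142 .nil t157 .nil .nil
def t159 : Tr := .node t149 .nil .nil .nil .nil
def t160 : Tr := .node .nil .nil .nil .nil t159
def t161 : Tr := .node .nil t140 .nil t160 .nil
def t162 : Tr := .node t161 .nil .nil .nil .nil
def t163 : Tr := .node .nil .nil .nil .nil t162
def t164 : Tr := .node .nil t158 .nil t163 .nil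
def t165 : Tr := .node .nil .nil .nil .nil t154
def t166 : Tr := .node .nil .nil .nil t165 .nil
def t167 : Tr := .node .nil .nil .leaf .nil .nil
def t168 : Tr := .node .nil .nil .nil .nil t167
def t169 : Tr := .node .nil .nil .nil t168 .nil
def t170 : Tr := .node t115 t108 .nil t1 .nil
def t171 : Tr := .node t169 .nil t170 .nil .nil
def t172 : Tr := .node .nil .nil .nil .nil t171
def t173 : Tr := .node .nil t131 .nil t172 .nil
def t174 : Tr := .node .nil t109 .nil t113 .nil
def t175 : Tr := .node .nil t32 .nil t36 .nil
def t176 : Tr := .node .nil t167 t32 .nil .nil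
def t177 : Tr := .node t175 t117 t176 .nil .nil
def t178 : Tr := .node t32 .nil .nil t36 .nil
def t179 : Tr := .node .nil .nil .nil .nil t178
def t180 : Tr := .node .nil t177 t109 t179 .nil
def t181 : Tr := .node t174 t121 t180 .nil .nil
def t182 : Tr := .node .nil t108 .nil t1 .nil
def t183 : Tr := .node t182 .nil .nil t113 .nil
def t184 : Tr := .node .nil .nil .nil .nil t183
def t185 : Tr := .node t130 t181 t131 t184 .nil
def t186 : Tr := .node t173 t147 t185 .nil .nil
def t187 : Tr := .node .nil .nil .nil .nil t186
def t188 : Tr := .node .nil t149 .nil t187 .nil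
def t189 : Tr := .node .nil .nil .nil .nil t181
def t190 : Tr := .node .nil t123 .nil t189 .nil
def t191 : Tr := .node .nil .nil .nil .nil t177
def t192 : Tr := .node .nil t119 .nil t191 .nil
def t193 : Tr := .node t176 .nil .nil .nil .nil
def t194 : Tr := .node .nil .nil .nil .nil t193
def t195 : Tr := .node t114 t171 t119 t194 .nil
def t196 : Tr := .node t192 t133 t195 .nil .nil
def t197 : Tr := .node t180 .nil .nil t129 .nil
def t198 : Tr := .node .nil .nil .nil .nil t197
def t199 : Tr := .node t112 t196 t123 t198 .nil
def t200 : Tr := .node t190 t137 t199 .nil .nil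
def t201 : Tr := .node .nil t181 t131 t184 .nil
def t202 : Tr := .node t201 .nil .nil t127 .nil
def t203 : Tr := .node .nil .nil .nil .nil t202
def t204 : Tr := .node t146 t200 t149 t203 .nil
def t205 : Tr := .node t188 t159 t204 .nil .nil
def t206 : Tr := .node .nil .nil .nil .nil t205
def t207 : Tr := .node .nil t161 .nil t206 .nil
def t208 : Tr := .node .nil .nil .nil .nil t150
def t209 : Tr := .node .nil .nil .nil t208 .nil
def t210 : Tr := .node .nil .nil .nil .nil t200
def t211 : Tr := .node .nil t139 .nil t210 .nil
def t212 : Tr := .node .nil .nil .nil .nil t196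
def t213 : Tr := .node .nil t135 .nil t212 .nil
def t214 : Tr := .node .nil t171 t119 t194 .nil
def t215 : Tr := .node t214 .nil .nil t111 .nil
def t216 : Tr := .node .nil .nil .nil .nil t215
def t217 : Tr := .node t128 t186 t135 t216 .nil
def t218 : Tr := .node t213 t151 t217 .nil .nil
def t219 : Tr := .node .nil t196 t123 t198 .nil
def t220 : Tr := .node t219 .nil .nil t145 .nil
def t221 : Tr := .node .nil .nil .nil .nil t220
def t222 : Tr := .node t126 t218 t139 t221 .nil
def t223 : Tr := .node t211 t155 t222 .nil .nil
def t224 : Tr := .node .nil t200 t149 t203 .nil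
def t225 : Tr := .node t224 .nil .nil t143 .nil
def t226 : Tr := .node .nil .nil .nil .nil t225
def t227 : Tr := .node t209 t223 t161 t226 .nil
def t228 : Tr := .node t207 t162 t227 .nil .nil
def t229 : Tr := .node t209 .nil t161 .nil .nil
def t230 : Tr := .node t153 .nil .nil .nil .nil
def t231 : Tr := .node .nil .nil .nil .nil t230
def t232 : Tr := .node .nil t229 .nil t231 .nil
def t233 : Tr := .node .nil t186 t135 t216 .nil
def t234 : Tr := .node t233 .nil .nil t125 .nil
def t235 : Tr := .node .nil .nil .nil .nil t234
def t236 : Tr := .node .nil t205 t153 t235 .nil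
def t237 : Tr := .node t236 .nil .nil t141 .nil
def t238 : Tr := .node .nil .nil .nil .nil t237
def t239 : Tr := .node t166 t228 t232 t238 .nil
def t240 : Tr := .node .nil .nil .nil .nil t223
def t241 : Tr := .node .nil t157 .nil t240 .nil
def t242 : Tr := .node t144 t205 t153 t235 .nil
def t243 : Tr := .node .nil t176 .nil t168 .nil
def t244 : Tr := .node .nil .leaf .leaf .nil .nil
def t245 : Tr := .node t32 t0 t244 .nil .nil
def t246 : Tr := .node t175 t245 t176 t1 .nil
def t247 : Tr := .node t243 t193 t246 .nil .nil
def t248 : Tr := .node .nil .nil .nil .nil t247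
def t249 : Tr := .node .nil t195 .nil t248 .nil
def t250 : Tr := .node .nil .nil .nil .nil t245
def t251 : Tr := .node .nil t170 .nil t250 .nil
def t252 : Tr := .node .nil .nil .nil .nil t32
def t253 : Tr := .node t175 t178 t176 t252 .nil
def t254 : Tr := .node t244 t32 .nil t36 .nil
def t255 : Tr := .node .nil .nil .nil .nil t254
def t256 : Tr := .node t169 t253 t170 t255 .nil
def t257 : Tr := .node .nil .nil .nil .nil t109
def t258 : Tr := .node t251 t183 t256 t257 .nil
def t259 : Tr := .node .nil t245 t176 t1 .nil
def t260 : Tr := .node t259 t109 .nil t113 .nil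
def t261 : Tr := .node .nil .nil .nil .nil t260
def t262 : Tr := .node t192 t258 t195 t261 .nil
def t263 : Tr := .node .nil .nil .nil .nil t131
def t264 : Tr := .node t249 t215 t262 t263 .nil
def t265 : Tr := .node .nil .nil .nil .nil t264
def t266 : Tr := .node .nil t217 .nil t265 .nil
def t267 : Tr := .node .nil .nil .nil .nil t258
def t268 : Tr := .node .nil t185 .nil t267 .nil
def t269 : Tr := .node .nil .nil .nil .nil t253
def t270 : Tr := .node .nil t180 .nil t269 .nil
def t271 : Tr := .node t176 .nil .nil t168 .nil
def t272 : Tr := .node .nil .nil .nil .nil t271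
def t273 : Tr := .node t174 t247 t180 t272 .nil
def t274 : Tr := .node .nil .nil .nil .nil t119
def t275 : Tr := .node t270 t197 t273 t274 .nil
def t276 : Tr := .node .nil t253 t170 t255 .nil
def t277 : Tr := .node t276 t119 .nil t191 .nil
def t278 : Tr := .node .nil .nil .nil .nil t277
def t279 : Tr := .node t173 t275 t185 t278 .nil
def t280 : Tr := .node .nil .nil .nil .nil t123
def t281 : Tr := .node t268 t202 t279 t280 .nil
def t282 : Tr := .node .nil t258 t195 t261 .nil
def t283 : Tr := .node t282 t123 .nil t189 .nil
def t284 : Tr := .node .nil .nil .nil .nil t283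
def t285 : Tr := .node t213 t281 t217 t284 .nil
def t286 : Tr := .node .nil .nil .nil .nil t149
def t287 : Tr := .node t266 t234 t285 t286 .nil
def t288 : Tr := .node .nil .nil .nil .nil t287
def t289 : Tr := .node .nil t242 .nil t288 .nil
def t290 : Tr := .node .nil .nil .nil .nil t218
def t291 : Tr := .node .nil t153 .nil t290 .nil
def t292 : Tr := .node .nil .nil .nil .nil t281
def t293 : Tr := .node .nil t204 .nil t292 .nil
def t294 : Tr := .node .nil .nil .nil .nil t275
def t295 : Tr := .node .nil t199 .nil t294 .nil
def t296 : Tr := .node .nil t247 t180 t272 .nil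
def t297 : Tr := .node t296 t131 .nil t172 .nil
def t298 : Tr := .node .nil .nil .nil .nil t297
def t299 : Tr := .node t190 t264 t199 t298 .nil
def t300 : Tr := .node .nil .nil .nil .nil t135
def t301 : Tr := .node t295 t220 t299 t300 .nil
def t302 : Tr := .node .nil t275 t185 t278 .nil
def t303 : Tr := .node t302 t135 .nil t212 .nil
def t304 : Tr := .node .nil .nil .nil .nil t303
def t305 : Tr := .node t188 t301 t204 t304 .nil
def t306 : Tr := .node .nil .nil .nil .nil t139
def t307 : Tr := .node t293 t225 t305 t306 .nil
def t308 : Tr := .node .nil t281 t217 t284 .nil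
def t309 : Tr := .node t308 t139 .nil t210 .nil
def t310 : Tr := .node .nil .nil .nil .nil t309
def t311 : Tr := .node t291 t307 t242 t310 .nil
def t312 : Tr := .node .nil .nil .nil .nil t161
def t313 : Tr := .node t289 t237 t311 t312 .nil
def t314 : Tr := .node t291 t230 t242 .nil .nil
def t315 : Tr := .node .nil t218 t139 t221 .nil
def t316 : Tr := .node t315 .nil .nil t208 .nil
def t317 : Tr := .node .nil .nil .nil .nil t316
def t318 : Tr := .node t142 t314 t157 t317 .nil
def t319 : Tr := .node .nil t264 t199 t298 .nil
def t320 : Tr := .node t319 t149 .nil t187 .nil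
def t321 : Tr := .node .nil .nil .nil .nil t320
def t322 : Tr := .node .nil t287 t222 t321 .nil
def t323 : Tr := .node t322 t161 .nil t206 .nil
def t324 : Tr := .node .nil .nil .nil .nil t323
def t325 : Tr := .node t241 t313 t318 t324 .nil
def t326 : Tr := .node t167 .nil .nil .nil .nil
def t327 : Tr := .node .nil .nil t326 .nil .nil
def t328 : Tr := .node t327 .nil .nil .nil .nil
def t329 : Tr := .node .nil .nil t328 .nil .nil
def t330 : Tr := .node .nil .nil .nil .nil t329
def t331 : Tr := .node .nil .nil .nil t330 .nil
def t332 : Tr := .node .nil .nil t2 .nil .nil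
def t333 : Tr := .node t332 .nil .nil .nil .nil
def t334 : Tr := .node .nil .nil t333 .nil .nil
def t335 : Tr := .node t334 .nil .nil .nil .nil
def t336 : Tr := .node t331 .nil t335 .nil .nil
def t337 : Tr := .node .nil .nil .nil .nil t336
def t338 : Tr := .node .nil .nil .nil t337 .nil
def t339 : Tr := .node t329 .nil .nil t14 .nil
def t340 : Tr := .node .nil .nil t339 .nil .nil
def t341 : Tr := .node t340 .nil .nil .nil .nil
def t342 : Tr := .node .nil .nil t341 .nil .nil
def t343 : Tr := .node t342 .nil .nil .nil .nil
def t344 : Tr := .node t338 .nil t343 .nil .nil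
def t345 : Tr := .node .nil .nil .nil .nil t344
def t346 : Tr := .node .nil .nil .nil t345 .nil
def t347 : Tr := .node .nil .nil t335 .nil .nil
def t348 : Tr := .node .nil .nil .nil t14 .nil
def t349 : Tr := .node t348 .nil .nil .nil .nil
def t350 : Tr := .node .nil .nil .nil .nil t349
def t351 : Tr := .node t347 .nil .nil t350 .nil
def t352 : Tr := .node .nil .nil t351 .nil .nil
def t353 : Tr := .node t352 .nil .nil .nil .nil
def t354 : Tr := .node .nil .nil t353 .nil .nil
def t355 : Tr := .node t354 .nil .nil .nil .nil
def t356 : Tr := .node t346 .nil t355 .nil .nil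
def t357 : Tr := .node .nil t329 .nil .nil .nil
def t358 : Tr := .node t357 .nil .nil .nil .nil
def t359 : Tr := .node .nil .nil .nil .nil t358
def t360 : Tr := .node .nil t336 .nil t359 .nil
def t361 : Tr := .node t360 .nil .nil .nil .nil
def t362 : Tr := .node .nil .nil .nil .nil t361
def t363 : Tr := .node .nil t344 .nil t362 .nil
def t364 : Tr := .node .nil .nil t343 .nil .nil
def t365 : Tr := .node .nil .nil .nil t350 .nil
def t366 : Tr := .node t365 .nil .nil .nil .nil
def t367 : Tr := .node .nil .nil .nil .nil t366
def t368 : Tr := .node t364 .nil .nil t367 .nil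
def t369 : Tr := .node t167 .nil t0 .nil .nil
def t370 : Tr := .node .nil .nil .nil .nil t369
def t371 : Tr := .node .nil .nil t2 t370 .nil
def t372 : Tr := .node .nil .nil t326 t1 .nil
def t373 : Tr := .node t372 .nil .nil .nil .nil
def t374 : Tr := .node t371 .nil t373 .nil .nil
def t375 : Tr := .node .nil .nil .nil .nil t374
def t376 : Tr := .node .nil t357 t339 t375 .nil
def t377 : Tr := .node .nil t327 .nil .nil .nil
def t378 : Tr := .node t377 .nil .nil .nil .nil
def t379 : Tr := .node .nil t167 .nil .nil .nil
def t380 : Tr := .node t379 .nil .nil .nil .nil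
def t381 : Tr := .node .nil .nil t0 .nil .nil
def t382 : Tr := .node t32 t0 t167 .nil .nil
def t383 : Tr := .node t381 t382 t379 t1 .nil
def t384 : Tr := .node .nil t380 t383 .nil .nil
def t385 : Tr := .node .nil t326 .nil .nil .nil
def t386 : Tr := .node t385 .nil t327 .nil .nil
def t387 : Tr := .node t384 t386 t377 .nil .nil
def t388 : Tr := .node .nil t378 t387 t14 .nil
def t389 : Tr := .node .nil t328 .nil .nil .nil
def t390 : Tr := .node t389 .nil t329 .nil .nil
def t391 : Tr := .node t388 t390 t357 .nil .nil
def t392 : Tr := .node t376 t358 t391 .nil .nil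
def t393 : Tr := .node .nil .nil .nil .nil t392
def t394 : Tr := .node .nil t360 t351 t393 .nil
def t395 : Tr := .node .nil .nil .nil .nil t327
def t396 : Tr := .node .nil .nil .nil t395 .nil
def t397 : Tr := .node t396 .nil t333 .nil .nil
def t398 : Tr := .node .nil .nil .nil .nil t378
def t399 : Tr := .node .nil t397 .nil t398 .nil
def t400 : Tr := .node t399 .nil .nil .nil .nil
def t401 : Tr := .node t169 .nil t2 .nil .nil
def t402 : Tr := .node .nil .nil .nil .nil t380
def t403 : Tr := .node .nil t401 .nil t402 .nil
def t404 : Tr := .node t403 .nil .nil .nil .nil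
def t405 : Tr := .node .nil .nil t373 .nil .nil
def t406 : Tr := .node .nil .nil .nil .nil t382
def t407 : Tr := .node .nil t2 .nil t406 .nil
def t408 : Tr := .node t407 t3 t401 .nil .nil
def t409 : Tr := .node .nil t382 t379 t1 .nil
def t410 : Tr := .node t409 .nil .nil .nil .nil
def t411 : Tr := .node .nil .nil .nil .nil t410
def t412 : Tr := .node t405 t408 t403 t411 .nil
def t413 : Tr := .node .nil t404 t412 .nil .nil
def t414 : Tr := .node .nil .nil .nil .nil t386
def t415 : Tr := .node .nil t333 .nil t414 .nil
def t416 : Tr := .node t415 .nil t397 .nil .nil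
def t417 : Tr := .node .nil t386 t377 .nil .nil
def t418 : Tr := .node t417 .nil .nil .nil .nil
def t419 : Tr := .node .nil .nil .nil .nil t418
def t420 : Tr := .node t413 t416 t399 t419 .nil
def t421 : Tr := .node .nil t400 t420 t350 .nil
def t422 : Tr := .node .nil .nil .nil .nil t390
def t423 : Tr := .node .nil t335 .nil t422 .nil
def t424 : Tr := .node t423 .nil t336 .nil .nil
def t425 : Tr := .node .nil t390 t357 .nil .nil
def t426 : Tr := .node t425 .nil .nil .nil .nil
def t427 : Tr := .node .nil .nil .nil .nil t426
def t428 : Tr := .node t421 t424 t360 t427 .nil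
def t429 : Tr := .node t394 t361 t428 .nil .nil
def t430 : Tr := .node .nil .nil .nil .nil t429
def t431 : Tr := .node .nil t363 t368 t430 .nil
def t432 : Tr := .node t363 .nil .nil .nil .nil
def t433 : Tr := .node .nil .nil .nil .nil t397
def t434 : Tr := .node .nil .nil .nil t433 .nil
def t435 : Tr := .node t434 .nil t341 .nil .nil
def t436 : Tr := .node .nil .nil .nil .nil t400
def t437 : Tr := .node .nil t435 .nil t436 .nil
def t438 : Tr := .node t437 .nil .nil .nil .nil
def t439 : Tr := .node .nil .nil .nil .nil t401
def t440 : Tr := .node .nil .nil .nil t439 .nil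
def t441 : Tr := .node t440 .nil t339 .nil .nil
def t442 : Tr := .node .nil .nil .nil .nil t404
def t443 : Tr := .node .nil t441 .nil t442 .nil
def t444 : Tr := .node t443 .nil .nil .nil .nil
def t445 : Tr := .node .nil t358 t391 .nil .nil
def t446 : Tr := .node .nil .nil .nil .nil t408
def t447 : Tr := .node .nil t339 .nil t446 .nil
def t448 : Tr := .node t447 t349 t441 .nil .nil
def t449 : Tr := .node .nil t408 t403 t411 .nil
def t450 : Tr := .node t449 .nil .nil .nil .nil
def t451 : Tr := .node .nil .nil .nil .nil t450
def t452 : Tr := .node t445 t448 t443 t451 .nil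
def t453 : Tr := .node .nil t444 t452 .nil .nil
def t454 : Tr := .node .nil .nil .nil .nil t416
def t455 : Tr := .node .nil t341 .nil t454 .nil
def t456 : Tr := .node t455 .nil t435 .nil .nil
def t457 : Tr := .node .nil t416 t399 t419 .nil
def t458 : Tr := .node t457 .nil .nil .nil .nil
def t459 : Tr := .node .nil .nil .nil .nil t458
def t460 : Tr := .node t453 t456 t437 t459 .nil
def t461 : Tr := .node .nil t438 t460 t367 .nil
def t462 : Tr := .node .nil .nil .nil .nil t424
def t463 : Tr := .node .nil t343 .nil t462 .nil
def t464 : Tr := .node t463 .nil t344 .nil .nil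
def t465 : Tr := .node .nil t424 t360 t427 .nil
def t466 : Tr := .node t465 .nil .nil .nil .nil
def t467 : Tr := .node .nil .nil .nil .nil t466
def t468 : Tr := .node t461 t464 t363 t467 .nil
def t469 : Tr := .node t431 t432 t468 .nil .nil
def t470 : Tr := .node .nil .nil .nil .nil t441
def t471 : Tr := .node .nil .nil .nil t470 .nil
def t472 : Tr := .node t471 .nil t351 .nil .nil
def t473 : Tr := .node .nil .nil .nil .nil t444
def t474 : Tr := .node .nil t472 .nil t473 .nil
def t475 : Tr := .node .nil t369 .nil .nil .nil
def t476 : Tr := .node t475 .nil .nil .nil .nil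
def t477 : Tr := .node .nil .nil .nil .nil t476
def t478 : Tr := .node .nil t374 .nil t477 .nil
def t479 : Tr := .node t478 .nil .nil t330 .nil
def t480 : Tr := .node .nil .nil .nil .nil t479
def t481 : Tr := .node .nil t392 .nil t480 .nil
def t482 : Tr := .node t481 .nil .nil t337 .nil
def t483 : Tr := .node .nil .nil .nil .nil t482
def t484 : Tr := .node t474 t429 .nil t483 .nil
def t485 : Tr := .node .nil t361 t428 .nil .nil
def t486 : Tr := .node .nil .nil .nil .nil t448
def t487 : Tr := .node .nil t351 .nil t486 .nil
def t488 : Tr := .node t487 t366 t472 .nil .nil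
def t489 : Tr := .node .nil t448 t443 t451 .nil
def t490 : Tr := .node t489 .nil .nil .nil .nil
def t491 : Tr := .node .nil .nil .nil .nil t490
def t492 : Tr := .node t485 t488 t474 t491 .nil
def t493 : Tr := .node t443 t392 .nil t480 .nil
def t494 : Tr := .node t403 t374 .nil t477 .nil
def t495 : Tr := .node t379 t369 .nil .nil .nil
def t496 : Tr := .node .nil t495 t383 t370 .nil
def t497 : Tr := .node t167 t167 t32 .nil .nil
def t498 : Tr := .node .nil t382 t497 t1 .nil
def t499 : Tr := .node t4 .nil t369 .nil .nil
def t500 : Tr := .node t498 t499 t475 .nil .nil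
def t501 : Tr := .node t496 t476 t500 .nil .nil
def t502 : Tr := .node .nil .nil .nil .nil t501
def t503 : Tr := .node .nil t494 t412 t502 .nil
def t504 : Tr := .node t115 .nil t326 t1 .nil
def t505 : Tr := .node .nil t504 .nil t406 .nil
def t506 : Tr := .node t505 t3 t401 t395 .nil
def t507 : Tr := .node t379 .nil .nil t168 .nil
def t508 : Tr := .node t32 t0 t167 t36 .nil
def t509 : Tr := .node t381 t508 t379 t72 .nil
def t510 : Tr := .node .nil .nil .nil .nil t379
def t511 : Tr := .node .nil t507 t509 t510 .nil
def t512 : Tr := .node .nil t326 .nil t168 .nil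
def t513 : Tr := .node .nil .nil .nil .nil t326
def t514 : Tr := .node t512 .nil t504 t513 .nil
def t515 : Tr := .node t115 .nil t326 .nil .nil
def t516 : Tr := .node .nil t515 .nil t118 .nil
def t517 : Tr := .node t176 t326 .nil .nil .nil
def t518 : Tr := .node .nil .nil .nil .nil t517
def t519 : Tr := .node t511 t514 t516 t518 .nil
def t520 : Tr := .node t409 t327 .nil .nil .nil
def t521 : Tr := .node .nil .nil .nil .nil t520
def t522 : Tr := .node .nil t506 t519 t521 .nil
def t523 : Tr := .node .nil .nil .nil .nil t499
def t524 : Tr := .node .nil t373 .nil t523 .nil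
def t525 : Tr := .node .nil .nil .nil .nil t328
def t526 : Tr := .node t524 .nil t374 t525 .nil
def t527 : Tr := .node .nil t499 t475 .nil .nil
def t528 : Tr := .node t527 t328 .nil .nil .nil
def t529 : Tr := .node .nil .nil .nil .nil t528
def t530 : Tr := .node t522 t526 t478 t529 .nil
def t531 : Tr := .node .nil .nil .nil .nil t357
def t532 : Tr := .node t503 t479 t530 t531 .nil
def t533 : Tr := .node .nil .nil .nil .nil t532
def t534 : Tr := .node .nil t493 t452 t533 .nil
def t535 : Tr := .node .nil .nil .nil .nil t515
def t536 : Tr := .node .nil t377 t328 t535 .nil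
def t537 : Tr := .node t536 t378 t387 t14 .nil
def t538 : Tr := .node .nil .nil .nil .nil t506
def t539 : Tr := .node .nil t537 .nil t538 .nil
def t540 : Tr := .node t539 t349 t441 t433 .nil
def t541 : Tr := .node .nil t379 t326 t168 .nil
def t542 : Tr := .node t541 t380 t383 .nil .nil
def t543 : Tr := .node .nil .nil .nil .nil t507
def t544 : Tr := .node .nil t542 .nil t543 .nil
def t545 : Tr := .node t544 .nil t329 t439 .nil
def t546 : Tr := .node t475 .nil t327 .nil .nil
def t547 : Tr := .node .nil t546 t500 .nil .nil
def t548 : Tr := .node .nil .nil .nil .nil t508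
def t549 : Tr := .node .nil t383 .nil t548 .nil
def t550 : Tr := .node .nil .nil .nil .nil t2
def t551 : Tr := .node t549 t410 t542 t550 .nil
def t552 : Tr := .node .nil t508 t379 t72 .nil
def t553 : Tr := .node t552 t2 .nil t406 .nil
def t554 : Tr := .node .nil .nil .nil .nil t553
def t555 : Tr := .node t547 t551 t544 t554 .nil
def t556 : Tr := .node .nil .nil .nil .nil t403
def t557 : Tr := .node .nil t545 t555 t556 .nil
def t558 : Tr := .node .nil .nil .nil .nil t514
def t559 : Tr := .node .nil t387 .nil t558 .nil
def t560 : Tr := .node .nil .nil .nil .nil t333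
def t561 : Tr := .node t559 t418 t537 t560 .nil
def t562 : Tr := .node t536 t378 t387 .nil .nil
def t563 : Tr := .node t516 .nil .nil t395 .nil
def t564 : Tr := .node .nil .nil .nil .nil t563
def t565 : Tr := .node .nil t562 .nil t564 .nil
def t566 : Tr := .node .nil t514 t516 t518 .nil
def t567 : Tr := .node t566 t333 .nil t414 .nil
def t568 : Tr := .node .nil .nil .nil .nil t567
def t569 : Tr := .node t557 t561 t565 t568 .nil
def t570 : Tr := .node t449 t397 .nil t398 .nil
def t571 : Tr := .node .nil .nil .nil .nil t570
def t572 : Tr := .node .nil t540 t569 t571 .nil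
def t573 : Tr := .node .nil .nil .nil .nil t526
def t574 : Tr := .node .nil t391 .nil t573 .nil
def t575 : Tr := .node .nil .nil .nil .nil t335
def t576 : Tr := .node t574 t426 t392 t575 .nil
def t577 : Tr := .node .nil t526 t478 t529 .nil
def t578 : Tr := .node t577 t335 .nil t422 .nil
def t579 : Tr := .node .nil .nil .nil .nil t578
def t580 : Tr := .node t572 t576 t481 t579 .nil
def t581 : Tr := .node .nil .nil .nil .nil t360
def t582 : Tr := .node t534 t482 t580 t581 .nil
def t583 : Tr := .node .nil .nil .nil .nil t582
def t584 : Tr := .node .nil t484 t492 t583 .nil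
def t585 : Tr := .node .nil .nil .nil .nil t546
def t586 : Tr := .node .nil t374 .nil t585 .nil
def t587 : Tr := .node t586 .nil t397 t330 .nil
def t588 : Tr := .node .nil .nil .nil .nil t587
def t589 : Tr := .node .nil t392 .nil t588 .nil
def t590 : Tr := .node t589 .nil t435 t337 .nil
def t591 : Tr := .node .nil .nil .nil .nil t590
def t592 : Tr := .node .nil t429 .nil t591 .nil
def t593 : Tr := .node .nil .nil .nil .nil t435
def t594 : Tr := .node .nil .nil .nil t593 .nil
def t595 : Tr := .node t594 .nil t353 .nil .nil
def t596 : Tr := .node t592 .nil t595 t345 .nil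
def t597 : Tr := .node .nil .nil .nil .nil t562
def t598 : Tr := .node .nil t399 t335 t597 .nil
def t599 : Tr := .node t598 t400 t420 t350 .nil
def t600 : Tr := .node .nil .nil .nil .nil t540
def t601 : Tr := .node .nil t599 .nil t600 .nil
def t602 : Tr := .node t601 t366 t472 t593 .nil
def t603 : Tr := .node .nil .nil .nil .nil t542
def t604 : Tr := .node .nil t403 t333 t603 .nil
def t605 : Tr := .node t604 t404 t412 .nil .nil
def t606 : Tr := .node .nil .nil .nil .nil t545
def t607 : Tr := .node .nil t605 .nil t606 .nil
def t608 : Tr := .node t607 .nil t336 t470 .nil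
def t609 : Tr := .node t417 t329 .nil .nil .nil
def t610 : Tr := .node .nil .nil .nil .nil t609
def t611 : Tr := .node .nil t587 t530 t610 .nil
def t612 : Tr := .node .nil .nil .nil .nil t551
def t613 : Tr := .node .nil t412 .nil t612 .nil
def t614 : Tr := .node .nil .nil .nil .nil t339
def t615 : Tr := .node t613 t450 t605 t614 .nil
def t616 : Tr := .node t544 .nil .nil t439 .nil
def t617 : Tr := .node .nil .nil .nil .nil t616
def t618 : Tr := .node .nil t605 .nil t617 .nil
def t619 : Tr := .node .nil t551 t544 t554 .nil
def t620 : Tr := .node t619 t339 .nil t446 .nil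
def t621 : Tr := .node .nil .nil .nil .nil t620
def t622 : Tr := .node t611 t615 t618 t621 .nil
def t623 : Tr := .node t425 t441 .nil t442 .nil
def t624 : Tr := .node .nil .nil .nil .nil t623
def t625 : Tr := .node .nil t608 t622 t624 .nil
def t626 : Tr := .node .nil .nil .nil .nil t561
def t627 : Tr := .node .nil t420 .nil t626 .nil
def t628 : Tr := .node .nil .nil .nil .nil t341
def t629 : Tr := .node t627 t458 t599 t628 .nil
def t630 : Tr := .node t598 t400 t420 .nil .nil
def t631 : Tr := .node t565 .nil .nil t433 .nil
def t632 : Tr := .node .nil .nil .nil .nil t631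
def t633 : Tr := .node .nil t630 .nil t632 .nil
def t634 : Tr := .node .nil t561 t565 t568 .nil
def t635 : Tr := .node t634 t341 .nil t454 .nil
def t636 : Tr := .node .nil .nil .nil .nil t635
def t637 : Tr := .node t625 t629 t633 t636 .nil
def t638 : Tr := .node t489 t435 .nil t436 .nil
def t639 : Tr := .node .nil .nil .nil .nil t638
def t640 : Tr := .node .nil t602 t637 t639 .nil
def t641 : Tr := .node .nil .nil .nil .nil t576
def t642 : Tr := .node .nil t428 .nil t641 .nil
def t643 : Tr := .node .nil .nil .nil .nil t343
def t644 : Tr := .node t642 t466 t429 t643 .nil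
def t645 : Tr := .node .nil t429 .nil t483 .nil
def t646 : Tr := .node .nil t576 t481 t579 .nil
def t647 : Tr := .node t646 t343 .nil t462 .nil
def t648 : Tr := .node .nil .nil .nil .nil t647
def t649 : Tr := .node t640 t644 t645 t648 .nil
def t650 : Tr := .node .nil t456 t437 t459 .nil
def t651 : Tr := .node t650 t344 .nil t362 .nil
def t652 : Tr := .node .nil .nil .nil .nil t651
def t653 : Tr := .node t584 t596 t649 t652 .nil
def t654 : Tr := .node .nil t117 t176 .nil .nil
def t655 : Tr := .node .nil t381 .nil .nil .nil
def t656 : Tr := .node t654 .nil t655 .nil .nil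
def t657 : Tr := .node .nil .nil t4 .nil .nil
def t658 : Tr := .node .nil t657 .nil .nil .nil
def t659 : Tr := .node .nil t656 t658 t129 .nil
def t660 : Tr := .node .nil .nil t5 .nil .nil
def t661 : Tr := .node .nil t660 .nil .nil .nil
def t662 : Tr := .node t659 .nil t661 .nil .nil
def t663 : Tr := .node .nil .nil t9 .nil .nil
def t664 : Tr := .node .nil t663 .nil .nil .nil
def t665 : Tr := .node .nil t662 t664 t134 .nil
def t666 : Tr := .node .nil .nil t10 .nil .nil
def t667 : Tr := .node .nil t666 .nil .nil .nil
def t668 : Tr := .node t665 .nil t667 .nil .nil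
def t669 : Tr := .node t169 .nil t116 .nil .nil
def t670 : Tr := .node .nil .nil .nil .nil t669
def t671 : Tr := .node .nil .nil .nil t670 .nil
def t672 : Tr := .node t130 t10 .nil .nil .nil
def t673 : Tr := .node t671 .nil t672 .nil .nil
def t674 : Tr := .node t130 .nil .nil .nil .nil
def t675 : Tr := .node .nil t674 .nil t134 .nil
def t676 : Tr := .node .nil t669 t119 t194 .nil
def t677 : Tr := .node t676 .nil .nil .nil .nil
def t678 : Tr := .node .nil .nil .nil .nil t677
def t679 : Tr := .node .nil t673 t675 t678 .nil
def t680 : Tr := .node .nil t668 t679 .nil .nil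
def t681 : Tr := .node .nil .nil .nil .nil t381
def t682 : Tr := .node .nil .nil .nil t681 .nil
def t683 : Tr := .node t682 .nil .nil .nil .nil
def t684 : Tr := .node .nil .nil .nil .nil t683
def t685 : Tr := .node .nil .nil .nil t684 .nil
def t686 : Tr := .node .nil t10 .nil .nil .nil
def t687 : Tr := .node t686 .nil .nil .nil .nil
def t688 : Tr := .node t685 .nil t687 .nil .nil
def t689 : Tr := .node t655 .nil .nil .nil .nil
def t690 : Tr := .node .nil .nil .nil .nil t689
def t691 : Tr := .node .nil t683 .nil t690 .nil
def t692 : Tr := .node t691 .nil .nil .nil .nil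
def t693 : Tr := .node .nil .nil .nil .nil t692
def t694 : Tr := .node .nil t688 .nil t693 .nil
def t695 : Tr := .node t680 .nil t694 .nil .nil
def t696 : Tr := .node .nil .nil .nil .nil t657
def t697 : Tr := .node .nil .nil .nil t696 .nil
def t698 : Tr := .node t697 .nil .nil .nil .nil
def t699 : Tr := .node .nil .nil .nil .nil t698
def t700 : Tr := .node .nil .nil .nil t699 .nil
def t701 : Tr := .node .nil t687 .nil .nil .nil
def t702 : Tr := .node t700 .nil t701 .nil .nil
def t703 : Tr := .node t658 .nil .nil .nil .nil
def t704 : Tr := .node .nil .nil .nil .nil t703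
def t705 : Tr := .node .nil t698 .nil t704 .nil
def t706 : Tr := .node t705 .nil .nil .nil .nil
def t707 : Tr := .node .nil .nil .nil .nil t706
def t708 : Tr := .node .nil t702 .nil t707 .nil
def t709 : Tr := .node .nil .nil .nil .nil t674
def t710 : Tr := .node .nil .nil .nil t709 .nil
def t711 : Tr := .node t710 .nil .nil .nil .nil
def t712 : Tr := .node .nil .nil .nil .nil t711
def t713 : Tr := .node .nil t695 t708 t712 .nil
def t714 : Tr := .node .nil .nil .nil .nil t660
def t715 : Tr := .node .nil .nil .nil t714 .nil
def t716 : Tr := .node t715 .nil .nil .nil .nil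
def t717 : Tr := .node .nil .nil .nil .nil t716
def t718 : Tr := .node .nil .nil .nil t717 .nil
def t719 : Tr := .node t701 .nil .nil .nil .nil
def t720 : Tr := .node t718 .nil t719 .nil .nil
def t721 : Tr := .node t661 .nil .nil .nil .nil
def t722 : Tr := .node .nil .nil .nil .nil t721
def t723 : Tr := .node .nil t716 .nil t722 .nil
def t724 : Tr := .node t723 .nil .nil .nil .nil
def t725 : Tr := .node .nil .nil .nil .nil t724
def t726 : Tr := .node .nil t720 .nil t725 .nil
def t727 : Tr := .node t713 .nil t726 .nil .nil
def t728 : Tr := .node .nil .nil .nil .nil t663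
def t729 : Tr := .node .nil .nil .nil t728 .nil
def t730 : Tr := .node t729 .nil .nil .nil .nil
def t731 : Tr := .node .nil .nil .nil .nil t730
def t732 : Tr := .node .nil .nil .nil t731 .nil
def t733 : Tr := .node .nil t719 .nil .nil .nil
def t734 : Tr := .node t732 .nil t733 .nil .nil
def t735 : Tr := .node t664 .nil .nil .nil .nil
def t736 : Tr := .node .nil .nil .nil .nil t735
def t737 : Tr := .node .nil t730 .nil t736 .nil
def t738 : Tr := .node t737 .nil .nil .nil .nil
def t739 : Tr := .node .nil .nil .nil .nil t738
def t740 : Tr := .node .nil t734 .nil t739 .nil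
def t741 : Tr := .node t675 .nil .nil .nil .nil
def t742 : Tr := .node .nil .nil .nil .nil t741
def t743 : Tr := .node .nil t711 .nil t742 .nil
def t744 : Tr := .node t743 .nil .nil .nil .nil
def t745 : Tr := .node .nil .nil .nil .nil t744
def t746 : Tr := .node .nil t727 t740 t745 .nil
def t747 : Tr := .node t733 .nil .nil .nil .nil
def t748 : Tr := .node t15 .nil t666 .nil .nil
def t749 : Tr := .node .nil .nil .nil .nil t748
def t750 : Tr := .node .nil .nil .nil t749 .nil
def t751 : Tr := .node .nil .nil .nil .nil t666
def t752 : Tr := .node .nil .nil .nil t751 .nil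
def t753 : Tr := .node t752 .nil .nil .nil .nil
def t754 : Tr := .node t750 .nil t753 .nil .nil
def t755 : Tr := .node .nil .nil .nil .nil t754
def t756 : Tr := .node .nil t747 .nil t755 .nil
def t757 : Tr := .node .nil .nil .nil .nil t753
def t758 : Tr := .node .nil .nil .nil t757 .nil
def t759 : Tr := .node t758 .nil t747 .nil .nil
def t760 : Tr := .node t756 .nil t759 .nil .nil
def t761 : Tr := .node t667 .nil .nil .nil .nil
def t762 : Tr := .node .nil .nil .nil .nil t761
def t763 : Tr := .node .nil t753 .nil t762 .nil
def t764 : Tr := .node t763 .nil .nil .nil .nil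
def t765 : Tr := .node .nil .nil .nil .nil t764
def t766 : Tr := .node .nil t759 .nil t765 .nil
def t767 : Tr := .node .nil t748 t667 t20 .nil
def t768 : Tr := .node t767 .nil .nil .nil .nil
def t769 : Tr := .node .nil .nil .nil .nil t768
def t770 : Tr := .node .nil t754 t763 t769 .nil
def t771 : Tr := .node t770 .nil .nil .nil .nil
def t772 : Tr := .node .nil .nil .nil .nil t771
def t773 : Tr := .node t746 t760 t766 t772 .nil
def t774 : Tr := .node .nil t178 t176 t252 .nil
def t775 : Tr := .node t774 t116 t655 t118 .nil
def t776 : Tr := .node .nil .nil t37 .nil .nil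
def t777 : Tr := .node t2 t776 .nil .nil .nil
def t778 : Tr := .node .nil t32 t0 t36 .nil
def t779 : Tr := .node t778 t117 t176 .nil .nil
def t780 : Tr := .node .nil .nil .nil .nil t779
def t781 : Tr := .node .nil t775 t777 t780 .nil
def t782 : Tr := .node t169 .nil t38 .nil .nil
def t783 : Tr := .node .nil t782 t119 t194 .nil
def t784 : Tr := .node .nil .nil .nil .nil t656
def t785 : Tr := .node t781 t133 t783 t784 .nil
def t786 : Tr := .node t114 .nil t43 .nil .nil
def t787 : Tr := .node t7 t786 .nil t122 .nil
def t788 : Tr := .node .nil t779 t5 t179 .nil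
def t789 : Tr := .node t788 t656 t658 t129 .nil
def t790 : Tr := .node .nil .nil .nil .nil t789
def t791 : Tr := .node .nil t785 t787 t790 .nil
def t792 : Tr := .node .nil .nil t33 .nil .nil
def t793 : Tr := .node .nil .nil .nil .nil t792
def t794 : Tr := .node .nil .nil .nil t793 .nil
def t795 : Tr := .node t794 .nil t44 .nil .nil
def t796 : Tr := .node .nil t792 .nil .nil .nil
def t797 : Tr := .node t796 .nil .nil .nil .nil
def t798 : Tr := .node .nil .nil .nil .nil t797
def t799 : Tr := .node .nil t795 .nil t798 .nil
def t800 : Tr := .node .nil .nil .nil .nil t662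
def t801 : Tr := .node t791 .nil t799 t800 .nil
def t802 : Tr := .node t4 .nil t381 .nil .nil
def t803 : Tr := .node .nil .nil .nil .nil t802
def t804 : Tr := .node .nil .nil .nil t803 .nil
def t805 : Tr := .node t804 .nil t683 .nil .nil
def t806 : Tr := .node .nil t802 t655 .nil .nil
def t807 : Tr := .node t806 .nil .nil .nil .nil
def t808 : Tr := .node .nil .nil .nil .nil t807
def t809 : Tr := .node .nil t805 t691 t808 .nil
def t810 : Tr := .node t243 t193 t779 .nil .nil
def t811 : Tr := .node .nil .nil .nil .nil t810
def t812 : Tr := .node .nil t676 .nil t811 .nil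
def t813 : Tr := .node .nil t119 .nil t780 .nil
def t814 : Tr := .node t43 .nil .nil t6 .nil
def t815 : Tr := .node .nil .nil .nil .nil t9
def t816 : Tr := .node t813 t814 t676 t815 .nil
def t817 : Tr := .node t812 t677 t816 .nil .nil
def t818 : Tr := .node t813 t133 t676 .nil .nil
def t819 : Tr := .node .nil t779 .nil t179 .nil
def t820 : Tr := .node t819 .nil .nil t129 .nil
def t821 : Tr := .node .nil .nil .nil .nil t820
def t822 : Tr := .node .nil t818 .nil t821 .nil
def t823 : Tr := .node .nil t810 t819 t272 .nil
def t824 : Tr := .node t823 .nil .nil t670 .nil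
def t825 : Tr := .node .nil .nil .nil .nil t824
def t826 : Tr := .node t809 t817 t822 t825 .nil
def t827 : Tr := .node t660 .nil t658 .nil .nil
def t828 : Tr := .node .nil t827 t10 .nil .nil
def t829 : Tr := .node t828 t662 t664 t134 .nil
def t830 : Tr := .node .nil .nil .nil .nil t829
def t831 : Tr := .node .nil t801 t826 t830 .nil
def t832 : Tr := .node .nil t655 .nil t681 .nil
def t833 : Tr := .node t654 t802 t655 .nil .nil
def t834 : Tr := .node t832 t689 t833 .nil .nil
def t835 : Tr := .node .nil .nil .nil .nil t834
def t836 : Tr := .node .nil t691 .nil t835 .nil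
def t837 : Tr := .node .nil t814 t676 t815 .nil
def t838 : Tr := .node t837 t805 t691 t808 .nil
def t839 : Tr := .node t836 t692 t838 .nil .nil
def t840 : Tr := .node t655 .nil .nil t681 .nil
def t841 : Tr := .node .nil .nil .nil .nil t840
def t842 : Tr := .node .nil t834 .nil t841 .nil
def t843 : Tr := .node t842 .nil .nil t684 .nil
def t844 : Tr := .node .nil .nil .nil .nil t843
def t845 : Tr := .node .nil t839 .nil t844 .nil
def t846 : Tr := .node .nil .nil .nil .nil t668
def t847 : Tr := .node t831 t711 t845 t846 .nil
def t848 : Tr := .node t9 .nil t660 .nil .nil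
def t849 : Tr := .node .nil .nil .nil .nil t848
def t850 : Tr := .node .nil .nil .nil t849 .nil
def t851 : Tr := .node t850 .nil t716 .nil .nil
def t852 : Tr := .node .nil t848 t661 t14 .nil
def t853 : Tr := .node t852 .nil .nil .nil .nil
def t854 : Tr := .node .nil .nil .nil .nil t853
def t855 : Tr := .node .nil t851 t723 t854 .nil
def t856 : Tr := .node .nil .nil .nil .nil t776
def t857 : Tr := .node .nil t658 .nil t856 .nil
def t858 : Tr := .node t660 t656 t658 t129 .nil
def t859 : Tr := .node t857 t703 t858 .nil .nil
def t860 : Tr := .node .nil .nil .nil .nil t859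
def t861 : Tr := .node .nil t705 .nil t860 .nil
def t862 : Tr := .node .nil .nil .nil .nil t827
def t863 : Tr := .node .nil .nil .nil t862 .nil
def t864 : Tr := .node t837 .nil t691 t11 .nil
def t865 : Tr := .node .nil .nil .nil .nil t672
def t866 : Tr := .node t863 t864 t705 t865 .nil
def t867 : Tr := .node t861 t706 t866 .nil .nil
def t868 : Tr := .node t863 .nil t705 .nil .nil
def t869 : Tr := .node .nil t827 .nil .nil .nil
def t870 : Tr := .node t869 .nil .nil .nil .nil
def t871 : Tr := .node .nil .nil .nil .nil t870
def t872 : Tr := .node .nil t868 .nil t871 .nil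
def t873 : Tr := .node .nil t776 .nil .nil .nil
def t874 : Tr := .node t873 .nil .nil t696 .nil
def t875 : Tr := .node .nil .nil .nil .nil t874
def t876 : Tr := .node .nil t859 t869 t875 .nil
def t877 : Tr := .node t876 .nil .nil t699 .nil
def t878 : Tr := .node .nil .nil .nil .nil t877
def t879 : Tr := .node t855 t867 t872 t878 .nil
def t880 : Tr := .node t666 t674 t664 t134 .nil
def t881 : Tr := .node .nil .nil .nil .nil t818
def t882 : Tr := .node .nil t880 t687 t881 .nil
def t883 : Tr := .node t882 t668 t679 .nil .nil
def t884 : Tr := .node .nil .nil .nil .nil t883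
def t885 : Tr := .node .nil t847 t879 t884 .nil
def t886 : Tr := .node .nil .nil .nil .nil t782
def t887 : Tr := .node .nil t661 .nil t886 .nil
def t888 : Tr := .node t659 t848 t661 t14 .nil
def t889 : Tr := .node t887 t721 t888 .nil .nil
def t890 : Tr := .node .nil .nil .nil .nil t889
def t891 : Tr := .node .nil t723 .nil t890 .nil
def t892 : Tr := .node .nil t864 t705 t865 .nil
def t893 : Tr := .node t892 t851 t723 t854 .nil
def t894 : Tr := .node t891 t724 t893 .nil .nil
def t895 : Tr := .node t783 .nil .nil t714 .nil
def t896 : Tr := .node .nil .nil .nil .nil t895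
def t897 : Tr := .node .nil t889 t675 t896 .nil
def t898 : Tr := .node t897 .nil .nil t717 .nil
def t899 : Tr := .node .nil .nil .nil .nil t898
def t900 : Tr := .node .nil t894 t743 t899 .nil
def t901 : Tr := .node .nil .nil .nil .nil t695
def t902 : Tr := .node t885 t744 t900 t901 .nil
def t903 : Tr := .node .nil .nil .nil .nil t786
def t904 : Tr := .node .nil t664 .nil t903 .nil
def t905 : Tr := .node t666 t662 t664 t134 .nil
def t906 : Tr := .node t904 t735 t905 .nil .nil
def t907 : Tr := .node .nil .nil .nil .nil t906
def t908 : Tr := .node .nil t737 .nil t907 .nil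
def t909 : Tr := .node t666 .nil t664 .nil .nil
def t910 : Tr := .node .nil .nil .nil .nil t909
def t911 : Tr := .node .nil .nil .nil t910 .nil
def t912 : Tr := .node .nil .nil .nil .nil t687
def t913 : Tr := .node t892 .nil t723 t912 .nil
def t914 : Tr := .node t675 t687 .nil .nil .nil
def t915 : Tr := .node .nil .nil .nil .nil t914
def t916 : Tr := .node t911 t913 t737 t915 .nil
def t917 : Tr := .node t908 t738 t916 .nil .nil
def t918 : Tr := .node t911 .nil t737 .nil .nil
def t919 : Tr := .node .nil t909 .nil .nil .nil
def t920 : Tr := .node t919 .nil .nil .nil .nil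
def t921 : Tr := .node .nil .nil .nil .nil t920
def t922 : Tr := .node .nil t918 .nil t921 .nil
def t923 : Tr := .node .nil t786 .nil t122 .nil
def t924 : Tr := .node t923 .nil .nil t728 .nil
def t925 : Tr := .node .nil .nil .nil .nil t924
def t926 : Tr := .node .nil t906 t919 t925 .nil
def t927 : Tr := .node t926 .nil .nil t731 .nil
def t928 : Tr := .node .nil .nil .nil .nil t927
def t929 : Tr := .node t770 t917 t922 t928 .nil
def t930 : Tr := .node .nil t675 t687 t881 .nil
def t931 : Tr := .node t930 t741 t679 .nil .nil
def t932 : Tr := .node t788 .nil t658 t129 .nil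
def t933 : Tr := .node .nil .nil .nil .nil t932
def t934 : Tr := .node .nil t818 .nil t933 .nil
def t935 : Tr := .node t934 .nil t705 t709 .nil
def t936 : Tr := .node .nil .nil .nil .nil t935
def t937 : Tr := .node .nil t931 t719 t936 .nil
def t938 : Tr := .node t937 t695 t708 t712 .nil
def t939 : Tr := .node .nil .nil .nil .nil t938
def t940 : Tr := .node .nil t902 t929 t939 .nil
def t941 : Tr := .node .nil t913 t737 t915 .nil
def t942 : Tr := .node t941 t754 t763 t769 .nil
def t943 : Tr := .node .nil .nil .nil .nil t673
def t944 : Tr := .node .nil .nil .nil t943 .nil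
def t945 : Tr := .node t944 .nil t711 .nil .nil
def t946 : Tr := .node t679 .nil .nil .nil .nil
def t947 : Tr := .node .nil .nil .nil .nil t946
def t948 : Tr := .node .nil t945 t743 t947 .nil
def t949 : Tr := .node t665 t748 t667 t20 .nil
def t950 : Tr := .node .nil t33 t176 t1 .nil
def t951 : Tr := .node .nil t381 t33 .nil .nil
def t952 : Tr := .node t950 t5 t951 .nil .nil
def t953 : Tr := .node .nil .nil .nil .nil t952
def t954 : Tr := .node .nil t44 t676 t953 .nil
def t955 : Tr := .node t794 t683 t44 t690 .nil
def t956 : Tr := .node t954 t8 t955 t11 .nil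
def t957 : Tr := .node .nil .nil .nil .nil t956
def t958 : Tr := .node .nil t949 t679 t957 .nil
def t959 : Tr := .node .nil .nil .nil .nil t795
def t960 : Tr := .node .nil t667 .nil t959 .nil
def t961 : Tr := .node .nil t666 .nil t684 .nil
def t962 : Tr := .node t961 .nil t687 .nil .nil
def t963 : Tr := .node t960 t962 t949 t693 .nil
def t964 : Tr := .node t958 t768 t963 .nil .nil
def t965 : Tr := .node .nil .nil .nil .nil t964
def t966 : Tr := .node .nil t942 t948 t965 .nil
def t967 : Tr := .node t960 t761 t949 .nil .nil
def t968 : Tr := .node .nil .nil .nil .nil t967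
def t969 : Tr := .node .nil t763 .nil t968 .nil
def t970 : Tr := .node .nil .nil .nil .nil t962
def t971 : Tr := .node .nil t753 .nil t970 .nil
def t972 : Tr := .node t971 .nil .nil .nil .nil
def t973 : Tr := .node t694 .nil .nil .nil .nil
def t974 : Tr := .node .nil .nil .nil .nil t973
def t975 : Tr := .node t969 t972 t942 t974 .nil
def t976 : Tr := .node .nil .nil .nil .nil t747
def t977 : Tr := .node t966 t771 t975 t976 .nil
def t978 : Tr := .node t969 t764 t942 .nil .nil
def t979 : Tr := .node t799 .nil .nil t751 .nil
def t980 : Tr := .node .nil .nil .nil .nil t979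
def t981 : Tr := .node .nil t967 .nil t980 .nil
def t982 : Tr := .node t981 .nil .nil t757 .nil
def t983 : Tr := .node .nil .nil .nil .nil t982
def t984 : Tr := .node .nil t978 .nil t983 .nil
def t985 : Tr := .node .nil t952 t796 t39 .nil
def t986 : Tr := .node t985 t10 t661 t14 .nil
def t987 : Tr := .node .nil .nil .nil .nil t986
def t988 : Tr := .node .nil t956 t799 t987 .nil
def t989 : Tr := .node t988 .nil t723 t749 .nil
def t990 : Tr := .node .nil .nil .nil .nil t989
def t991 : Tr := .node .nil t964 t981 t990 .nil
def t992 : Tr := .node t991 t747 t726 t755 .nil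
def t993 : Tr := .node .nil .nil .nil .nil t992
def t994 : Tr := .node t940 t977 t984 t993 .nil
def t995 : Tr := .node .nil .nil t131 .nil .nil
def t996 : Tr := .node .nil t995 .nil .nil .nil
def t997 : Tr := .node .nil .nil t996 .nil .nil
def t998 : Tr := .node .nil t997 .nil .nil .nil
def t999 : Tr := .node .nil .nil t998 .nil .nil

end Pool.Agent.N374.Gun
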