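import Pool.Agent.N374.Gun.Cert0

/-! Prefix trees of column words (part 1). -/

set_option autoImplicit false

namespace Pool.Agent.N374.Gun

def t1000 : Tr := .node .nil t999 .nil .nil .nil
def t1001 : Tr := .node t1000 .nil .nil .nil .nil
def t1002 : Tr := .node .nil .nil t147 t127 .nil
def t1003 : Tr := .node t1002 .nil t135 .nil .nil
def t1004 : Tr := .node .nil .nil .nil .nil t1003
def t1005 : Tr := .node .nil .nil .nil t1004 .nil
def t1006 : Tr := .node t146 .nil .nil .nil .nil
def t1007 : Tr := .node .nil t1006 .nil t152 .nil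
def t1008 : Tr := .node t1005 .nil t1007 .nil .nil
def t1009 : Tr := .node .nil .nil .nil .nil t1008
def t1010 : Tr := .node .nil .nil t1001 t1009 .nil
def t1011 : Tr := .node t999 .nil .nil .nil .nil
def t1012 : Tr := .node t440 .nil t348 .nil .nil
def t1013 : Tr := .node .nil .nil .nil .nil t1012
def t1014 : Tr := .node .nil .nil .nil t1013 .nil
def t1015 : Tr := .node t1014 .nil t365 .nil .nil
def t1016 : Tr := .node .nil .nil .nil .nil t1015
def t1017 : Tr := .node .nil .nil t1011 t1016 .nil
def t1018 : Tr := .node t998 .nil .nil .nil .nil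
def t1019 : Tr := .node .nil .nil t1018 .nil .nil
def t1020 : Tr := .node t997 .nil .nil .nil .nil
def t1021 : Tr := .node .nil .nil t1020 .nil .nil
def t1022 : Tr := .node t996 .nil .nil .nil .nil
def t1023 : Tr := .node .nil .nil t1022 .nil .nil
def t1024 : Tr := .node .nil .nil t131 t14 .nil
def t1025 : Tr := .node t1024 .nil .nil .nil .nil
def t1026 : Tr := .node .nil .nil t1025 .nil .nil
def t1027 : Tr := .node .nil .nil t147 .nil .nil
def t1028 : Tr := .node t110 .nil .nil .nil .nil
def t1029 : Tr := .node .nil .nil t1028 t439 .nil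
def t1030 : Tr := .node .nil .nil t121 .nil .nil
def t1031 : Tr := .node t108 .nil .nil .nil .nil
def t1032 : Tr := .node .nil .nil t1031 .nil .nil
def t1033 : Tr := .node .nil .nil t117 .nil .nil
def t1034 : Tr := .node t381 .nil t379 .nil .nil
def t1035 : Tr := .node t1033 t1034 .nil .nil .nil
def t1036 : Tr := .node t1032 .nil t1035 .nil .nil
def t1037 : Tr := .node t1030 t1036 .nil t14 .nil
def t1038 : Tr := .node t1029 .nil t1037 .nil .nil
def t1039 : Tr := .node t1027 t1038 .nil t442 .nil
def t1040 : Tr := .node t1026 .nil t1039 .nil .nil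
def t1041 : Tr := .node t1023 t1040 .nil .nil .nil
def t1042 : Tr := .node t1021 .nil t1041 .nil .nil
def t1043 : Tr := .node t1019 t1042 .nil t367 .nil
def t1044 : Tr := .node t1017 .nil t1043 .nil .nil
def t1045 : Tr := .node .nil .nil .nil .nil t1006
def t1046 : Tr := .node .nil .nil .nil t1045 .nil
def t1047 : Tr := .node t1046 .nil t1000 .nil .nil
def t1048 : Tr := .node t1007 .nil .nil .nil .nil
def t1049 : Tr := .node .nil .nil .nil .nil t1048
def t1050 : Tr := .node .nil t1047 .nil t1049 .nil
def t1051 : Tr := .node .nil t1012 .nil t442 .nil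
def t1052 : Tr := .node t1051 .nil .nil .nil .nil
def t1053 : Tr := .node .nil .nil .nil .nil t1052
def t1054 : Tr := .node .nil t1015 .nil t1053 .nil
def t1055 : Tr := .node t1054 .nil .nil .nil .nil
def t1056 : Tr := .node .nil .nil .nil .nil t1055
def t1057 : Tr := .node t1010 t1044 t1050 t1056 .nil
def t1058 : Tr := .node .nil .nil .nil .nil t1027
def t1059 : Tr := .node .nil .nil .nil t1058 .nil
def t1060 : Tr := .node t1059 .nil .nil .nil .nil
def t1061 : Tr := .node .nil t1027 .nil .nil .nil
def t1062 : Tr := .node t1061 .nil .nil .nil .nil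
def t1063 : Tr := .node .nil .nil .nil .nil t1062
def t1064 : Tr := .node .nil t1060 .nil t1063 .nil
def t1065 : Tr := .node .nil t1003 .nil t138 .nil
def t1066 : Tr := .node t1065 .nil .nil .nil .nil
def t1067 : Tr := .node .nil .nil .nil .nil t1066
def t1068 : Tr := .node t1064 t1008 .nil t1067 .nil
def t1069 : Tr := .node .nil .nil .nil .nil t995
def t1070 : Tr := .node .nil .nil .nil t1069 .nil
def t1071 : Tr := .node .nil .nil t3 .nil .nil
def t1072 : Tr := .node t114 t171 .nil t194 .nil
def t1073 : Tr := .node t1071 .nil t1072 .nil .nil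
def t1074 : Tr := .node .nil .nil .nil .nil t1028
def t1075 : Tr := .node t112 t1073 .nil t1074 .nil
def t1076 : Tr := .node .nil .nil t1075 .nil .nil
def t1077 : Tr := .node .nil .nil .nil .nil t1025
def t1078 : Tr := .node t1070 t1076 .nil t1077 .nil
def t1079 : Tr := .node t1014 .nil t1078 .nil .nil
def t1080 : Tr := .node .nil t1012 t996 t442 .nil
def t1081 : Tr := .node t1080 .nil .nil .nil .nil
def t1082 : Tr := .node .nil .nil .nil .nil t1081
def t1083 : Tr := .node .nil t1079 t1007 t1082 .nil
def t1084 : Tr := .node .nil t147 .nil .nil .nil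
def t1085 : Tr := .node t1084 .nil t1027 .nil .nil
def t1086 : Tr := .node .nil .nil .nil .nil t1085
def t1087 : Tr := .node .nil .nil .nil t1086 .nil
def t1088 : Tr := .node t1087 .nil t1060 .nil .nil
def t1089 : Tr := .node t112 .nil .nil .nil .nil
def t1090 : Tr := .node .nil .nil .nil .nil t1089
def t1091 : Tr := .node .nil t1085 t1061 t1090 .nil
def t1092 : Tr := .node t1091 .nil t998 .nil .nil
def t1093 : Tr := .node .nil .nil .nil .nil t1092
def t1094 : Tr := .node t1083 t1088 t1064 t1093 .nil
def t1095 : Tr := .node t1061 t1003 .nil t138 .nil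
def t1096 : Tr := .node .nil t1038 t135 t442 .nil
def t1097 : Tr := .node t1096 t1085 t1061 t1090 .nil
def t1098 : Tr := .node .nil t109 t193 t113 .nil
def t1099 : Tr := .node t1033 t779 t109 t179 .nil
def t1100 : Tr := .node t1098 t121 t1099 .nil .nil
def t1101 : Tr := .node .nil .nil .nil .nil t1100
def t1102 : Tr := .node .nil t123 t215 t1101 .nil
def t1103 : Tr := .node .nil t119 t3 t780 .nil
def t1104 : Tr := .node t1103 t133 t195 .nil .nil
def t1105 : Tr := .node .nil t779 t109 t179 .nil
def t1106 : Tr := .node t1105 .nil .nil t129 .nil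
def t1107 : Tr := .node .nil .nil .nil .nil t1106
def t1108 : Tr := .node t112 t1104 t123 t1107 .nil
def t1109 : Tr := .node t1102 t137 t1108 .nil .nil
def t1110 : Tr := .node .nil .nil .nil .nil t1109
def t1111 : Tr := .node .nil t1095 t1097 t1110 .nil
def t1112 : Tr := .node t996 t1027 .nil .nil .nil
def t1113 : Tr := .node .nil t1085 t1112 t1090 .nil
def t1114 : Tr := .node .nil .nil .nil .nil t1104
def t1115 : Tr := .node .nil t135 t1025 t1114 .nil
def t1116 : Tr := .node t1002 t1038 t135 t442 .nil
def t1117 : Tr := .node t1115 t151 t1116 .nil .nil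
def t1118 : Tr := .node .nil t1104 t123 t1107 .nil
def t1119 : Tr := .node t1118 .nil .nil t145 .nil
def t1120 : Tr := .node .nil .nil .nil .nil t1119
def t1121 : Tr := .node t1113 t1117 t1065 t1120 .nil
def t1122 : Tr := .node t1111 t1066 t1121 .nil .nil
def t1123 : Tr := .node .nil .nil .nil .nil t1122
def t1124 : Tr := .node .nil t1068 t1094 t1123 .nil
def t1125 : Tr := .node .nil .nil t1028 .nil .nil
def t1126 : Tr := .node .nil .nil .nil .nil t1125
def t1127 : Tr := .node .nil .nil .nil t1126 .nil
def t1128 : Tr := .node t1127 .nil .nil .nil .nil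
def t1129 : Tr := .node .nil t1125 t147 t127 .nil
def t1130 : Tr := .node t1129 .nil t135 .nil .nil
def t1131 : Tr := .node .nil .nil .nil .nil t1130
def t1132 : Tr := .node .nil t1128 .nil t1131 .nil
def t1133 : Tr := .node t1132 t1015 t1007 t1053 .nil
def t1134 : Tr := .node .nil .nil .nil t148 .nil
def t1135 : Tr := .node t1134 .nil .nil .nil .nil
def t1136 : Tr := .node t1084 .nil .nil .nil .nil
def t1137 : Tr := .node .nil .nil .nil .nil t1136
def t1138 : Tr := .node .nil t1135 t1078 t1137 .nil
def t1139 : Tr := .node .nil t1028 .nil .nil .nil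
def t1140 : Tr := .node t1139 .nil t1125 .nil .nil
def t1141 : Tr := .node .nil .nil .nil .nil t1140
def t1142 : Tr := .node .nil .nil .nil t1141 .nil
def t1143 : Tr := .node t1142 .nil t1128 .nil .nil
def t1144 : Tr := .node .nil t1125 .nil .nil .nil
def t1145 : Tr := .node t1144 .nil .nil .nil .nil
def t1146 : Tr := .node .nil .nil .nil .nil t1145
def t1147 : Tr := .node .nil t1128 .nil t1146 .nil
def t1148 : Tr := .node .nil t1140 t1144 .nil .nil
def t1149 : Tr := .node t1148 .nil .nil .nil .nil
def t1150 : Tr := .node .nil .nil .nil .nil t1149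
def t1151 : Tr := .node t1138 t1143 t1147 t1150 .nil
def t1152 : Tr := .node t1002 t1012 t135 t442 .nil
def t1153 : Tr := .node t114 t401 t119 t402 .nil
def t1154 : Tr := .node t243 t380 t383 .nil .nil
def t1155 : Tr := .node .nil .nil .nil .nil t1154
def t1156 : Tr := .node .nil t1153 .nil t1155 .nil
def t1157 : Tr := .node t1071 t408 t403 t411 .nil
def t1158 : Tr := .node t1156 t404 t1157 .nil .nil
def t1159 : Tr := .node .nil .nil .nil .nil t1158
def t1160 : Tr := .node .nil t1152 .nil t1159 .nil
def t1161 : Tr := .node .nil t1024 .nil t446 .nil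
def t1162 : Tr := .node t1161 t349 t1012 .nil .nil
def t1163 : Tr := .node t1026 t1162 t1051 t451 .nil
def t1164 : Tr := .node t1160 t1052 t1163 .nil .nil
def t1165 : Tr := .node .nil .nil .nil .nil t1164
def t1166 : Tr := .node .nil t1133 t1151 t1165 .nil
def t1167 : Tr := .node .nil .nil .nil .nil t1030
def t1168 : Tr := .node .nil .nil .nil t1167 .nil
def t1169 : Tr := .node t1168 .nil .nil .nil .nil
def t1170 : Tr := .node .nil t1030 .nil .nil .nil
def t1171 : Tr := .node t1170 .nil .nil .nil .nil
def t1172 : Tr := .node .nil .nil .nil .nil t1171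
def t1173 : Tr := .node .nil t1169 .nil t1172 .nil
def t1174 : Tr := .node t1173 .nil .nil .nil .nil
def t1175 : Tr := .node .nil t1089 .nil t148 .nil
def t1176 : Tr := .node .nil t1076 t1175 t1077 .nil
def t1177 : Tr := .node .nil t121 .nil .nil .nil
def t1178 : Tr := .node t1177 .nil t1030 .nil .nil
def t1179 : Tr := .node .nil .nil .nil .nil t1178
def t1180 : Tr := .node .nil .nil .nil t1179 .nil
def t1181 : Tr := .node t1180 .nil t1169 .nil .nil
def t1182 : Tr := .node t114 .nil .nil .nil .nil
def t1183 : Tr := .node .nil .nil .nil .nil t1182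
def t1184 : Tr := .node .nil t1178 t1170 t1183 .nil
def t1185 : Tr := .node t1184 .nil t996 .nil .nil
def t1186 : Tr := .node .nil .nil .nil .nil t1185
def t1187 : Tr := .node t1176 t1181 t1173 t1186 .nil
def t1188 : Tr := .node .nil .nil .nil .nil t1040
def t1189 : Tr := .node .nil t1174 t1187 t1188 .nil
def t1190 : Tr := .node .nil .nil .nil .nil t1032
def t1191 : Tr := .node .nil .nil .nil t1190 .nil
def t1192 : Tr := .node t1191 .nil .nil .nil .nil
def t1193 : Tr := .node .nil t1032 t121 t129 .nil
def t1194 : Tr := .node t1193 .nil t131 .nil .nil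
def t1195 : Tr := .node .nil .nil .nil .nil t1194
def t1196 : Tr := .node .nil t1192 .nil t1195 .nil
def t1197 : Tr := .node t1196 .nil t1175 t350 .nil
def t1198 : Tr := .node .nil .nil .nil t122 .nil
def t1199 : Tr := .node t1198 .nil .nil .nil .nil
def t1200 : Tr := .node t1177 .nil .nil .nil .nil
def t1201 : Tr := .node .nil .nil .nil .nil t1200
def t1202 : Tr := .node .nil t1199 t1075 t1201 .nil
def t1203 : Tr := .node .nil t1031 .nil .nil .nil
def t1204 : Tr := .node t1203 .nil t1032 .nil .nil
def t1205 : Tr := .node .nil .nil .nil .nil t1204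
def t1206 : Tr := .node .nil .nil .nil t1205 .nil
def t1207 : Tr := .node t1206 .nil t1192 .nil .nil
def t1208 : Tr := .node .nil t1032 .nil .nil .nil
def t1209 : Tr := .node t1208 .nil .nil .nil .nil
def t1210 : Tr := .node .nil .nil .nil .nil t1209
def t1211 : Tr := .node .nil t1192 .nil t1210 .nil
def t1212 : Tr := .node .nil t1204 t1208 .nil .nil
def t1213 : Tr := .node t1212 .nil .nil .nil .nil
def t1214 : Tr := .node .nil .nil .nil .nil t1213
def t1215 : Tr := .node t1202 t1207 t1211 t1214 .nil
def t1216 : Tr := .node .nil .nil t121 t129 .nil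
def t1217 : Tr := .node t1216 .nil t131 t14 .nil
def t1218 : Tr := .node t115 .nil .nil t1 .nil
def t1219 : Tr := .node .nil t1218 .nil t406 .nil
def t1220 : Tr := .node t1219 t3 t401 .nil .nil
def t1221 : Tr := .node .nil .nil .nil .nil t1220
def t1222 : Tr := .node .nil t1217 .nil t1221 .nil
def t1223 : Tr := .node t1029 t147 t348 .nil .nil
def t1224 : Tr := .node t1222 t349 t1223 .nil .nil
def t1225 : Tr := .node .nil .nil .nil .nil t1224
def t1226 : Tr := .node .nil t1197 t1215 t1225 .nil
def t1227 : Tr := .node .nil .nil .nil .nil t1033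
def t1228 : Tr := .node .nil .nil .nil t1227 .nil
def t1229 : Tr := .node t1228 .nil .nil .nil .nil
def t1230 : Tr := .node .nil t1033 .nil .nil .nil
def t1231 : Tr := .node t1230 .nil .nil .nil .nil
def t1232 : Tr := .node .nil .nil .nil .nil t1231
def t1233 : Tr := .node .nil t1229 .nil t1232 .nil
def t1234 : Tr := .node t1233 .nil .nil .nil .nil
def t1235 : Tr := .node .nil t1182 .nil t122 .nil
def t1236 : Tr := .node .nil t1073 t1235 t1074 .nil
def t1237 : Tr := .node .nil t117 .nil .nil .nil
def t1238 : Tr := .node t1237 .nil t1033 .nil .nil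
def t1239 : Tr := .node .nil .nil .nil .nil t1238
def t1240 : Tr := .node .nil .nil .nil t1239 .nil
def t1241 : Tr := .node t1240 .nil t1229 .nil .nil
def t1242 : Tr := .node .nil t1238 t1230 t129 .nil
def t1243 : Tr := .node t1242 .nil t131 .nil .nil
def t1244 : Tr := .node .nil .nil .nil .nil t1243
def t1245 : Tr := .node t1236 t1241 t1233 t1244 .nil
def t1246 : Tr := .node .nil .nil .nil .nil t1038
def t1247 : Tr := .node .nil t1234 t1245 t1246 .nil
def t1248 : Tr := .node t371 .nil t3 .nil .nil
def t1249 : Tr := .node .nil t369 t117 .nil .nil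
def t1250 : Tr := .node t1249 .nil t109 .nil .nil
def t1251 : Tr := .node .nil .nil .nil .nil t1250
def t1252 : Tr := .node .nil t1248 .nil t1251 .nil
def t1253 : Tr := .node t1252 .nil t1235 .nil .nil
def t1254 : Tr := .node .nil t408 t1072 t411 .nil
def t1255 : Tr := .node .nil t3 .nil t523 .nil
def t1256 : Tr := .node t1255 .nil t1248 .nil .nil
def t1257 : Tr := .node .nil t1248 .nil t477 .nil
def t1258 : Tr := .node t527 .nil .nil .nil .nil
def t1259 : Tr := .node .nil .nil .nil .nil t1258
def t1260 : Tr := .node t1254 t1256 t1257 t1259 .nil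
def t1261 : Tr := .node t1033 .nil t109 .nil .nil
def t1262 : Tr := .node .nil t1261 .nil .nil .nil
def t1263 : Tr := .node t1032 t121 .nil .nil .nil
def t1264 : Tr := .node t1262 .nil t1263 .nil .nil
def t1265 : Tr := .node .nil .nil .nil .nil t1264
def t1266 : Tr := .node .nil t1253 t1260 t1265 .nil
def t1267 : Tr := .node .nil .nil .nil .nil t1036
def t1268 : Tr := .node .nil .nil t215 t1267 .nil
def t1269 : Tr := .node .nil .nil t170 .nil .nil
def t1270 : Tr := .node t1269 .nil .nil .nil .nil
def t1271 : Tr := .node .nil t1153 t1270 t1155 .nil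
def t1272 : Tr := .node .nil .nil .nil .nil t1034
def t1273 : Tr := .node .nil .nil t183 t1272 .nil
def t1274 : Tr := .node .nil t1218 t1031 t406 .nil
def t1275 : Tr := .node .nil .nil t178 t168 .nil
def t1276 : Tr := .node t1275 t1034 t2 t370 .nil
def t1277 : Tr := .node t1274 t3 t1276 .nil .nil
def t1278 : Tr := .node t409 .nil t1031 .nil .nil
def t1279 : Tr := .node .nil .nil .nil .nil t1278
def t1280 : Tr := .node t1273 t1277 t403 t1279 .nil
def t1281 : Tr := .node t1271 t404 t1280 .nil .nil
def t1282 : Tr := .node .nil t1154 t1035 t543 .nil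
def t1283 : Tr := .node t1282 .nil t1028 t439 .nil
def t1284 : Tr := .node .nil .nil .nil .nil t1283
def t1285 : Tr := .node t1268 t1281 .nil t1284 .nil
def t1286 : Tr := .node t1266 .nil t1285 .nil .nil
def t1287 : Tr := .node t131 .nil t1263 .nil .nil
def t1288 : Tr := .node .nil .nil .nil .nil t1248
def t1289 : Tr := .node .nil t1287 t1037 t1288 .nil
def t1290 : Tr := .node t1289 .nil t1025 .nil .nil
def t1291 : Tr := .node .nil .nil .nil .nil t1290
def t1292 : Tr := .node t1247 t1286 t365 t1291 .nil
def t1293 : Tr := .node t1226 t366 t1292 .nil .nil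
def t1294 : Tr := .node t1161 t349 t1223 .nil .nil
def t1295 : Tr := .node .nil t408 t403 t1279 .nil
def t1296 : Tr := .node t1295 .nil .nil .nil .nil
def t1297 : Tr := .node .nil .nil .nil .nil t1296
def t1298 : Tr := .node .nil t1294 t1039 t1297 .nil
def t1299 : Tr := .node t1298 .nil t1020 .nil .nil
def t1300 : Tr := .node .nil .nil .nil .nil t1299
def t1301 : Tr := .node t1189 t1293 t1054 t1300 .nil
def t1302 : Tr := .node t1166 t1055 t1301 .nil .nil
def t1303 : Tr := .node .nil t1088 t1064 t1093 .nil
def t1304 : Tr := .node .nil .nil .nil .nil t1117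
def t1305 : Tr := .node .nil t1007 t366 t1304 .nil
def t1306 : Tr := .node t1005 t1079 t1007 t1082 .nil
def t1307 : Tr := .node t1305 t1048 t1306 .nil .nil
def t1308 : Tr := .node .nil t1008 .nil t1067 .nil
def t1309 : Tr := .node .nil t1117 t1065 t1120 .nil
def t1310 : Tr := .node t1309 .nil .nil t1045 .nil
def t1311 : Tr := .node .nil .nil .nil .nil t1310
def t1312 : Tr := .node t1303 t1307 t1308 t1311 .nil
def t1313 : Tr := .node .nil t403 .nil t1155 .nil
def t1314 : Tr := .node t1313 t404 t1157 .nil .nil
def t1315 : Tr := .node .nil .nil .nil .nil t1314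
def t1316 : Tr := .node .nil t1080 .nil t1315 .nil
def t1317 : Tr := .node t1316 t1052 t1163 .nil .nil
def t1318 : Tr := .node .nil t1154 .nil t543 .nil
def t1319 : Tr := .node t1318 .nil t1028 t439 .nil
def t1320 : Tr := .node .nil .nil .nil .nil t1319
def t1321 : Tr := .node .nil t1314 .nil t1320 .nil
def t1322 : Tr := .node t1321 .nil .nil t1013 .nil
def t1323 : Tr := .node .nil .nil .nil .nil t1322
def t1324 : Tr := .node .nil t1317 t1041 t1323 .nil
def t1325 : Tr := .node t1324 .nil t1011 t1016 .nil
def t1326 : Tr := .node .nil .nil .nil .nil t1325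
def t1327 : Tr := .node t1124 t1302 t1312 t1326 .nil
def t1328 : Tr := .node t329 .nil .nil .nil .nil
def t1329 : Tr := .node .nil .nil t1328 .nil .nil
def t1330 : Tr := .node t1329 .nil .nil .nil .nil
def t1331 : Tr := .node .nil .nil t1330 .nil .nil
def t1332 : Tr := .node t1331 .nil .nil .nil .nil
def t1333 : Tr := .node .nil .nil t1332 .nil .nil
def t1334 : Tr := .node t1333 .nil .nil t367 .nil
def t1335 : Tr := .node t685 .nil .nil .nil .nil
def t1336 : Tr := .node .nil .nil .nil .nil t1335
def t1337 : Tr := .node .nil .nil .nil t1336 .nil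
def t1338 : Tr := .node t1337 .nil .nil .nil .nil
def t1339 : Tr := .node .nil .nil .nil .nil t1338
def t1340 : Tr := .node .nil .nil t1334 t1339 .nil
def t1341 : Tr := .node .nil .nil .nil t359 .nil
def t1342 : Tr := .node t1341 .nil .nil .nil .nil
def t1343 : Tr := .node .nil .nil .nil .nil t1342
def t1344 : Tr := .node .nil t1333 .nil t1343 .nil
def t1345 : Tr := .node t1344 .nil .nil .nil .nil
def t1346 : Tr := .node .nil t1331 .nil .nil .nil
def t1347 : Tr := .node t1346 .nil .nil .nil .nil
def t1348 : Tr := .node .nil t1329 .nil .nil .nil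
def t1349 : Tr := .node t1348 .nil .nil .nil .nil
def t1350 : Tr := .node t381 t117 .nil .nil .nil
def t1351 : Tr := .node .nil t380 t1350 .nil .nil
def t1352 : Tr := .node t385 .nil .nil .nil .nil
def t1353 : Tr := .node t1351 t1352 .nil .nil .nil
def t1354 : Tr := .node .nil t378 t1353 .nil .nil
def t1355 : Tr := .node t389 .nil .nil .nil .nil
def t1356 : Tr := .node t1354 t1355 .nil .nil .nil
def t1357 : Tr := .node .nil t358 t1356 .nil .nil
def t1358 : Tr := .node .nil .nil t328 t129 .nil
def t1359 : Tr := .node t1358 .nil .nil .nil .nil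
def t1360 : Tr := .node .nil t1359 .nil t134 .nil
def t1361 : Tr := .node t1360 .nil .nil .nil .nil
def t1362 : Tr := .node t1357 t1361 .nil .nil .nil
def t1363 : Tr := .node .nil t1349 t1362 .nil .nil
def t1364 : Tr := .node .nil t1330 .nil .nil .nil
def t1365 : Tr := .node t1364 .nil .nil .nil .nil
def t1366 : Tr := .node t1363 t1365 .nil .nil .nil
def t1367 : Tr := .node .nil t1347 t1366 .nil .nil
def t1368 : Tr := .node .nil t1332 .nil .nil .nil
def t1369 : Tr := .node t1368 .nil .nil .nil .nil
def t1370 : Tr := .node t1367 t1369 .nil .nil .nil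
def t1371 : Tr := .node .nil t358 .nil .nil .nil
def t1372 : Tr := .node t1371 .nil .nil .nil .nil
def t1373 : Tr := .node .nil .nil .nil .nil t1372
def t1374 : Tr := .node .nil t1342 .nil t1373 .nil
def t1375 : Tr := .node t1374 .nil .nil .nil .nil
def t1376 : Tr := .node .nil .nil .nil .nil t1375
def t1377 : Tr := .node t1340 t1345 t1370 t1376 .nil
def t1378 : Tr := .node t471 .nil t365 .nil .nil
def t1379 : Tr := .node .nil t441 t358 t442 .nil
def t1380 : Tr := .node .nil .nil t357 .nil .nil
def t1381 : Tr := .node .nil t1380 .nil .nil .nil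
def t1382 : Tr := .node t1379 .nil t1381 .nil .nil
def t1383 : Tr := .node .nil .nil .nil .nil t1382
def t1384 : Tr := .node .nil t1378 .nil t1383 .nil
def t1385 : Tr := .node .nil .nil .nil .nil t1380
def t1386 : Tr := .node .nil .nil .nil t1385 .nil
def t1387 : Tr := .node t1386 .nil .nil .nil .nil
def t1388 : Tr := .node t1381 .nil .nil .nil .nil
def t1389 : Tr := .node .nil .nil .nil .nil t1388
def t1390 : Tr := .node .nil t1387 .nil t1389 .nil
def t1391 : Tr := .node .nil t1335 .nil t693 .nil
def t1392 : Tr := .node t1391 .nil .nil .nil .nil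
def t1393 : Tr := .node .nil .nil .nil .nil t1392
def t1394 : Tr := .node t1384 t1338 t1390 t1393 .nil
def t1395 : Tr := .node t405 t133 .nil .nil .nil
def t1396 : Tr := .node .nil .nil t1395 .nil .nil
def t1397 : Tr := .node t1396 .nil .nil .nil .nil
def t1398 : Tr := .node .nil .nil t1397 .nil .nil
def t1399 : Tr := .node t1398 .nil .nil .nil .nil
def t1400 : Tr := .node .nil t1342 t1399 t1373 .nil
def t1401 : Tr := .node t710 .nil .nil t350 .nil
def t1402 : Tr := .node t1358 .nil .nil t14 .nil
def t1403 : Tr := .node .nil t1402 .nil t1221 .nil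
def t1404 : Tr := .node t1403 t349 t441 .nil .nil
def t1405 : Tr := .node .nil .nil .nil .nil t1404
def t1406 : Tr := .node .nil t1401 .nil t1405 .nil
def t1407 : Tr := .node t1406 t366 t1378 .nil .nil
def t1408 : Tr := .node .nil t1378 .nil t473 .nil
def t1409 : Tr := .node .nil t1220 t403 t411 .nil
def t1410 : Tr := .node t1409 .nil .nil .nil .nil
def t1411 : Tr := .node .nil .nil .nil .nil t1410
def t1412 : Tr := .node .nil t1404 t443 t1411 .nil
def t1413 : Tr := .node t1412 .nil .nil .nil .nil
def t1414 : Tr := .node .nil .nil .nil .nil t1413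
def t1415 : Tr := .node t1400 t1407 t1408 t1414 .nil
def t1416 : Tr := .node .nil t1329 t358 .nil .nil
def t1417 : Tr := .node t1416 t1335 t1381 t693 .nil
def t1418 : Tr := .node t654 t499 t655 .nil .nil
def t1419 : Tr := .node t832 t689 t1418 .nil .nil
def t1420 : Tr := .node .nil .nil .nil .nil t1419
def t1421 : Tr := .node .nil t691 .nil t1420 .nil
def t1422 : Tr := .node .nil t133 t676 .nil .nil
def t1423 : Tr := .node .nil .nil .nil t523 .nil
def t1424 : Tr := .node t1423 .nil t683 .nil .nil
def t1425 : Tr := .node .nil t499 t655 .nil .nil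
def t1426 : Tr := .node t1425 .nil .nil .nil .nil
def t1427 : Tr := .node .nil .nil .nil .nil t1426
def t1428 : Tr := .node t1422 t1424 t691 t1427 .nil
def t1429 : Tr := .node t1421 t692 t1428 .nil .nil
def t1430 : Tr := .node .nil .nil .nil .nil t1429
def t1431 : Tr := .node .nil t1417 t1362 t1430 .nil
def t1432 : Tr := .node t671 .nil t1359 .nil .nil
def t1433 : Tr := .node .nil t1432 t675 t678 .nil
def t1434 : Tr := .node .nil t1361 t1433 .nil .nil
def t1435 : Tr := .node .nil .nil .nil .nil t1424
def t1436 : Tr := .node .nil .nil .nil t1435 .nil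
def t1437 : Tr := .node .nil .nil t1328 t684 .nil
def t1438 : Tr := .node t1437 .nil .nil .nil .nil
def t1439 : Tr := .node t1436 .nil t1438 .nil .nil
def t1440 : Tr := .node .nil t1424 t691 t1427 .nil
def t1441 : Tr := .node t1440 .nil .nil .nil .nil
def t1442 : Tr := .node .nil .nil .nil .nil t1441
def t1443 : Tr := .node t1434 t1439 t1391 t1442 .nil
def t1444 : Tr := .node t1431 t1392 t1443 .nil .nil
def t1445 : Tr := .node .nil .nil .nil .nil t1444
def t1446 : Tr := .node .nil t1394 t1415 t1445 .nil
def t1447 : Tr := .node .nil .nil .nil .nil t1438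
def t1448 : Tr := .node .nil .nil t365 t1447 .nil
def t1449 : Tr := .node t1448 t1342 t1399 t1373 .nil
def t1450 : Tr := .node .nil .nil t339 t684 .nil
def t1451 : Tr := .node t1450 t358 t1356 .nil .nil
def t1452 : Tr := .node .nil t1451 t1381 t588 .nil
def t1453 : Tr := .node .nil .nil t358 .nil .nil
def t1454 : Tr := .node t340 t358 .nil .nil .nil
def t1455 : Tr := .node t434 t1453 t1454 .nil .nil
def t1456 : Tr := .node t1452 t1372 t1455 .nil .nil
def t1457 : Tr := .node .nil .nil .nil .nil t1456
def t1458 : Tr := .node .nil t1449 t1390 t1457 .nil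
def t1459 : Tr := .node t434 .nil t1454 .nil .nil
def t1460 : Tr := .node .nil .nil .nil .nil t1459
def t1461 : Tr := .node .nil .nil .nil t1460 .nil
def t1462 : Tr := .node .nil .nil .nil .nil t1453
def t1463 : Tr := .node .nil .nil .nil t1462 .nil
def t1464 : Tr := .node t1463 .nil .nil .nil .nil
def t1465 : Tr := .node .nil .nil t365 .nil .nil
def t1466 : Tr := .node t1465 t1342 .nil t1373 .nil
def t1467 : Tr := .node .nil t1453 .nil .nil .nil
def t1468 : Tr := .node t1467 .nil .nil .nil .nil
def t1469 : Tr := .node .nil .nil .nil .nil t1468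
def t1470 : Tr := .node t1461 t1464 t1466 t1469 .nil
def t1471 : Tr := .node .nil .nil .nil .nil t1333
def t1472 : Tr := .node t1458 t1375 t1470 t1471 .nil
def t1473 : Tr := .node .nil .nil .nil .nil t1359
def t1474 : Tr := .node .nil .nil .nil t1473 .nil
def t1475 : Tr := .node t1474 .nil t1397 .nil .nil
def t1476 : Tr := .node .nil .nil t377 .nil .nil
def t1477 : Tr := .node .nil .nil .nil .nil t1476
def t1478 : Tr := .node .nil .nil .nil t1477 .nil
def t1479 : Tr := .node t1478 .nil .nil .nil .nil
def t1480 : Tr := .node .nil t1476 .nil .nil .nil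
def t1481 : Tr := .node t1480 .nil .nil .nil .nil
def t1482 : Tr := .node .nil .nil .nil .nil t1481
def t1483 : Tr := .node .nil t1479 .nil t1482 .nil
def t1484 : Tr := .node .nil .nil .nil .nil t1361
def t1485 : Tr := .node .nil t1475 t1483 t1484 .nil
def t1486 : Tr := .node .nil .nil t378 .nil .nil
def t1487 : Tr := .node .nil .nil .nil .nil t1486
def t1488 : Tr := .node .nil .nil .nil t1487 .nil
def t1489 : Tr := .node t1488 .nil .nil .nil .nil
def t1490 : Tr := .node .nil t1486 .nil .nil .nil
def t1491 : Tr := .node t1490 .nil .nil .nil .nil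
def t1492 : Tr := .node .nil .nil .nil .nil t1491
def t1493 : Tr := .node .nil t1489 .nil t1492 .nil
def t1494 : Tr := .node .nil .nil .nil .nil t1331
def t1495 : Tr := .node t1485 .nil t1493 t1494 .nil
def t1496 : Tr := .node .nil .nil .nil t525 .nil
def t1497 : Tr := .node t1496 .nil t1395 .nil .nil
def t1498 : Tr := .node .nil .nil t379 .nil .nil
def t1499 : Tr := .node .nil .nil .nil .nil t1498
def t1500 : Tr := .node .nil .nil .nil t1499 .nil
def t1501 : Tr := .node t1500 .nil .nil .nil .nil
def t1502 : Tr := .node .nil t1498 .nil .nil .nil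
def t1503 : Tr := .node t1502 .nil .nil .nil .nil
def t1504 : Tr := .node .nil .nil .nil .nil t1503
def t1505 : Tr := .node .nil t1501 .nil t1504 .nil
def t1506 : Tr := .node .nil .nil .nil .nil t1355
def t1507 : Tr := .node .nil t1497 t1505 t1506 .nil
def t1508 : Tr := .node .nil .nil t380 .nil .nil
def t1509 : Tr := .node .nil .nil .nil .nil t1508
def t1510 : Tr := .node .nil .nil .nil t1509 .nil
def t1511 : Tr := .node t1510 .nil .nil .nil .nil
def t1512 : Tr := .node .nil t1508 .nil .nil .nil
def t1513 : Tr := .node t1512 .nil .nil .nil .nil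
def t1514 : Tr := .node .nil .nil .nil .nil t1513
def t1515 : Tr := .node .nil t1511 .nil t1514 .nil
def t1516 : Tr := .node .nil .nil .nil .nil t1329
def t1517 : Tr := .node t1507 .nil t1515 t1516 .nil
def t1518 : Tr := .node t381 t178 .nil t252 .nil
def t1519 : Tr := .node .nil t507 t1518 t510 .nil
def t1520 : Tr := .node t512 .nil t1218 t513 .nil
def t1521 : Tr := .node t1519 t1520 t119 t518 .nil
def t1522 : Tr := .node t1237 t327 .nil .nil .nil
def t1523 : Tr := .node .nil .nil .nil .nil t1522
def t1524 : Tr := .node .nil t563 t1521 t1523 .nil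
def t1525 : Tr := .node .nil .nil t2 t681 .nil
def t1526 : Tr := .node t1525 .nil .nil .nil .nil
def t1527 : Tr := .node t524 .nil t1526 t525 .nil
def t1528 : Tr := .node t1425 t328 .nil .nil .nil
def t1529 : Tr := .node .nil .nil .nil .nil t1528
def t1530 : Tr := .node t1524 t1527 t691 t1529 .nil
def t1531 : Tr := .node .nil t1352 .nil .nil .nil
def t1532 : Tr := .node t1531 t329 .nil .nil .nil
def t1533 : Tr := .node .nil .nil .nil .nil t1532
def t1534 : Tr := .node .nil t479 t1530 t1533 .nil
def t1535 : Tr := .node .nil t119 t373 t780 .nil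
def t1536 : Tr := .node t1535 t133 t676 .nil .nil
def t1537 : Tr := .node t7 t120 .nil t122 .nil
def t1538 : Tr := .node t327 t380 .nil .nil .nil
def t1539 : Tr := .node t819 .nil t1538 t129 .nil
def t1540 : Tr := .node .nil .nil .nil .nil t1539
def t1541 : Tr := .node .nil t1536 t1537 t1540 .nil
def t1542 : Tr := .node t379 .nil t33 .nil .nil
def t1543 : Tr := .node .nil .nil .nil .nil t1542
def t1544 : Tr := .node .nil .nil .nil t1543 .nil
def t1545 : Tr := .node t119 t3 .nil t6 .nil
def t1546 : Tr := .node t1544 .nil t1545 .nil .nil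
def t1547 : Tr := .node .nil t1542 .nil .nil .nil
def t1548 : Tr := .node t1547 .nil .nil .nil .nil
def t1549 : Tr := .node .nil .nil .nil .nil t1548
def t1550 : Tr := .node .nil t1546 .nil t1549 .nil
def t1551 : Tr := .node t1541 .nil t1550 t1473 .nil
def t1552 : Tr := .node .nil .nil t1538 .nil .nil
def t1553 : Tr := .node .nil t1552 .nil .nil .nil
def t1554 : Tr := .node t1553 t1359 .nil t134 .nil
def t1555 : Tr := .node .nil .nil .nil .nil t1554
def t1556 : Tr := .node t1534 t1551 .nil t1555 .nil
def t1557 : Tr := .node .nil t1355 .nil .nil .nil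
def t1558 : Tr := .node t1557 t1329 .nil .nil .nil
def t1559 : Tr := .node .nil .nil .nil .nil t1558
def t1560 : Tr := .node .nil t1517 t1556 t1559 .nil
def t1561 : Tr := .node .nil .nil t1395 t1477 .nil
def t1562 : Tr := .node t396 .nil .nil .nil .nil
def t1563 : Tr := .node .nil t1562 .nil t398 .nil
def t1564 : Tr := .node t1561 .nil t1563 .nil .nil
def t1565 : Tr := .node .nil .nil t385 .nil .nil
def t1566 : Tr := .node .nil .nil .nil .nil t1565
def t1567 : Tr := .node .nil .nil .nil t1566 .nil
def t1568 : Tr := .node t1567 .nil .nil .nil .nil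
def t1569 : Tr := .node .nil t1565 .nil .nil .nil
def t1570 : Tr := .node t1569 .nil .nil .nil .nil
def t1571 : Tr := .node .nil .nil .nil .nil t1570
def t1572 : Tr := .node .nil t1568 .nil t1571 .nil
def t1573 : Tr := .node t169 .nil t1218 .nil .nil
def t1574 : Tr := .node .nil .nil .nil .nil t1573
def t1575 : Tr := .node .nil t1476 .nil t1574 .nil
def t1576 : Tr := .node t1358 t378 .nil t14 .nil
def t1577 : Tr := .node t1575 .nil t1576 .nil .nil
def t1578 : Tr := .node .nil .nil .nil .nil t1577
def t1579 : Tr := .node .nil t1564 t1572 t1578 .nil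
def t1580 : Tr := .node t377 .nil t1352 .nil .nil
def t1581 : Tr := .node .nil .nil .nil .nil t1580
def t1582 : Tr := .node .nil .nil .nil t1581 .nil
def t1583 : Tr := .node t1582 .nil .nil .nil .nil
def t1584 : Tr := .node .nil t1580 .nil t14 .nil
def t1585 : Tr := .node t1584 .nil .nil .nil .nil
def t1586 : Tr := .node .nil .nil .nil .nil t1585
def t1587 : Tr := .node t710 t1583 .nil t1586 .nil
def t1588 : Tr := .node .nil .nil .nil .nil t1330
def t1589 : Tr := .node t1579 .nil t1587 t1588 .nil
def t1590 : Tr := .node .nil .nil .nil t1574 .nil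
def t1591 : Tr := .node t1590 .nil t1576 .nil .nil
def t1592 : Tr := .node .nil t1573 t119 t194 .nil
def t1593 : Tr := .node t1592 .nil .nil .nil .nil
def t1594 : Tr := .node .nil .nil .nil .nil t1593
def t1595 : Tr := .node .nil t1591 t675 t1594 .nil
def t1596 : Tr := .node t1595 t1330 .nil .nil .nil
def t1597 : Tr := .node .nil .nil .nil .nil t1596
def t1598 : Tr := .node t1560 t1589 t743 t1597 .nil
def t1599 : Tr := .node .nil t1361 .nil .nil .nil
def t1600 : Tr := .node t1599 t1331 .nil .nil .nil
def t1601 : Tr := .node .nil .nil .nil .nil t1600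
def t1602 : Tr := .node .nil t1495 t1598 t1601 .nil
def t1603 : Tr := .node .nil .nil t1397 t1385 .nil
def t1604 : Tr := .node t331 .nil .nil .nil .nil
def t1605 : Tr := .node .nil t1604 .nil t359 .nil
def t1606 : Tr := .node t1603 .nil t1605 .nil .nil
def t1607 : Tr := .node .nil .nil t389 .nil .nil
def t1608 : Tr := .node .nil .nil .nil .nil t1607
def t1609 : Tr := .node .nil .nil .nil t1608 .nil
def t1610 : Tr := .node t1609 .nil .nil .nil .nil
def t1611 : Tr := .node .nil t1607 .nil .nil .nil
def t1612 : Tr := .node t1611 .nil .nil .nil .nil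
def t1613 : Tr := .node .nil .nil .nil .nil t1612
def t1614 : Tr := .node .nil t1610 .nil t1613 .nil
def t1615 : Tr := .node t1423 .nil t1526 .nil .nil
def t1616 : Tr := .node .nil .nil .nil .nil t1615
def t1617 : Tr := .node .nil t1380 .nil t1616 .nil
def t1618 : Tr := .node t1450 t358 .nil .nil .nil
def t1619 : Tr := .node t1617 .nil t1618 .nil .nil
def t1620 : Tr := .node .nil .nil .nil .nil t1619
def t1621 : Tr := .node .nil t1606 t1614 t1620 .nil
def t1622 : Tr := .node .nil .nil t365 t1336 .nil
def t1623 : Tr := .node t357 .nil t1355 .nil .nil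
def t1624 : Tr := .node .nil .nil .nil .nil t1623
def t1625 : Tr := .node .nil .nil .nil t1624 .nil
def t1626 : Tr := .node t1625 .nil .nil .nil .nil
def t1627 : Tr := .node .nil t1623 .nil .nil .nil
def t1628 : Tr := .node t1627 .nil .nil .nil .nil
def t1629 : Tr := .node .nil .nil .nil .nil t1628
def t1630 : Tr := .node t1622 t1626 .nil t1629 .nil
def t1631 : Tr := .node .nil .nil .nil .nil t1332
def t1632 : Tr := .node t1621 .nil t1630 t1631 .nil
def t1633 : Tr := .node .nil t1338 .nil t1393 .nil
def t1634 : Tr := .node .nil .nil .nil t1616 .nil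
def t1635 : Tr := .node t1634 .nil t1618 .nil .nil
def t1636 : Tr := .node .nil t1615 t691 t1427 .nil
def t1637 : Tr := .node t1636 .nil .nil .nil .nil
def t1638 : Tr := .node .nil .nil .nil .nil t1637
def t1639 : Tr := .node .nil t1635 t1391 t1638 .nil
def t1640 : Tr := .node t1639 t1332 .nil .nil .nil
def t1641 : Tr := .node .nil .nil .nil .nil t1640
def t1642 : Tr := .node t1602 t1632 t1633 t1641 .nil
def t1643 : Tr := .node .nil t1459 .nil t436 .nil
def t1644 : Tr := .node .nil t546 t377 .nil .nil
def t1645 : Tr := .node t1644 t329 .nil .nil .nil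
def t1646 : Tr := .node .nil .nil .nil .nil t1645
def t1647 : Tr := .node .nil t587 t399 t1646 .nil
def t1648 : Tr := .node t1647 .nil .nil t359 .nil
def t1649 : Tr := .node .nil .nil .nil .nil t1648
def t1650 : Tr := .node .nil t1456 t1643 t1649 .nil
def t1651 : Tr := .node t1650 t1333 .nil t1343 .nil
def t1652 : Tr := .node .nil .nil .nil .nil t1651
def t1653 : Tr := .node t1446 t1472 t1642 t1652 .nil
def t1654 : Tr := .node .nil t117 t379 .nil .nil
def t1655 : Tr := .node t1654 .nil t655 .nil .nil
def t1656 : Tr := .node .nil t1655 t658 .nil .nil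
def t1657 : Tr := .node t1656 .nil t661 .nil .nil
def t1658 : Tr := .node .nil t1657 t664 .nil .nil
def t1659 : Tr := .node t1658 .nil t667 .nil .nil
def t1660 : Tr := .node t440 .nil t15 .nil .nil
def t1661 : Tr := .node .nil t1660 .nil t442 .nil
def t1662 : Tr := .node .nil t1659 t1661 .nil .nil
def t1663 : Tr := .node .nil .nil t687 .nil .nil
def t1664 : Tr := .node .nil t1663 .nil .nil .nil
def t1665 : Tr := .node t1662 .nil t1664 .nil .nil
def t1666 : Tr := .node .nil .nil t701 .nil .nil
def t1667 : Tr := .node .nil t1666 .nil .nil .nil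
def t1668 : Tr := .node .nil t1665 t1667 .nil .nil
def t1669 : Tr := .node .nil .nil t719 .nil .nil
def t1670 : Tr := .node .nil t1669 .nil .nil .nil
def t1671 : Tr := .node t1668 .nil t1670 .nil .nil
def t1672 : Tr := .node .nil .nil t733 .nil .nil
def t1673 : Tr := .node .nil t1672 .nil .nil .nil
def t1674 : Tr := .node .nil .nil t667 .nil .nil
def t1675 : Tr := .node .nil .nil .nil .nil t1674
def t1676 : Tr := .node .nil .nil .nil t1675 .nil
def t1677 : Tr := .node t1676 .nil t763 .nil .nil
def t1678 : Tr := .node .nil .nil .nil .nil t1677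
def t1679 : Tr := .node .nil t1671 t1673 t1678 .nil
def t1680 : Tr := .node .nil t747 .nil .nil .nil
def t1681 : Tr := .node t1680 .nil .nil .nil .nil
def t1682 : Tr := .node t1679 t1681 t766 .nil .nil
def t1683 : Tr := .node .nil t178 t379 t252 .nil
def t1684 : Tr := .node t1683 .nil t655 t118 .nil
def t1685 : Tr := .node t381 t117 t379 .nil .nil
def t1686 : Tr := .node .nil .nil .nil .nil t1685
def t1687 : Tr := .node .nil t1684 t777 t1686 .nil
def t1688 : Tr := .node .nil t782 .nil t402 .nil
def t1689 : Tr := .node .nil .nil .nil .nil t1655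
def t1690 : Tr := .node t1687 .nil t1688 t1689 .nil
def t1691 : Tr := .node .nil .nil .nil t6 .nil
def t1692 : Tr := .node t1691 t786 .nil t122 .nil
def t1693 : Tr := .node .nil t1498 t5 .nil .nil
def t1694 : Tr := .node t1693 t1655 t658 .nil .nil
def t1695 : Tr := .node .nil .nil .nil .nil t1694
def t1696 : Tr := .node .nil t1690 t1692 t1695 .nil
def t1697 : Tr := .node .nil .nil .nil .nil t1657
def t1698 : Tr := .node t1696 .nil t799 t1697 .nil
def t1699 : Tr := .node .nil t401 t119 t402 .nil
def t1700 : Tr := .node t1699 t683 .nil t690 .nil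
def t1701 : Tr := .node .nil .nil t1700 t11 .nil
def t1702 : Tr := .node .nil t1153 t333 t1155 .nil
def t1703 : Tr := .node .nil t38 .nil t406 .nil
def t1704 : Tr := .node t1703 t3 t401 t6 .nil
def t1705 : Tr := .node t409 t5 .nil .nil .nil
def t1706 : Tr := .node .nil .nil .nil .nil t1705
def t1707 : Tr := .node t1071 t1704 t403 t1706 .nil
def t1708 : Tr := .node t1702 t404 t1707 .nil .nil
def t1709 : Tr := .node .nil t379 .nil t168 .nil
def t1710 : Tr := .node t1709 t380 t383 .nil .nil
def t1711 : Tr := .node .nil t1710 .nil t543 .nil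
def t1712 : Tr := .node t1711 .nil .nil t439 .nil
def t1713 : Tr := .node .nil .nil .nil .nil t1712
def t1714 : Tr := .node t1701 t1708 .nil t1713 .nil
def t1715 : Tr := .node .nil .nil t658 .nil .nil
def t1716 : Tr := .node .nil t1715 t10 .nil .nil
def t1717 : Tr := .node t1716 t1657 t664 .nil .nil
def t1718 : Tr := .node .nil .nil .nil .nil t1717
def t1719 : Tr := .node .nil t1698 t1714 t1718 .nil
def t1720 : Tr := .node .nil t814 t403 t815 .nil
def t1721 : Tr := .node t1691 .nil .nil .nil .nil
def t1722 : Tr := .node t1720 t1721 .nil t11 .nil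
def t1723 : Tr := .node t729 .nil t1722 .nil .nil
def t1724 : Tr := .node .nil t1723 .nil t736 .nil
def t1725 : Tr := .node .nil .nil .nil .nil t1659
def t1726 : Tr := .node t1719 .nil t1724 t1725 .nil
def t1727 : Tr := .node .nil .nil t723 t17 .nil
def t1728 : Tr := .node t660 .nil .nil .nil .nil
def t1729 : Tr := .node .nil .nil t1728 .nil .nil
def t1730 : Tr := .node .nil .nil .nil .nil t1729
def t1731 : Tr := .node .nil .nil .nil t1730 .nil
def t1732 : Tr := .node t1720 .nil .nil t11 .nil
def t1733 : Tr := .node .nil .nil .nil .nil t686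
def t1734 : Tr := .node .nil t1732 .nil t1733 .nil
def t1735 : Tr := .node t1731 .nil t1734 .nil .nil
def t1736 : Tr := .node .nil t1729 .nil .nil .nil
def t1737 : Tr := .node t1736 .nil .nil .nil .nil
def t1738 : Tr := .node .nil .nil .nil .nil t1737
def t1739 : Tr := .node t1727 t1735 .nil t1738 .nil
def t1740 : Tr := .node .nil .nil t664 .nil .nil
def t1741 : Tr := .node .nil t1740 t687 .nil .nil
def t1742 : Tr := .node t1741 t1659 t1661 .nil .nil
def t1743 : Tr := .node .nil .nil .nil .nil t1742
def t1744 : Tr := .node .nil t1726 t1739 t1743 .nil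
def t1745 : Tr := .node .nil .nil .nil .nil t1660
def t1746 : Tr := .node .nil .nil .nil t1745 .nil
def t1747 : Tr := .node .nil .nil .nil t11 .nil
def t1748 : Tr := .node t1747 .nil .nil .nil .nil
def t1749 : Tr := .node t1734 t1748 .nil t17 .nil
def t1750 : Tr := .node t1746 .nil t1749 .nil .nil
def t1751 : Tr := .node t1661 .nil .nil .nil .nil
def t1752 : Tr := .node .nil .nil .nil .nil t1751
def t1753 : Tr := .node .nil t1750 .nil t1752 .nil
def t1754 : Tr := .node .nil .nil .nil .nil t1665
def t1755 : Tr := .node t1744 t1677 t1753 t1754 .nil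
def t1756 : Tr := .node .nil .nil .nil .nil t719
def t1757 : Tr := .node .nil .nil t763 t1756 .nil
def t1758 : Tr := .node .nil .nil .nil t1183 .nil
def t1759 : Tr := .node t666 .nil .nil .nil .nil
def t1760 : Tr := .node t1758 .nil t1759 .nil .nil
def t1761 : Tr := .node .nil .nil .nil .nil t1760
def t1762 : Tr := .node .nil .nil .nil t1761 .nil
def t1763 : Tr := .node t1734 .nil .nil t912 .nil
def t1764 : Tr := .node .nil .nil .nil .nil t701
def t1765 : Tr := .node .nil t1763 .nil t1764 .nil
def t1766 : Tr := .node t1762 .nil t1765 .nil .nil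
def t1767 : Tr := .node t1235 .nil .nil .nil .nil
def t1768 : Tr := .node .nil .nil .nil .nil t1767
def t1769 : Tr := .node .nil t1760 .nil t1768 .nil
def t1770 : Tr := .node t1769 .nil .nil .nil .nil
def t1771 : Tr := .node .nil .nil .nil .nil t1770
def t1772 : Tr := .node t1757 t1766 .nil t1771 .nil
def t1773 : Tr := .node .nil t1674 t1661 .nil .nil
def t1774 : Tr := .node .nil t687 t667 .nil .nil
def t1775 : Tr := .node t1774 .nil .nil .nil .nil
def t1776 : Tr := .node t660 .nil t796 .nil .nil
def t1777 : Tr := .node .nil .nil .nil .nil t1776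
def t1778 : Tr := .node .nil .nil .nil t1777 .nil
def t1779 : Tr := .node t1778 .nil t799 .nil .nil
def t1780 : Tr := .node .nil .nil .nil .nil t1779
def t1781 : Tr := .node .nil t1773 t1775 t1780 .nil
def t1782 : Tr := .node .nil .nil t761 .nil .nil
def t1783 : Tr := .node .nil t667 t1759 t959 .nil
def t1784 : Tr := .node t1658 t687 t667 .nil .nil
def t1785 : Tr := .node t1783 t761 t1784 .nil .nil
def t1786 : Tr := .node .nil t1674 .nil .nil .nil
def t1787 : Tr := .node t1782 t1785 t1786 t980 .nil
def t1788 : Tr := .node t1781 t1665 t1787 .nil .nil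
def t1789 : Tr := .node .nil .nil .nil .nil t1788
def t1790 : Tr := .node .nil t1755 t1772 t1789 .nil
def t1791 : Tr := .node .nil t1732 .nil t865 .nil
def t1792 : Tr := .node t1791 .nil .nil t912 .nil
def t1793 : Tr := .node t675 t687 t667 .nil .nil
def t1794 : Tr := .node .nil .nil .nil .nil t1793
def t1795 : Tr := .node .nil t1792 .nil t1794 .nil
def t1796 : Tr := .node t1795 .nil t763 t1756 .nil
def t1797 : Tr := .node t130 t10 .nil t14 .nil
def t1798 : Tr := .node t1590 .nil t1797 .nil .nil
def t1799 : Tr := .node .nil .nil .nil .nil t1798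
def t1800 : Tr := .node .nil .nil .nil t1799 .nil
def t1801 : Tr := .node t1800 .nil t1401 .nil .nil
def t1802 : Tr := .node .nil t1798 t675 t1594 .nil
def t1803 : Tr := .node t1802 .nil .nil .nil .nil
def t1804 : Tr := .node .nil .nil .nil .nil t1803
def t1805 : Tr := .node .nil t1801 t743 t1804 .nil
def t1806 : Tr := .node .nil .nil .nil .nil t1241
def t1807 : Tr := .node .nil t1659 t1661 t1806 .nil
def t1808 : Tr := .node .nil .nil .nil .nil t1229
def t1809 : Tr := .node .nil .nil t1759 t1808 .nil
def t1810 : Tr := .node t667 .nil t687 .nil .nil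
def t1811 : Tr := .node t1809 t1810 .nil .nil .nil
def t1812 : Tr := .node t1807 t719 t1811 .nil .nil
def t1813 : Tr := .node .nil .nil .nil .nil t1812
def t1814 : Tr := .node .nil t1796 t1805 t1813 .nil
def t1815 : Tr := .node .nil .nil .nil t1808 .nil
def t1816 : Tr := .node t1815 .nil .nil .nil .nil
def t1817 : Tr := .node .nil .nil .nil .nil t1816
def t1818 : Tr := .node .nil .nil .nil t1817 .nil
def t1819 : Tr := .node .nil .nil .nil t970 .nil
def t1820 : Tr := .node t1819 .nil .nil .nil .nil
def t1821 : Tr := .node .nil t962 .nil t693 .nil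
def t1822 : Tr := .node t1821 .nil .nil .nil .nil
def t1823 : Tr := .node .nil .nil .nil .nil t1822
def t1824 : Tr := .node t1818 t1820 .nil t1823 .nil
def t1825 : Tr := .node t1814 .nil t1824 t976 .nil
def t1826 : Tr := .node .nil .nil .nil .nil t1785
def t1827 : Tr := .node .nil t763 .nil t1826 .nil
def t1828 : Tr := .node .nil .nil .nil .nil t1774
def t1829 : Tr := .node .nil t1763 .nil t1828 .nil
def t1830 : Tr := .node .nil .nil .nil t912 .nil
def t1831 : Tr := .node t1830 .nil .nil .nil .nil
def t1832 : Tr := .node t1829 t1831 t763 t1756 .nil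
def t1833 : Tr := .node t1827 t764 t1832 .nil .nil
def t1834 : Tr := .node t1786 .nil .nil .nil .nil
def t1835 : Tr := .node .nil .nil .nil .nil t1834
def t1836 : Tr := .node .nil t1677 .nil t1835 .nil
def t1837 : Tr := .node .nil t1785 t1786 t980 .nil
def t1838 : Tr := .node t1837 .nil .nil t757 .nil
def t1839 : Tr := .node .nil .nil .nil .nil t1838
def t1840 : Tr := .node .nil t1833 t1836 t1839 .nil
def t1841 : Tr := .node t1807 .nil t1811 .nil .nil
def t1842 : Tr := .node t1815 .nil t701 .nil .nil
def t1843 : Tr := .node .nil .nil .nil .nil t1234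
def t1844 : Tr := .node .nil t1842 .nil t1843 .nil
def t1845 : Tr := .node t1242 .nil .nil .nil .nil
def t1846 : Tr := .node .nil .nil .nil .nil t1845
def t1847 : Tr := .node .nil t1241 t1233 t1846 .nil
def t1848 : Tr := .node t1847 .nil .nil .nil .nil
def t1849 : Tr := .node .nil .nil .nil .nil t1848
def t1850 : Tr := .node .nil t1841 t1844 t1849 .nil
def t1851 : Tr := .node t1850 t747 t1670 .nil .nil
def t1852 : Tr := .node .nil .nil .nil .nil t1851
def t1853 : Tr := .node t1790 t1825 t1840 t1852 .nil
def t1854 : Tr := .node .nil .nil t1001 .nil .nil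
def t1855 : Tr := .node .nil .nil t1011 .nil .nil
def t1856 : Tr := .node t995 .nil .nil .nil .nil
def t1857 : Tr := .node .nil .nil t1856 .nil .nil
def t1858 : Tr := .node t1030 t1036 .nil .nil .nil
def t1859 : Tr := .node t1125 .nil t1858 .nil .nil
def t1860 : Tr := .node t1027 t1859 .nil .nil .nil
def t1861 : Tr := .node t1857 .nil t1860 .nil .nil
def t1862 : Tr := .node t1023 t1861 .nil .nil .nil
def t1863 : Tr := .node t1021 .nil t1862 .nil .nil
def t1864 : Tr := .node t1019 t1863 .nil .nil .nil
def t1865 : Tr := .node t1855 .nil t1864 .nil .nil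
def t1866 : Tr := .node .nil .nil t1000 .nil .nil
def t1867 : Tr := .node .nil t1866 .nil .nil .nil
def t1868 : Tr := .node t1854 t1865 t1867 .nil .nil
def t1869 : Tr := .node t1064 .nil .nil .nil .nil
def t1870 : Tr := .node .nil .nil t1072 .nil .nil
def t1871 : Tr := .node t112 t1870 .nil t1074 .nil
def t1872 : Tr := .node .nil .nil t1871 .nil .nil
def t1873 : Tr := .node .nil .nil .nil .nil t1856
def t1874 : Tr := .node t1070 t1872 .nil t1873 .nil
def t1875 : Tr := .node .nil .nil t1874 .nil .nil
def t1876 : Tr := .node t1070 .nil .nil .nil .nil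
def t1877 : Tr := .node .nil .nil .nil .nil t1022
def t1878 : Tr := .node .nil t1876 .nil t1877 .nil
def t1879 : Tr := .node .nil .nil .nil .nil t1020
def t1880 : Tr := .node .nil t1875 t1878 t1879 .nil
def t1881 : Tr := .node t1880 t1088 t1064 t1093 .nil
def t1882 : Tr := .node t1508 .nil t1502 .nil .nil
def t1883 : Tr := .node .nil .nil .nil .nil t1882
def t1884 : Tr := .node .nil .nil .nil t1883 .nil
def t1885 : Tr := .node t1884 .nil t1505 .nil .nil
def t1886 : Tr := .node .nil .nil .nil .nil t1885
def t1887 : Tr := .node .nil .nil t1020 t1886 .nil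
def t1888 : Tr := .node .nil t1136 t1112 .nil .nil
def t1889 : Tr := .node .nil .nil .nil .nil t1501
def t1890 : Tr := .node .nil .nil t1856 t1889 .nil
def t1891 : Tr := .node t1890 .nil t1860 .nil .nil
def t1892 : Tr := .node t1505 .nil .nil .nil .nil
def t1893 : Tr := .node .nil .nil .nil .nil t1892
def t1894 : Tr := .node t1888 t1891 .nil t1893 .nil
def t1895 : Tr := .node t1887 .nil t1894 .nil .nil
def t1896 : Tr := .node .nil .nil .nil .nil t1895
def t1897 : Tr := .node .nil t1869 t1881 t1896 .nil
def t1898 : Tr := .node .nil .nil .nil .nil t997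
def t1899 : Tr := .node .nil .nil .nil t1898 .nil
def t1900 : Tr := .node t1899 .nil .nil .nil .nil
def t1901 : Tr := .node t1875 .nil .nil .nil .nil
def t1902 : Tr := .node t1027 .nil t996 .nil .nil
def t1903 : Tr := .node .nil .nil .nil .nil t1199
def t1904 : Tr := .node .nil t1902 .nil t1903 .nil
def t1905 : Tr := .node t1027 .nil .nil .nil .nil
def t1906 : Tr := .node t1857 .nil t1905 .nil .nil
def t1907 : Tr := .node t1904 .nil t1906 .nil .nil
def t1908 : Tr := .node .nil .nil .nil .nil t1907
def t1909 : Tr := .node .nil t1900 t1901 t1908 .nil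
def t1910 : Tr := .node .nil t1872 t1175 t1873 .nil
def t1911 : Tr := .node t1910 .nil .nil t1898 .nil
def t1912 : Tr := .node .nil .nil .nil .nil t1861
def t1913 : Tr := .node .nil .nil t1911 t1912 .nil
def t1914 : Tr := .node t1872 .nil .nil .nil .nil
def t1915 : Tr := .node t1125 .nil .nil .nil .nil
def t1916 : Tr := .node t135 .nil t1915 .nil .nil
def t1917 : Tr := .node .nil .nil .nil .nil t1916
def t1918 : Tr := .node .nil t1006 t1914 t1917 .nil
def t1919 : Tr := .node .nil t1870 t1235 t1074 .nil
def t1920 : Tr := .node t1919 .nil .nil t1069 .nil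
def t1921 : Tr := .node .nil .nil .nil .nil t1859
def t1922 : Tr := .node .nil .nil t1920 t1921 .nil
def t1923 : Tr := .node t655 .nil t109 .nil .nil
def t1924 : Tr := .node .nil .nil .nil .nil t1923
def t1925 : Tr := .node .nil t1526 .nil t1924 .nil
def t1926 : Tr := .node t1925 .nil .nil .nil .nil
def t1927 : Tr := .node .nil t133 t195 .nil .nil
def t1928 : Tr := .node t1927 t1615 t691 t1427 .nil
def t1929 : Tr := .node t1032 .nil .nil .nil .nil
def t1930 : Tr := .node t131 .nil t1929 .nil .nil
def t1931 : Tr := .node .nil .nil .nil .nil t1930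
def t1932 : Tr := .node .nil t1926 t1928 t1931 .nil
def t1933 : Tr := .node t381 .nil .nil .nil .nil
def t1934 : Tr := .node t109 .nil t1933 .nil .nil
def t1935 : Tr := .node .nil .nil .nil .nil t1934
def t1936 : Tr := .node .nil t1182 t1270 t1935 .nil
def t1937 : Tr := .node .nil t116 t1031 t118 .nil
def t1938 : Tr := .node t1275 t1034 .nil t370 .nil
def t1939 : Tr := .node t1937 .nil t1938 .nil .nil
def t1940 : Tr := .node t1654 .nil t1031 .nil .nil
def t1941 : Tr := .node .nil .nil .nil .nil t1940
def t1942 : Tr := .node t1273 t1939 .nil t1941 .nil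
def t1943 : Tr := .node t1936 .nil t1942 .nil .nil
def t1944 : Tr := .node .nil t1934 t1035 .nil .nil
def t1945 : Tr := .node t1944 .nil t1028 .nil .nil
def t1946 : Tr := .node .nil .nil .nil .nil t1945
def t1947 : Tr := .node t1268 t1943 .nil t1946 .nil
def t1948 : Tr := .node t1932 .nil t1947 .nil .nil
def t1949 : Tr := .node .nil t1930 t1858 t684 .nil
def t1950 : Tr := .node t1949 .nil t1856 .nil .nil
def t1951 : Tr := .node .nil .nil .nil .nil t1950
def t1952 : Tr := .node t1922 t1948 .nil t1951 .nil
def t1953 : Tr := .node t1918 .nil t1952 .nil .nil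
def t1954 : Tr := .node t996 .nil t1915 .nil .nil
def t1955 : Tr := .node .nil t1954 t1860 .nil .nil
def t1956 : Tr := .node t1955 .nil t1020 .nil .nil
def t1957 : Tr := .node .nil .nil .nil .nil t1956
def t1958 : Tr := .node t1913 t1953 .nil t1957 .nil
def t1959 : Tr := .node t1909 .nil t1958 .nil .nil
def t1960 : Tr := .node .nil .nil .nil .nil t999
def t1961 : Tr := .node .nil .nil t1064 t1960 .nil
def t1962 : Tr := .node .nil .nil .nil .nil t1891
def t1963 : Tr := .node .nil .nil t366 t1962 .nil
def t1964 : Tr := .node t1070 t1872 .nil t1077 .nil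
def t1965 : Tr := .node t1014 .nil t1964 .nil .nil
def t1966 : Tr := .node t1899 t1965 .nil t1082 .nil
def t1967 : Tr := .node t1963 .nil t1966 .nil .nil
def t1968 : Tr := .node .nil t1891 t998 t1893 .nil
def t1969 : Tr := .node t1968 .nil .nil .nil .nil
def t1970 : Tr := .node .nil .nil .nil .nil t1969
def t1971 : Tr := .node t1961 t1967 .nil t1970 .nil
def t1972 : Tr := .node .nil t1199 .nil t1201 .nil
def t1973 : Tr := .node t1972 .nil .nil .nil .nil
def t1974 : Tr := .node .nil .nil .nil .nil t1973
def t1975 : Tr := .node .nil t1907 t1862 t1974 .nil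
def t1976 : Tr := .node t1975 .nil t1011 .nil .nil
def t1977 : Tr := .node .nil .nil .nil .nil t1976
def t1978 : Tr := .node t1897 t1959 t1971 t1977 .nil
def t1979 : Tr := .node t1333 .nil .nil .nil .nil
def t1980 : Tr := .node .nil .nil t1979 .nil .nil
def t1981 : Tr := .node .nil t1333 .nil .nil .nil
def t1982 : Tr := .node t1981 .nil .nil .nil .nil
def t1983 : Tr := .node .nil t1328 .nil .nil .nil
def t1984 : Tr := .node t1983 .nil .nil .nil .nil
def t1985 : Tr := .node t1357 t1984 .nil .nil .nil
def t1986 : Tr := .node .nil t1349 t1985 .nil .nil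
def t1987 : Tr := .node t1986 t1365 .nil .nil .nil
def t1988 : Tr := .node .nil t1347 t1987 .nil .nil
def t1989 : Tr := .node t1988 t1369 .nil .nil .nil
def t1990 : Tr := .node t1980 t1982 t1989 .nil .nil
def t1991 : Tr := .node t405 .nil .nil .nil .nil
def t1992 : Tr := .node .nil .nil t1991 .nil .nil
def t1993 : Tr := .node t1992 .nil .nil .nil .nil
def t1994 : Tr := .node .nil .nil t1993 .nil .nil
def t1995 : Tr := .node t1994 .nil .nil .nil .nil
def t1996 : Tr := .node .nil .nil t1995 .nil .nil
def t1997 : Tr := .node .nil t711 .nil t1484 .nil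
def t1998 : Tr := .node t1997 .nil .nil .nil .nil
def t1999 : Tr := .node .nil t1984 .nil .nil .nil

end Pool.Agent.N374.Gun
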