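import Pool.Agent.N374.Gun.Cert1

/-! Prefix trees of column words (part 2). -/

set_option autoImplicit false

namespace Pool.Agent.N374.Gun

def t2000 : Tr := .node t1999 .nil .nil .nil .nil
def t2001 : Tr := .node .nil .nil .nil .nil t2000
def t2002 : Tr := .node t1996 t1998 .nil t2001 .nil
def t2003 : Tr := .node t1478 .nil t1563 .nil .nil
def t2004 : Tr := .node .nil .nil .nil .nil t2003
def t2005 : Tr := .node .nil t1349 t1985 t2004 .nil
def t2006 : Tr := .node .nil .nil .nil .nil t1562
def t2007 : Tr := .node .nil .nil .nil t2006 .nil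
def t2008 : Tr := .node t1329 t358 .nil .nil .nil
def t2009 : Tr := .node t2007 .nil t2008 .nil .nil
def t2010 : Tr := .node t1563 .nil .nil .nil .nil
def t2011 : Tr := .node .nil .nil .nil .nil t2010
def t2012 : Tr := .node t1999 t2009 .nil t2011 .nil
def t2013 : Tr := .node t2005 .nil t2012 .nil .nil
def t2014 : Tr := .node .nil .nil .nil .nil t2013
def t2015 : Tr := .node .nil .nil t2002 t2014 .nil
def t2016 : Tr := .node .nil .nil .nil t1588 .nil
def t2017 : Tr := .node t2016 .nil t1995 .nil .nil
def t2018 : Tr := .node .nil .nil .nil t690 .nil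
def t2019 : Tr := .node t2018 .nil .nil .nil .nil
def t2020 : Tr := .node .nil .nil .nil .nil t2019
def t2021 : Tr := .node .nil t1330 .nil t2020 .nil
def t2022 : Tr := .node t2021 .nil .nil .nil .nil
def t2023 : Tr := .node .nil .nil .nil .nil t2022
def t2024 : Tr := .node .nil t2017 t1390 t2023 .nil
def t2025 : Tr := .node .nil t1464 .nil t1469 .nil
def t2026 : Tr := .node t2024 .nil t2025 t1471 .nil
def t2027 : Tr := .node .nil .nil .nil .nil t1328
def t2028 : Tr := .node .nil .nil .nil t2027 .nil
def t2029 : Tr := .node t2028 .nil t1993 .nil .nil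
def t2030 : Tr := .node .nil .nil .nil .nil t1984
def t2031 : Tr := .node .nil t2029 .nil t2030 .nil
def t2032 : Tr := .node t2031 .nil .nil t1494 .nil
def t2033 : Tr := .node t1496 .nil t1991 .nil .nil
def t2034 : Tr := .node .nil t2033 .nil t1506 .nil
def t2035 : Tr := .node t2034 .nil .nil t1516 .nil
def t2036 : Tr := .node t512 .nil t2 t513 .nil
def t2037 : Tr := .node t379 t326 .nil .nil .nil
def t2038 : Tr := .node .nil .nil .nil .nil t2037
def t2039 : Tr := .node t1519 t2036 .nil t2038 .nil
def t2040 : Tr := .node .nil t563 t2039 t1523 .nil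
def t2041 : Tr := .node .nil t373 .nil t395 .nil
def t2042 : Tr := .node t2041 .nil .nil t525 .nil
def t2043 : Tr := .node t377 t328 .nil .nil .nil
def t2044 : Tr := .node .nil .nil .nil .nil t2043
def t2045 : Tr := .node t2040 t2042 .nil t2044 .nil
def t2046 : Tr := .node .nil t479 t2045 t1533 .nil
def t2047 : Tr := .node t405 .nil t403 .nil .nil
def t2048 : Tr := .node .nil t2047 t1235 t330 .nil
def t2049 : Tr := .node t2048 .nil t1233 t2027 .nil
def t2050 : Tr := .node t357 t1328 .nil .nil .nil
def t2051 : Tr := .node .nil .nil .nil .nil t2050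
def t2052 : Tr := .node t2046 t2049 .nil t2051 .nil
def t2053 : Tr := .node .nil t2035 t2052 t1559 .nil
def t2054 : Tr := .node .nil t1993 .nil t470 .nil
def t2055 : Tr := .node t2054 .nil t365 t1588 .nil
def t2056 : Tr := .node t443 t1330 .nil .nil .nil
def t2057 : Tr := .node .nil .nil .nil .nil t2056
def t2058 : Tr := .node t2053 t2055 .nil t2057 .nil
def t2059 : Tr := .node t1999 t1331 .nil .nil .nil
def t2060 : Tr := .node .nil .nil .nil .nil t2059
def t2061 : Tr := .node .nil t2032 t2058 t2060 .nil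
def t2062 : Tr := .node .nil .nil .nil .nil t2009
def t2063 : Tr := .node .nil t1995 .nil t2062 .nil
def t2064 : Tr := .node t2063 .nil .nil t1631 .nil
def t2065 : Tr := .node .nil t2009 .nil t2011 .nil
def t2066 : Tr := .node t2065 t1332 .nil .nil .nil
def t2067 : Tr := .node .nil .nil .nil .nil t2066
def t2068 : Tr := .node t2061 t2064 .nil t2067 .nil
def t2069 : Tr := .node .nil t689 .nil .nil .nil
def t2070 : Tr := .node t2069 .nil .nil .nil .nil
def t2071 : Tr := .node .nil .nil .nil .nil t2070
def t2072 : Tr := .node .nil t2019 .nil t2071 .nil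
def t2073 : Tr := .node t2072 .nil .nil .nil .nil
def t2074 : Tr := .node .nil .nil .nil .nil t2073
def t2075 : Tr := .node .nil t2022 .nil t2074 .nil
def t2076 : Tr := .node t2075 t1333 .nil .nil .nil
def t2077 : Tr := .node .nil .nil .nil .nil t2076
def t2078 : Tr := .node t2015 t2026 t2068 t2077 .nil
def t2079 : Tr := .node .nil .nil t686 .nil .nil
def t2080 : Tr := .node .nil t2079 .nil .nil .nil
def t2081 : Tr := .node .nil t1659 t2080 .nil .nil
def t2082 : Tr := .node t2081 .nil t1664 .nil .nil
def t2083 : Tr := .node .nil t2082 t1667 .nil .nil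
def t2084 : Tr := .node t2083 .nil t1670 .nil .nil
def t2085 : Tr := .node .nil t2084 t1673 .nil .nil
def t2086 : Tr := .node .nil .nil t747 .nil .nil
def t2087 : Tr := .node .nil t2086 .nil .nil .nil
def t2088 : Tr := .node t2085 t1681 t2087 .nil .nil
def t2089 : Tr := .node .nil .nil t43 .nil .nil
def t2090 : Tr := .node t1691 t2089 .nil .nil .nil
def t2091 : Tr := .node .nil t1690 t2090 t1695 .nil
def t2092 : Tr := .node t2091 .nil t799 t1697 .nil
def t2093 : Tr := .node .nil t814 .nil t815 .nil
def t2094 : Tr := .node .nil .nil t2093 .nil .nil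
def t2095 : Tr := .node t1747 t2094 .nil .nil .nil
def t2096 : Tr := .node .nil t2092 t2095 t1718 .nil
def t2097 : Tr := .node t2093 t1721 .nil t11 .nil
def t2098 : Tr := .node t729 .nil t2097 .nil .nil
def t2099 : Tr := .node .nil t2098 .nil t736 .nil
def t2100 : Tr := .node t2096 .nil t2099 t1725 .nil
def t2101 : Tr := .node t2093 .nil .nil t11 .nil
def t2102 : Tr := .node .nil t2101 .nil t1733 .nil
def t2103 : Tr := .node .nil .nil t2102 .nil .nil
def t2104 : Tr := .node t1830 t2103 .nil .nil .nil
def t2105 : Tr := .node t1741 t1659 t2080 .nil .nil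
def t2106 : Tr := .node .nil .nil .nil .nil t2105
def t2107 : Tr := .node .nil t2100 t2104 t2106 .nil
def t2108 : Tr := .node .nil .nil .nil .nil t2079
def t2109 : Tr := .node .nil .nil .nil t2108 .nil
def t2110 : Tr := .node t2102 t1748 .nil t912 .nil
def t2111 : Tr := .node t2109 .nil t2110 .nil .nil
def t2112 : Tr := .node t2080 .nil .nil .nil .nil
def t2113 : Tr := .node .nil .nil .nil .nil t2112
def t2114 : Tr := .node .nil t2111 .nil t2113 .nil
def t2115 : Tr := .node .nil .nil .nil .nil t2082
def t2116 : Tr := .node t2107 .nil t2114 t2115 .nil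
def t2117 : Tr := .node .nil .nil .nil t1756 .nil
def t2118 : Tr := .node t2102 .nil .nil t912 .nil
def t2119 : Tr := .node .nil t2118 .nil t1764 .nil
def t2120 : Tr := .node .nil .nil t2119 .nil .nil
def t2121 : Tr := .node t2117 t2120 .nil .nil .nil
def t2122 : Tr := .node .nil .nil t2080 .nil .nil
def t2123 : Tr := .node .nil .nil t1230 .nil .nil
def t2124 : Tr := .node .nil .nil .nil .nil t2123
def t2125 : Tr := .node .nil .nil .nil t2124 .nil
def t2126 : Tr := .node t2125 .nil t1233 .nil .nil
def t2127 : Tr := .node .nil .nil .nil .nil t2126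
def t2128 : Tr := .node .nil t2122 t719 t2127 .nil
def t2129 : Tr := .node t2128 t2082 t1844 .nil .nil
def t2130 : Tr := .node .nil .nil .nil .nil t2129
def t2131 : Tr := .node .nil t2116 t2121 t2130 .nil
def t2132 : Tr := .node t2119 .nil .nil t1756 .nil
def t2133 : Tr := .node t1746 .nil t365 .nil .nil
def t2134 : Tr := .node .nil t2133 .nil t1752 .nil
def t2135 : Tr := .node t2081 t719 t1664 .nil .nil
def t2136 : Tr := .node .nil .nil .nil .nil t2135
def t2137 : Tr := .node .nil t2132 t2134 t2136 .nil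
def t2138 : Tr := .node t2137 .nil .nil t976 .nil
def t2139 : Tr := .node .nil .nil .nil .nil t1842
def t2140 : Tr := .node .nil .nil .nil t2139 .nil
def t2141 : Tr := .node t2119 t1831 .nil t1756 .nil
def t2142 : Tr := .node t2140 .nil t2141 .nil .nil
def t2143 : Tr := .node t1844 .nil .nil .nil .nil
def t2144 : Tr := .node .nil .nil .nil .nil t2143
def t2145 : Tr := .node .nil t2142 .nil t2144 .nil
def t2146 : Tr := .node t2083 t747 t1670 .nil .nil
def t2147 : Tr := .node .nil .nil .nil .nil t2146
def t2148 : Tr := .node t2131 t2138 t2145 t2147 .nil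
def t2149 : Tr := .node t1880 .nil .nil t1960 .nil
def t2150 : Tr := .node .nil .nil .nil .nil t1863
def t2151 : Tr := .node .nil .nil t2149 t2150 .nil
def t2152 : Tr := .node t1857 .nil .nil .nil .nil
def t2153 : Tr := .node t998 .nil t2152 .nil .nil
def t2154 : Tr := .node .nil .nil .nil .nil t2153
def t2155 : Tr := .node .nil t1900 t1901 t2154 .nil
def t2156 : Tr := .node .nil .nil .nil .nil t1954
def t2157 : Tr := .node .nil t1876 t1914 t2156 .nil
def t2158 : Tr := .node t1870 .nil .nil .nil .nil
def t2159 : Tr := .node .nil t1089 t2158 t1931 .nil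
def t2160 : Tr := .node t2159 .nil t1947 .nil .nil
def t2161 : Tr := .node .nil t1930 t1858 .nil .nil
def t2162 : Tr := .node t2161 .nil t1856 .nil .nil
def t2163 : Tr := .node .nil .nil .nil .nil t2162
def t2164 : Tr := .node t1922 t2160 .nil t2163 .nil
def t2165 : Tr := .node t2157 .nil t2164 .nil .nil
def t2166 : Tr := .node t1913 t2165 .nil t1957 .nil
def t2167 : Tr := .node t2155 .nil t2166 .nil .nil
def t2168 : Tr := .node .nil .nil .nil t1960 .nil
def t2169 : Tr := .node .nil .nil .nil t1912 .nil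
def t2170 : Tr := .node t1899 t1875 .nil t1879 .nil
def t2171 : Tr := .node t2169 .nil t2170 .nil .nil
def t2172 : Tr := .node .nil t1861 t998 .nil .nil
def t2173 : Tr := .node t2172 .nil .nil .nil .nil
def t2174 : Tr := .node .nil .nil .nil .nil t2173
def t2175 : Tr := .node t2168 t2171 .nil t2174 .nil
def t2176 : Tr := .node .nil t2153 t1862 .nil .nil
def t2177 : Tr := .node t2176 .nil t1011 .nil .nil
def t2178 : Tr := .node .nil .nil .nil .nil t2177
def t2179 : Tr := .node t2151 t2167 t2175 t2178 .nil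
def t2180 : Tr := .node .nil .nil .nil t2030 .nil
def t2181 : Tr := .node t2180 .nil .nil .nil .nil
def t2182 : Tr := .node t1996 t2181 .nil t2001 .nil
def t2183 : Tr := .node t1986 .nil t2059 .nil .nil
def t2184 : Tr := .node .nil .nil .nil .nil t2183
def t2185 : Tr := .node .nil .nil t2182 t2184 .nil
def t2186 : Tr := .node .nil .nil .nil .nil t1365
def t2187 : Tr := .node .nil t2017 .nil t2186 .nil
def t2188 : Tr := .node t2187 .nil .nil t1471 .nil
def t2189 : Tr := .node .nil t1991 .nil t330 .nil
def t2190 : Tr := .node t2189 .nil .nil t2027 .nil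
def t2191 : Tr := .node t2046 t2190 .nil t2051 .nil
def t2192 : Tr := .node .nil t2035 t2191 t1559 .nil
def t2193 : Tr := .node .nil t1993 .nil t1516 .nil
def t2194 : Tr := .node t2193 .nil .nil t1588 .nil
def t2195 : Tr := .node t1348 t1330 .nil .nil .nil
def t2196 : Tr := .node .nil .nil .nil .nil t2195
def t2197 : Tr := .node t2192 t2194 .nil t2196 .nil
def t2198 : Tr := .node .nil t2032 t2197 t2060 .nil
def t2199 : Tr := .node .nil t1995 .nil t1494 .nil
def t2200 : Tr := .node t2199 .nil .nil t1631 .nil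
def t2201 : Tr := .node t1346 t1332 .nil .nil .nil
def t2202 : Tr := .node .nil .nil .nil .nil t2201
def t2203 : Tr := .node t2198 t2200 .nil t2202 .nil
def t2204 : Tr := .node .nil t1365 .nil .nil .nil
def t2205 : Tr := .node t2204 t1333 .nil .nil .nil
def t2206 : Tr := .node .nil .nil .nil .nil t2205
def t2207 : Tr := .node t2185 t2188 t2203 t2206 .nil
def t2208 : Tr := .node .nil t2122 t719 .nil .nil
def t2209 : Tr := .node t2208 t2082 t1667 .nil .nil
def t2210 : Tr := .node .nil .nil .nil .nil t2209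
def t2211 : Tr := .node .nil t2116 t2121 t2210 .nil
def t2212 : Tr := .node t2109 .nil .nil .nil .nil
def t2213 : Tr := .node .nil t2212 .nil t2113 .nil
def t2214 : Tr := .node .nil t2132 t2213 t2136 .nil
def t2215 : Tr := .node t2214 .nil .nil t976 .nil
def t2216 : Tr := .node .nil .nil .nil .nil t1666
def t2217 : Tr := .node .nil .nil .nil t2216 .nil
def t2218 : Tr := .node t2217 .nil t2141 .nil .nil
def t2219 : Tr := .node t1667 .nil .nil .nil .nil
def t2220 : Tr := .node .nil .nil .nil .nil t2219
def t2221 : Tr := .node .nil t2218 .nil t2220 .nil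
def t2222 : Tr := .node t2211 t2215 t2221 t2147 .nil

/-- `G k v`: the possible `k`-th columns after cost at most `v - 1` -/
def G : ℕ → ℕ → Tr
  | 1, 0 => t31
  | 1, 1 => t69
  | 1, 2 => t107
  | 2, 0 => t164
  | 2, 1 => t239
  | 2, 2 => t325
  | 3, 0 => t356
  | 3, 1 => t469
  | 3, 2 => t653
  | 4, 0 => .nil
  | 4, 1 => t773
  | 4, 2 => t994
  | 5, 0 => .nil
  | 5, 1 => t1057
  | 5, 2 => t1327
  | 6, 0 => .nil
  | 6, 1 => t1377
  | 6, 2 => t1653
  | 7, 0 => .nil
  | 7, 1 => t1682
  | 7, 2 => t1853
  | 8, 0 => .nil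
  | 8, 1 => t1868
  | 8, 2 => t1978
  | 9, 0 => .nil
  | 9, 1 => t1990
  | 9, 2 => t2078
  | 10, 0 => .nil
  | 10, 1 => t2088
  | 10, 2 => t2148
  | 11, 0 => .nil
  | 11, 1 => t1868
  | 11, 2 => t2179
  | 12, 0 => .nil
  | 12, 1 => t1990
  | 12, 2 => t2207
  | 13, 0 => .nil
  | 13, 1 => t2088
  | 13, 2 => t2222
  | 14, 0 => .nil
  | 14, 1 => t1868
  | 14, 2 => t2179
  | 15, 0 => .nil
  | 15, 1 => t1990
  | 15, 2 => t2207
  | 16, 0 => .nil
  | 16, 1 => t2088
  | 16, 2 => t2222
  | _, _ => .nil

end Pool.Agent.N374.Gun
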