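import Pool.Agent.N374.Gun.Core2
import Pool.Agent.N374.Gun.Cert2

/-! The finite checks, evaluated by the kernel. -/

set_option autoImplicit false

namespace Pool.Agent.N374.Gun

theorem base_ok : ∀ v < 3, chkF 14 (G 1 v) .L v = true := by decide +kernel

theorem fin_ok : ∀ v < 3, finck (G 16 v) .L (4 - v) = true := by decide +kernel
theorem trans_1 : ∀ v' < 3, ∀ v < v' + 1, chk (G 1 v) (G 2 v') .L .L (v' - v) = true := by
  decide +kernel
theorem trans_2 : ∀ v' < 3, ∀ v < v' + 1, chk (G 2 v) (G 3 v') .L .L (v' - v) = true := by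
  decide +kernel
theorem trans_3 : ∀ v' < 3, ∀ v < v' + 1, chk (G 3 v) (G 4 v') .L .L (v' - v) = true := by
  decide +kernel
theorem trans_4 : ∀ v' < 3, ∀ v < v' + 1, chk (G 4 v) (G 5 v') .L .L (v' - v) = true := by
  decide +kernel
theorem trans_5 : ∀ v' < 3, ∀ v < v' + 1, chk (G 5 v) (G 6 v') .L .L (v' - v) = true := by
  decide +kernel
theorem trans_6 : ∀ v' < 3, ∀ v < v' + 1, chk (G 6 v) (G 7 v') .L .L (v' - v) = true := by
  decide +kernel
theorem trans_7 : ∀ v' < 3, ∀ v < v' + 1, chk (G 7 v) (G 8 v') .L .L (v' - v) = true := by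
  decide +kernel
theorem trans_8 : ∀ v' < 3, ∀ v < v' + 1, chk (G 8 v) (G 9 v') .L .L (v' - v) = true := by
  decide +kernel
theorem trans_9 : ∀ v' < 3, ∀ v < v' + 1, chk (G 9 v) (G 10 v') .L .L (v' - v) = true := by
  decide +kernel
theorem trans_10 : ∀ v' < 3, ∀ v < v' + 1, chk (G 10 v) (G 11 v') .L .L (v' - v) = true := by
  decide +kernel
theorem trans_11 : ∀ v' < 3, ∀ v < v' + 1, chk (G 11 v) (G 12 v') .L .L (v' - v) = true := by
  decide +kernel
theorem trans_12 : ∀ v' < 3, ∀ v < v' + 1, chk (G 12 v) (G 13 v') .L .L (v' - v) = true := by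
  decide +kernel
theorem trans_13 : ∀ v' < 3, ∀ v < v' + 1, chk (G 13 v) (G 14 v') .L .L (v' - v) = true := by
  decide +kernel
theorem trans_14 : ∀ v' < 3, ∀ v < v' + 1, chk (G 14 v) (G 15 v') .L .L (v' - v) = true := by
  decide +kernel
theorem trans_15 : ∀ v' < 3, ∀ v < v' + 1, chk (G 15 v) (G 16 v') .L .L (v' - v) = true := by
  decide +kernel
theorem join_1 : ∀ v < 2, ∀ w < 3, jn (G 1 v) (G 15 w) .L .L (4 - v - w) = true := by
  decide +kernel
theorem join_2 : ∀ v < 2, ∀ w < 3, jn (G 2 v) (G 14 w) .L .L (4 - v - w) = true := by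
  decide +kernel
theorem join_3 : ∀ v < 2, ∀ w < 3, jn (G 3 v) (G 13 w) .L .L (4 - v - w) = true := by
  decide +kernel
theorem join_4 : ∀ v < 2, ∀ w < 3, jn (G 4 v) (G 12 w) .L .L (4 - v - w) = true := by
  decide +kernel
theorem join_5 : ∀ v < 2, ∀ w < 3, jn (G 5 v) (G 11 w) .L .L (4 - v - w) = true := by
  decide +kernel
theorem join_6 : ∀ v < 2, ∀ w < 3, jn (G 6 v) (G 10 w) .L .L (4 - v - w) = true := by
  decide +kernel
theorem join_7 : ∀ v < 2, ∀ w < 3, jn (G 7 v) (G 9 w) .L .L (4 - v - w) = true := by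
  decide +kernel
theorem join_8 : ∀ v < 2, ∀ w < 3, jn (G 8 v) (G 8 w) .L .L (4 - v - w) = true := by
  decide +kernel
theorem join_9 : ∀ v < 2, ∀ w < 3, jn (G 9 v) (G 7 w) .L .L (4 - v - w) = true := by
  decide +kernel
theorem join_10 : ∀ v < 2, ∀ w < 3, jn (G 10 v) (G 6 w) .L .L (4 - v - w) = true := by
  decide +kernel
theorem join_11 : ∀ v < 2, ∀ w < 3, jn (G 11 v) (G 5 w) .L .L (4 - v - w) = true := by
  decide +kernel
theorem join_12 : ∀ v < 2, ∀ w < 3, jn (G 12 v) (G 4 w) .L .L (4 - v - w) = true := by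
  decide +kernel
theorem join_13 : ∀ v < 2, ∀ w < 3, jn (G 13 v) (G 3 w) .L .L (4 - v - w) = true := by
  decide +kernel
theorem join_14 : ∀ v < 2, ∀ w < 3, jn (G 14 v) (G 2 w) .L .L (4 - v - w) = true := by
  decide +kernel
theorem join_15 : ∀ v < 2, ∀ w < 3, jn (G 15 v) (G 1 w) .L .L (4 - v - w) = true := by
  decide +kernel
theorem trans_ok (k : ℕ) (h1 : 1 ≤ k) (h2 : k ≤ 15) :
    ∀ v' < 3, ∀ v < v' + 1, chk (G k v) (G (k + 1) v') .L .L (v' - v) = true := by
  interval_cases k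
  · exact trans_1
  · exact trans_2
  · exact trans_3
  · exact trans_4
  · exact trans_5
  · exact trans_6
  · exact trans_7
  · exact trans_8
  · exact trans_9
  · exact trans_10
  · exact trans_11
  · exact trans_12
  · exact trans_13
  · exact trans_14
  · exact trans_15

theorem join_ok (j : ℕ) (h1 : 1 ≤ j) (h2 : j ≤ 15) :
    ∀ v < 2, ∀ w < 3, jn (G j v) (G (16 - j) w) .L .L (4 - v - w) = true := by
  interval_cases j
  · exact join_1
  · exact join_2
  · exact join_3
  · exact join_4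
  · exact join_5
  · exact join_6
  · exact join_7
  · exact join_8
  · exact join_9
  · exact join_10
  · exact join_11
  · exact join_12
  · exact join_13
  · exact join_14
  · exact join_15

end Pool.Agent.N374.Gun
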