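import Mathlib

/-!
Column words of gunport configurations, prefix trees of column words, and the verified
transfer checks.
-/

set_option autoImplicit false

namespace Pool.Agent.N374.Gun

/-- State of a cell: uncovered, or the left / right / upper / lower cell of a domino. -/
inductive Lt
  | O | L | R | U | D
  deriving DecidableEq

/-- prefix trees of words over `Lt` -/
inductive Tr
  | nil
  | leaf
  | node (o l r u d : Tr)

namespace Tr

/-- the subtree below a letter -/
def kid : Tr → Lt → Tr
  | .node o l r u d, x => match x with
    | .O => o
    | .L => l
    | .R => r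
    | .U => u
    | .D => d
  | .nil, _ => .nil
  | .leaf, _ => .nil

/-- is the tree a leaf -/
def isLeaf : Tr → Bool
  | .leaf => true
  | _ => false

/-- membership of a word -/
def mem : Tr → List Lt → Prop
  | t, [] => t.isLeaf = true
  | t, x :: xs => mem (t.kid x) xs

end Tr

/-- spend one unit of the budget if `c` holds, stop successfully if the budget is exhausted -/
def pay (c : Bool) (b : ℕ) (k : ℕ → Bool) : Bool :=
  match c with
  | false => k b
  | true => match b with
    | 0 => true
    | b + 1 => k b

/-- is the letter not `O` -/
def nO : Lt → Bool
  | .O => false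
  | _ => true

/-- a domino of the left column ends at this row and has no hole to its right -/
def e1 (b x y : Lt) : Bool :=
  match x with
  | .R => nO y
  | .D => match nO y with
    | true => nO b
    | false => false
  | _ => false

/-- exchange of left and right -/
def mir : Lt → Lt
  | .L => .R
  | .R => .L
  | .O => .O
  | .U => .U
  | .D => .D

/-- transition `y` at a row -/
def go (ih : Tr → Lt → Lt → ℕ → Bool) (tc : Tr) (a b x y : Lt) (bud : ℕ) : Bool :=
  pay (e1 b x y) bud fun bud => pay (e1 a (mir y) x) bud fun bud => ih (tc.kid y) x y bud

/-- end of the column -/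
def fin (b : Lt) (tc : Tr) : Bool :=
  match b with
  | .U => true
  | _ => tc.isLeaf

/-- all transitions at a row for the letter `x` of the left column -/
def via (x : Lt) (t : Tr) (ih : Tr → Lt → Lt → ℕ → Bool) (tc : Tr) (a b : Lt) (bud : ℕ) : Bool :=
  match t with
  | .nil => true
  | _ => match b with
    | .U => match x with
      | .L => true
      | _ => go ih tc a b x .D bud
    | .O => match x with
      | .L => go ih tc a b x .R bud
      | _ => go ih tc a b x .L bud && go ih tc a b x .U bud
    | _ => match x with
      | .L => go ih tc a b x .R bud
      | .O => go ih tc a b x .L bud && go ih tc a b x .U bud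
      | _ => go ih tc a b x .O bud && (go ih tc a b x .L bud && go ih tc a b x .U bud)

/-- every successor, within the budget, of a word of the tree `t` is in the tree `tc` -/
noncomputable def chk (t : Tr) : Tr → Lt → Lt → ℕ → Bool :=
  Tr.rec (motive := fun _ => Tr → Lt → Lt → ℕ → Bool)
    (fun _ _ _ _ => true)
    (fun tc _ b _ => fin b tc)
    (fun o l r u d iho ihl ihr ihu ihd tc a b bud =>
      via .O o iho tc a b bud && (via .L l ihl tc a b bud && (via .R r ihr tc a b bud &&
        (via .U u ihu tc a b bud && via .D d ihd tc a b bud)))) t

/-- the two columns are locally consistent; `a`, `b` are the letters of the row above -/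
def okr (a b x y : Lt) : Prop :=
  (a = .U ↔ x = .D) ∧ (b = .U ↔ y = .D) ∧ ¬(a = .O ∧ x = .O) ∧ ¬(b = .O ∧ y = .O) ∧
    (x = .L ↔ y = .R) ∧ ¬(x = .O ∧ y = .O)

instance (a b x y : Lt) : Decidable (okr a b x y) := by unfold okr; infer_instance

/-- consistency of two adjacent columns -/
def V : Lt → Lt → List Lt → List Lt → Prop
  | a, b, x :: xs, y :: ys => okr a b x y ∧ V x y xs ys
  | a, b, [], [] => a ≠ .U ∧ b ≠ .U
  | _, _, _, _ => False

/-- weight of the letters of the left column -/
def wR : Lt → ℤ
  | .O => -1
  | .R => 1
  | .U => 1
  | _ => 0

/-- weight of the letters of the right column -/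
def wL : Lt → ℤ
  | .O => -1
  | .L => 1
  | .U => 1
  | _ => 0

/-- number of dominoes ending in the column minus number of holes -/
def cR (p : List Lt) : ℤ := (p.map wR).sum

/-- number of dominoes starting in the column minus number of holes -/
def cL (p : List Lt) : ℤ := (p.map wL).sum

def pend (a b : Lt) : ℤ :=
  (if a = .U ∧ b ≠ .O then 1 else 0) + (if b = .U ∧ a ≠ .O then 1 else 0)

def ev (a b x y : Lt) : ℤ :=
  (if e1 b x y then 1 else 0) + (if e1 a (mir y) x then 1 else 0)

theorem step_id (a b x y : Lt) (h : okr a b x y) :
    wR x + wL y + pend a b = pend x y + ev a b x y := by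
  revert h
  cases a <;> cases b <;> cases x <;> cases y <;> decide

theorem pend_nonneg (a b : Lt) : 0 ≤ pend a b := by
  cases a <;> cases b <;> decide

theorem ev_nonneg (a b x y : Lt) : 0 ≤ ev a b x y := by
  unfold ev; split_ifs <;> norm_num

theorem nonneg : ∀ (p c : List Lt) (a b : Lt), V a b p c → 0 ≤ cR p + cL c + pend a b
  | [], [], a, b, _ => by simpa [cR, cL] using pend_nonneg a b
  | [], _ :: _, _, _, h => by simp [V] at h
  | _ :: _, [], _, _, h => by simp [V] at h
  | x :: p, y :: c, a, b, h => by
      obtain ⟨h1, h2⟩ := h
      have h3 := nonneg p c x y h2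
      have h4 := step_id a b x y h1
      have h5 := ev_nonneg a b x y
      simp only [cR, cL, List.map_cons, List.sum_cons] at h3 ⊢
      linarith

theorem go_spec {ih : Tr → Lt → Lt → ℕ → Bool} {tc : Tr} {a b x y : Lt} {bud : ℕ}
    (h : go ih tc a b x y bud = true) (hb : ev a b x y ≤ bud) :
    ∃ bud' : ℕ, (bud : ℤ) = bud' + ev a b x y ∧ ih (tc.kid y) x y bud' = true := by
  unfold go at h
  unfold ev at hb ⊢
  cases h1 : e1 b x y <;> cases h2 : e1 a (mir y) x <;> rw [h1, h2] at h <;>
    simp only [h1, h2, Bool.false_eq_true, if_false, if_true] at hb ⊢
  · exact ⟨bud, by simp, h⟩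
  · cases bud with
    | zero => norm_num at hb
    | succ n => exact ⟨n, by push_cast; ring, h⟩
  · cases bud with
    | zero => norm_num at hb
    | succ n => exact ⟨n, by push_cast; ring, h⟩
  · cases bud with
    | zero => norm_num at hb
    | succ n => cases n with
      | zero => norm_num at hb
      | succ n => exact ⟨n, by push_cast; ring, h⟩

theorem via_spec {x : Lt} {t : Tr} {ih : Tr → Lt → Lt → ℕ → Bool} {tc : Tr} {a b : Lt} {bud : ℕ}
    (h : via x t ih tc a b bud = true) (ht : t ≠ .nil) {y : Lt} (hy : okr a b x y) :
    go ih tc a b x y bud = true := by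
  unfold via at h
  revert h hy
  cases t with
  | nil => exact absurd rfl ht
  | leaf =>
    cases b <;> cases x <;> cases y <;> simp (config := {decide := true}) [okr] <;> tauto
  | node o l r u d =>
    cases b <;> cases x <;> cases y <;> simp (config := {decide := true}) [okr] <;> tauto

theorem chk_sound : ∀ (t tc : Tr) (p c : List Lt) (a b : Lt) (bud : ℕ),
    chk t tc a b bud = true → t.mem p → V a b p c → cR p + cL c + pend a b ≤ bud → tc.mem c := by
  intro t
  induction t with
  | nil =>
    intro tc p c a b bud _ hm
    exfalso
    cases p with
    | nil => simp [Tr.mem, Tr.isLeaf] at hm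
    | cons x p =>
      have : ∀ q, ¬ Tr.mem .nil q := by
        intro q
        induction q with
        | nil => simp [Tr.mem, Tr.isLeaf]
        | cons z q ih => simpa [Tr.mem, Tr.kid] using ih
      exact this p (by simpa [Tr.mem, Tr.kid] using hm)
  | leaf =>
    intro tc p c a b bud h hm hV _
    cases p with
    | nil =>
      cases c with
      | cons _ _ => simp [V] at hV
      | nil =>
        have hb : b ≠ .U := hV.2
        have h' : fin b tc = true := h
        show tc.isLeaf = true
        cases b <;> first | exact h' | exact absurd rfl hb
    | cons x p =>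
      exfalso
      have : ∀ q, ¬ Tr.mem .nil q := by
        intro q
        induction q with
        | nil => simp [Tr.mem, Tr.isLeaf]
        | cons z q ih => simpa [Tr.mem, Tr.kid] using ih
      exact this p (by simpa [Tr.mem, Tr.kid] using hm)
  | node o l r u d iho ihl ihr ihu ihd =>
    intro tc p c a b bud h hm hV hbud
    cases p with
    | nil => simp [Tr.mem, Tr.isLeaf] at hm
    | cons x p =>
      cases c with
      | nil => simp [V] at hV
      | cons y c =>
        obtain ⟨hok, hV'⟩ := hV
        have h' : (via .O o (chk o) tc a b bud && (via .L l (chk l) tc a b bud &&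
          (via .R r (chk r) tc a b bud && (via .U u (chk u) tc a b bud &&
            via .D d (chk d) tc a b bud)))) = true := h
        simp only [Bool.and_eq_true] at h'
        obtain ⟨ho, hl, hr, hu, hd⟩ := h'
        have hid := step_id a b x y hok
        have hnn := nonneg p c x y hV'
        have hev : ev a b x y ≤ bud := by
          simp only [cR, cL, List.map_cons, List.sum_cons] at hbud hnn
          linarith
        have key : ∀ t : Tr, t.mem p → via x t (chk t) tc a b bud = true →
            (∀ (tc : Tr) (p c : List Lt) (a b : Lt) (bud : ℕ),
              chk t tc a b bud = true → t.mem p → V a b p c →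
              cR p + cL c + pend a b ≤ bud → tc.mem c) → (tc.kid y).mem c := by
          intro t htp hvia iht
          have htn : t ≠ .nil := by
            rintro rfl
            have : ∀ q, ¬ Tr.mem .nil q := by
              intro q
              induction q with
              | nil => simp [Tr.mem, Tr.isLeaf]
              | cons z q ih => simpa [Tr.mem, Tr.kid] using ih
            exact this p htp
          have h1 := via_spec hvia htn hok
          obtain ⟨bud', hb1, hb2⟩ := go_spec h1 hev
          apply iht _ p c x y bud' hb2 htp hV'
          simp only [cR, cL, List.map_cons, List.sum_cons] at hbud hnn ⊢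
          linarith
        show (tc.kid y).mem c
        cases x with
        | O => exact key o hm ho iho
        | L => exact key l hm hl ihl
        | R => exact key r hm hr ihr
        | U => exact key u hm hu ihu
        | D => exact key d hm hd ihd

end Pool.Agent.N374.Gun
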