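import Pool.Agent.N374.Gun.Core

/-! First column, last column and joining checks. -/

set_option autoImplicit false

namespace Pool.Agent.N374.Gun

theorem not_mem_nil : ∀ q : List Lt, ¬ Tr.mem .nil q
  | [] => by simp [Tr.mem, Tr.isLeaf]
  | z :: q => by simpa [Tr.mem, Tr.kid] using not_mem_nil q

/-! ### joining -/

/-- transition `y` at a row -/
def goJ (ih : Tr → Lt → Lt → ℕ → Bool) (tc : Tr) (a b x y : Lt) (bud : ℕ) : Bool :=
  match tc.kid (mir y) with
  | .nil => true
  | _ => pay (e1 b x y) bud fun bud => pay (e1 a (mir y) x) bud fun bud =>
      ih (tc.kid (mir y)) x y bud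

/-- all transitions at a row for the letter `x` of the left column -/
def viaJ (x : Lt) (t : Tr) (ih : Tr → Lt → Lt → ℕ → Bool) (tc : Tr) (a b : Lt) (bud : ℕ) : Bool :=
  match t with
  | .nil => true
  | _ => match b with
    | .U => match x with
      | .L => true
      | _ => goJ ih tc a b x .D bud
    | .O => match x with
      | .L => goJ ih tc a b x .R bud
      | _ => goJ ih tc a b x .L bud && goJ ih tc a b x .U bud
    | _ => match x with
      | .L => goJ ih tc a b x .R bud
      | .O => goJ ih tc a b x .L bud && goJ ih tc a b x .U bud
      | _ => goJ ih tc a b x .O bud && (goJ ih tc a b x .L bud && goJ ih tc a b x .U bud)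

/-- no word of `t` can be followed, within the budget, by the mirror image of a word of `tc` -/
noncomputable def jn (t : Tr) : Tr → Lt → Lt → ℕ → Bool :=
  Tr.rec (motive := fun _ => Tr → Lt → Lt → ℕ → Bool)
    (fun _ _ _ _ => true)
    (fun tc _ _ _ => !tc.isLeaf)
    (fun o l r u d iho ihl ihr ihu ihd tc a b bud =>
      viaJ .O o iho tc a b bud && (viaJ .L l ihl tc a b bud && (viaJ .R r ihr tc a b bud &&
        (viaJ .U u ihu tc a b bud && viaJ .D d ihd tc a b bud)))) t

theorem goJ_spec {ih : Tr → Lt → Lt → ℕ → Bool} {tc : Tr} {a b x y : Lt} {bud : ℕ}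
    (h : goJ ih tc a b x y bud = true) (hn : tc.kid (mir y) ≠ .nil) (hb : ev a b x y ≤ bud) :
    ∃ bud' : ℕ, (bud : ℤ) = bud' + ev a b x y ∧ ih (tc.kid (mir y)) x y bud' = true := by
  have h : (pay (e1 b x y) bud fun bud => pay (e1 a (mir y) x) bud fun bud =>
      ih (tc.kid (mir y)) x y bud) = true := by
    unfold goJ at h
    revert h hn
    cases tc.kid (mir y) with
    | nil => intro _ hn; exact absurd rfl hn
    | leaf => intro h _; exact h
    | node o l r u d => intro h _; exact h
  unfold ev at hb ⊢
  cases h1 : e1 b x y <;> cases h2 : e1 a (mir y) x <;> rw [h1, h2] at h <;>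
    simp only [h1, h2, Bool.false_eq_true, if_false, if_true] at hb ⊢
  · exact ⟨bud, by simp, h⟩
  · cases bud with
    | zero => norm_num at hb
    | succ n => exact ⟨n, by push_cast; ring, h⟩
  · cases bud with
    | zero => norm_num at hb
    | succ n => exact ⟨n, by push_cast; ring, h⟩
  · cases bud with
    | zero => norm_num at hb
    | succ n => cases n with
      | zero => norm_num at hb
      | succ n => exact ⟨n, by push_cast; ring, h⟩

theorem viaJ_spec {x : Lt} {t : Tr} {ih : Tr → Lt → Lt → ℕ → Bool} {tc : Tr} {a b : Lt} {bud : ℕ}
    (h : viaJ x t ih tc a b bud = true) (ht : t ≠ .nil) {y : Lt} (hy : okr a b x y) :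
    goJ ih tc a b x y bud = true := by
  unfold viaJ at h
  revert h hy
  cases t with
  | nil => exact absurd rfl ht
  | leaf =>
    cases b <;> cases x <;> cases y <;> simp (config := {decide := true}) [okr] <;> tauto
  | node o l r u d =>
    cases b <;> cases x <;> cases y <;> simp (config := {decide := true}) [okr] <;> tauto

theorem jn_sound : ∀ (t tc : Tr) (p c : List Lt) (a b : Lt) (bud : ℕ),
    jn t tc a b bud = true → t.mem p → V a b p c → tc.mem (c.map mir) →
      ¬ cR p + cL c + pend a b ≤ bud := by
  intro t
  induction t with
  | nil => intro tc p c a b bud _ hm; exact absurd hm (not_mem_nil p)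
  | leaf =>
    intro tc p c a b bud h hm hV hc
    cases p with
    | nil =>
      cases c with
      | cons _ _ => simp [V] at hV
      | nil =>
        exfalso
        have h' : (!tc.isLeaf) = true := h
        have h2 : tc.isLeaf = true := hc
        rw [h2] at h'
        exact absurd h' (by decide)
    | cons x p =>
      exfalso
      exact not_mem_nil p (by simpa [Tr.mem, Tr.kid] using hm)
  | node o l r u d iho ihl ihr ihu ihd =>
    intro tc p c a b bud h hm hV hc hbud
    cases p with
    | nil => simp [Tr.mem, Tr.isLeaf] at hm
    | cons x p =>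
      cases c with
      | nil => simp [V] at hV
      | cons y c =>
        obtain ⟨hok, hV'⟩ := hV
        have h' : (viaJ .O o (jn o) tc a b bud && (viaJ .L l (jn l) tc a b bud &&
          (viaJ .R r (jn r) tc a b bud && (viaJ .U u (jn u) tc a b bud &&
            viaJ .D d (jn d) tc a b bud)))) = true := h
        simp only [Bool.and_eq_true] at h'
        obtain ⟨ho, hl, hr, hu, hd⟩ := h'
        have hid := step_id a b x y hok
        have hnn := nonneg p c x y hV'
        have hev : ev a b x y ≤ bud := by
          simp only [cR, cL, List.map_cons, List.sum_cons] at hbud hnn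
          linarith
        have hc' : (tc.kid (mir y)).mem (c.map mir) := hc
        have key : ∀ t : Tr, t.mem p → viaJ x t (jn t) tc a b bud = true →
            (∀ (tc : Tr) (p c : List Lt) (a b : Lt) (bud : ℕ),
              jn t tc a b bud = true → t.mem p → V a b p c → tc.mem (c.map mir) →
              ¬ cR p + cL c + pend a b ≤ bud) → False := by
          intro t htp hvia iht
          have htn : t ≠ .nil := by
            rintro rfl
            exact not_mem_nil p htp
          have hkn : tc.kid (mir y) ≠ .nil := by
            intro h0
            rw [h0] at hc'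
            exact not_mem_nil _ hc'
          have h1 := viaJ_spec hvia htn hok
          obtain ⟨bud', hb1, hb2⟩ := goJ_spec h1 hkn hev
          apply iht _ p c x y bud' hb2 htp hV' hc'
          simp only [cR, cL, List.map_cons, List.sum_cons] at hbud hnn ⊢
          linarith
        cases x with
        | O => exact key o hm ho iho
        | L => exact key l hm hl ihl
        | R => exact key r hm hr ihr
        | U => exact key u hm hu ihu
        | D => exact key d hm hd ihd

/-! ### single columns -/

/-- vertical consistency of a column -/
def V1 : Lt → List Lt → Prop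
  | b, y :: ys => (b = .U ↔ y = .D) ∧ ¬(b = .O ∧ y = .O) ∧ V1 y ys
  | b, [] => b ≠ .U

def psi (b : Lt) : ℤ := if b = .O then 1 else 0

theorem V1_left : ∀ (p c : List Lt) (a b : Lt), V a b p c → V1 a p
  | [], [], _, _, h => h.1
  | [], _ :: _, _, _, h => by simp [V] at h
  | _ :: _, [], _, _, h => by simp [V] at h
  | x :: p, y :: c, a, b, h => ⟨h.1.1, h.1.2.2.1, V1_left p c x y h.2⟩

theorem V1_right : ∀ (p c : List Lt) (a b : Lt), V a b p c → V1 b c
  | [], [], _, _, h => h.2
  | [], _ :: _, _, _, h => by simp [V] at h
  | _ :: _, [], _, _, h => by simp [V] at h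
  | x :: p, y :: c, a, b, h => ⟨h.1.2.1, h.1.2.2.2.1, V1_right p c x y h.2⟩

theorem cL_lower : ∀ (c : List Lt) (b : Lt), V1 b c → (∀ y ∈ c, y ≠ .R) → psi b - 1 ≤ cL c
  | [], b, _, _ => by unfold psi cL; split_ifs <;> simp
  | y :: c, b, h, hL => by
      obtain ⟨h1, h2, h3⟩ := h
      have := cL_lower c y h3 (fun z hz => hL z (List.mem_cons_of_mem _ hz))
      have hy : y ≠ .R := hL y List.mem_cons_self
      simp only [cL, List.map_cons, List.sum_cons] at this ⊢
      revert h1 h2 this hy
      cases b <;> cases y <;> simp [psi, wL] <;> intros <;> linarith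

theorem cR_lower : ∀ (c : List Lt) (b : Lt), V1 b c → (∀ y ∈ c, y ≠ .L) → psi b - 1 ≤ cR c
  | [], b, _, _ => by unfold psi cR; split_ifs <;> simp
  | y :: c, b, h, hL => by
      obtain ⟨h1, h2, h3⟩ := h
      have := cR_lower c y h3 (fun z hz => hL z (List.mem_cons_of_mem _ hz))
      have hy : y ≠ .L := hL y List.mem_cons_self
      simp only [cR, List.map_cons, List.sum_cons] at this ⊢
      revert h1 h2 this hy
      cases b <;> cases y <;> simp [psi, wR] <;> intros <;> linarith


/-- every column without `R` within the budget is in the tree -/
def chkF : ℕ → Tr → Lt → ℕ → Bool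
  | 0, tc, b, bud => match b with
    | .U => true
    | .O => tc.isLeaf
    | _ => match bud with
      | 0 => true
      | _ + 1 => tc.isLeaf
  | n + 1, tc, b, bud => match b with
    | .U => chkF n (tc.kid .D) .D bud
    | .O => chkF n (tc.kid .L) .L bud && chkF n (tc.kid .U) .U bud
    | _ => chkF n (tc.kid .O) .O bud && (match bud with
      | 0 => true
      | bud + 1 => chkF n (tc.kid .L) .L bud && chkF n (tc.kid .U) .U bud)

theorem chkF_sound : ∀ (n : ℕ) (tc : Tr) (b : Lt) (bud : ℕ) (c : List Lt), chkF n tc b bud = true →
    c.length = n → V1 b c → (∀ y ∈ c, y ≠ .R) → cL c - psi b + 1 ≤ bud → tc.mem c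
  | 0, tc, b, bud, c, h, hn, hV, _, hb => by
      obtain rfl := List.length_eq_zero_iff.1 hn
      have hbU : b ≠ .U := hV
      show tc.isLeaf = true
      unfold chkF at h
      simp only [cL, List.map_nil, List.sum_nil] at hb
      cases b with
      | U => exact absurd rfl hbU
      | O => exact h
      | L => cases bud with
        | zero => simp [psi] at hb
        | succ k => exact h
      | R => cases bud with
        | zero => simp [psi] at hb
        | succ k => exact h
      | D => cases bud with
        | zero => simp [psi] at hb
        | succ k => exact h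
  | n + 1, tc, b, bud, [], h, hn, hV, _, hb => by simp at hn
  | n + 1, tc, b, bud, y :: c, h, hn, hV, hR, hb => by
      obtain ⟨h1, h2, h3⟩ := hV
      have hR' : ∀ z ∈ c, z ≠ .R := fun z hz => hR z (List.mem_cons_of_mem _ hz)
      have hy : y ≠ .R := hR y List.mem_cons_self
      have hn' : c.length = n := by simpa using hn
      have hlow := cL_lower c y h3 hR'
      simp only [cL, List.map_cons, List.sum_cons] at hb hlow
      show (tc.kid y).mem c
      have IH := fun bud h4 h5 => chkF_sound n (tc.kid y) y bud c h4 hn' h3 hR' h5
      simp only [cL] at IH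
      unfold chkF at h
      revert h h1 h2 hy hb hlow IH
      cases b <;> cases y <;> cases bud <;> simp [psi, wL] <;> intros <;>
        first
          | (exfalso; linarith)
          | (apply_assumption <;> first | tauto | (push_cast at *; linarith))
  termination_by n => n

/-- end of the last column -/
def finE (b : Lt) (bud : ℕ) : Bool :=
  match b with
  | .O => false
  | _ => match bud with
    | 0 => true
    | _ + 1 => false

/-- no word of `t` without `L` is within the budget -/
noncomputable def finck (t : Tr) : Lt → ℕ → Bool :=
  Tr.rec (motive := fun _ => Lt → ℕ → Bool)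
    (fun _ _ => true)
    (fun b bud => finE b bud)
    (fun _ _ _ _ _ iho _ ihr ihu ihd b bud =>
      iho .O bud && (pay (nO b) bud (ihr .R) && (pay (nO b) bud (ihu .U) && ihd .D bud))) t

theorem finck_sound : ∀ (t : Tr) (b : Lt) (bud : ℕ) (c : List Lt), finck t b bud = true →
    t.mem c → V1 b c → (∀ y ∈ c, y ≠ .L) → ¬ cR c - psi b + 1 ≤ bud := by
  intro t
  induction t with
  | nil => intro b bud c _ hm; exact absurd hm (not_mem_nil c)
  | leaf =>
    intro b bud c h hm hV _ hb
    cases c with
    | cons x c => exact not_mem_nil c hm
    | nil =>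
      have h' : finE b bud = true := h
      simp only [cR, List.map_nil, List.sum_nil] at hb
      revert h' hb
      cases b <;> cases bud <;> simp [psi, finE]
  | node o l r u d iho ihl ihr ihu ihd =>
    intro b bud c h hm hV hL hb
    cases c with
    | nil => simp [Tr.mem, Tr.isLeaf] at hm
    | cons x c =>
      obtain ⟨h1, h2, h3⟩ := hV
      have hL' : ∀ z ∈ c, z ≠ .L := fun z hz => hL z (List.mem_cons_of_mem _ hz)
      have hy : x ≠ .L := hL x List.mem_cons_self
      have h' : (finck o .O bud && (pay (nO b) bud (finck r .R) && (pay (nO b) bud (finck u .U) &&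
        finck d .D bud))) = true := h
      simp only [Bool.and_eq_true] at h'
      obtain ⟨ho, hr, hu, hd⟩ := h'
      have hlow := cR_lower c x h3 hL'
      simp only [cR, List.map_cons, List.sum_cons] at hb hlow
      simp only [cR] at iho ihr ihu ihd
      cases x with
      | L => exact hy rfl
      | O =>
        refine iho .O bud c ho hm h3 hL' ?_
        revert h1 h2 hb
        cases b <;> simp [psi, wR] <;> intros <;> linarith
      | D =>
        refine ihd .D bud c hd hm h3 hL' ?_
        revert h1 h2 hb
        cases b <;> simp [psi, wR] <;> intros <;> linarith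
      | R =>
        have hp : psi .R = 0 := by simp [psi]
        rw [hp] at hlow
        rw [show wR .R = 1 from rfl] at hb
        by_cases hbO : b = .O
        · subst hbO
          refine ihr .R bud c hr hm h3 hL' ?_
          have : psi .O = 1 := by simp [psi]
          rw [hp]; rw [this] at hb; linarith
        · have h5 : nO b = true := by revert hbO; cases b <;> simp [nO]
          have h6 : psi b = 0 := by simp [psi, hbO]
          rw [h5] at hr
          rw [h6] at hb
          cases bud with
          | zero => push_cast at hb; linarith
          | succ k =>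
            refine ihr .R k c hr hm h3 hL' ?_
            rw [hp]; push_cast at hb; linarith
      | U =>
        have hp : psi .U = 0 := by simp [psi]
        rw [hp] at hlow
        rw [show wR .U = 1 from rfl] at hb
        by_cases hbO : b = .O
        · subst hbO
          refine ihu .U bud c hu hm h3 hL' ?_
          have : psi .O = 1 := by simp [psi]
          rw [hp]; rw [this] at hb; linarith
        · have h5 : nO b = true := by revert hbO; cases b <;> simp [nO]
          have h6 : psi b = 0 := by simp [psi, hbO]
          rw [h5] at hu
          rw [h6] at hb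
          cases bud with
          | zero => push_cast at hb; linarith
          | succ k =>
            refine ihu .U k c hu hm h3 hL' ?_
            rw [hp]; push_cast at hb; linarith

end Pool.Agent.N374.Gun
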