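import Mathlib

/-! Gunport configurations: definitions. -/

set_option autoImplicit false

namespace Pool.Agent.N374.Gun

/-- The cells of the `m × n` board. -/
def board (m n : ℕ) : Finset (ℕ × ℕ) := Finset.range m ×ˢ Finset.range n

/-- Two cells share an edge. -/
def EdgeAdj (p q : ℕ × ℕ) : Prop :=
  (p.1 = q.1 ∧ (p.2 + 1 = q.2 ∨ q.2 + 1 = p.2)) ∨
    (p.2 = q.2 ∧ (p.1 + 1 = q.1 ∨ q.1 + 1 = p.1))

/-- The cells of the `m × n` board that are covered by no domino of `S`. -/
def holes (m n : ℕ) (S : Finset (Finset (ℕ × ℕ))) : Finset (ℕ × ℕ) :=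
  (board m n).filter fun p => ∀ d ∈ S, p ∉ d

/-- `S` is a gunport configuration on the `m × n` board: a set of pairwise disjoint dominoes on the
board such that no two uncovered cells share an edge. -/
structure IsGunport (m n : ℕ) (S : Finset (Finset (ℕ × ℕ))) : Prop where
  domino : ∀ d ∈ S, d ⊆ board m n ∧ ∃ p q, EdgeAdj p q ∧ d = {p, q}
  disjoint : ∀ d ∈ S, ∀ e ∈ S, d ≠ e → Disjoint d e
  isolated : ∀ p ∈ holes m n S, ∀ q ∈ holes m n S, ¬ EdgeAdj p q

/-- `g` is the maximum number `G(m,n)` of holes over all gunport configurations on the `m × n`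
board. -/
def IsMaxHoles (m n g : ℕ) : Prop :=
  IsGreatest {h : ℕ | ∃ S, IsGunport m n S ∧ (holes m n S).card = h} g

end Pool.Agent.N374.Gun
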