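import Pool.Agent.N374.Gun.Link

/-! A gunport configuration on the `14 × 16` board with 72 holes, and the exact maximum. -/

set_option autoImplicit false

namespace Pool.Agent.N374.Gun

open Finset

/-- the dominoes of the configuration -/
def exL : List ((ℕ × ℕ) × (ℕ × ℕ)) :=
  [ ((0, 1), (1, 1)), ((0, 3), (1, 3)), ((0, 5), (1, 5)), ((0, 7), (1, 7)), ((0, 9), (1, 9)), ((0,
    11), (1, 11)), ((0, 13), (1, 13)), ((0, 15), (1, 15)), ((1, 0), (2, 0)), ((1, 2), (2, 2)), ((1,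
    4), (2, 4)), ((1, 6), (2, 6)), ((1, 8), (2, 8)), ((1, 10), (2, 10)), ((1, 12), (2, 12)), ((1,
    14), (2, 14)), ((3, 1), (4, 1)), ((3, 3), (4, 3)), ((3, 5), (4, 5)), ((3, 7), (4, 7)), ((3, 9),
    (4, 9)), ((3, 11), (4, 11)), ((3, 13), (4, 13)), ((3, 15), (4, 15)), ((4, 0), (5, 0)), ((4, 2),
    (5, 2)), ((4, 4), (5, 4)), ((4, 6), (5, 6)), ((4, 8), (5, 8)), ((4, 10), (5, 10)), ((4, 12),
    (5, 12)), ((4, 14), (5, 14)), ((6, 1), (7, 1)), ((6, 3), (7, 3)), ((6, 5), (7, 5)), ((6, 7),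
    (7, 7)), ((6, 9), (7, 9)), ((6, 11), (7, 11)), ((6, 13), (7, 13)), ((6, 15), (7, 15)), ((7, 0),
    (8, 0)), ((7, 2), (8, 2)), ((7, 4), (8, 4)), ((7, 6), (8, 6)), ((7, 8), (8, 8)), ((7, 10), (8,
    10)), ((7, 12), (8, 12)), ((7, 14), (8, 14)), ((9, 1), (10, 1)), ((9, 3), (10, 3)), ((9, 5),
    (10, 5)), ((9, 7), (10, 7)), ((9, 9), (10, 9)), ((9, 11), (10, 11)), ((9, 13), (10, 13)), ((9,
    15), (10, 15)), ((10, 0), (11, 0)), ((10, 2), (11, 2)), ((10, 4), (11, 4)), ((10, 6), (11, 6)),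
    ((10, 8), (11, 8)), ((10, 10), (11, 10)), ((10, 12), (11, 12)), ((10, 14), (11, 14)), ((12, 1),
    (12, 2)), ((12, 3), (13, 3)), ((12, 5), (12, 6)), ((12, 7), (13, 7)), ((12, 9), (12, 10)),
    ((12, 11), (13, 11)), ((12, 13), (12, 14)), ((12, 15), (13, 15)), ((13, 0), (13, 1)), ((13, 4),
    (13, 5)), ((13, 8), (13, 9)), ((13, 12), (13, 13))]

/-- the configuration -/
def exS : Finset (Finset (ℕ × ℕ)) := (exL.map fun x => ({x.1, x.2} : Finset (ℕ × ℕ))).toFinset

def hol (p : ℕ × ℕ) : Bool := exL.all fun x => p != x.1 && p != x.2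

theorem mem_exS {d : Finset (ℕ × ℕ)} : d ∈ exS ↔ ∃ x ∈ exL, ({x.1, x.2} : Finset (ℕ × ℕ)) = d := by
  unfold exS
  rw [List.mem_toFinset, List.mem_map]

def adjB (p q : ℕ × ℕ) : Bool :=
  (p.1 == q.1 && (p.2 + 1 == q.2 || q.2 + 1 == p.2)) ||
    (p.2 == q.2 && (p.1 + 1 == q.1 || q.1 + 1 == p.1))

theorem adjB_iff (p q : ℕ × ℕ) : adjB p q = true ↔ EdgeAdj p q := by
  simp [adjB, EdgeAdj]

theorem ex_dom : ∀ x ∈ exL, x.1.1 < 14 ∧ x.1.2 < 16 ∧ x.2.1 < 14 ∧ x.2.2 < 16 ∧
    adjB x.1 x.2 = true := by decide +kernel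

theorem ex_disj : ∀ x ∈ exL, ∀ y ∈ exL, x ≠ y →
    x.1 ≠ y.1 ∧ x.1 ≠ y.2 ∧ x.2 ≠ y.1 ∧ x.2 ≠ y.2 := by decide +kernel

theorem ex_iso : ∀ i < 14, ∀ j < 16, hol (i, j) = true →
    (j + 1 < 16 → hol (i, j + 1) = false) ∧ (i + 1 < 14 → hol (i + 1, j) = false) := by
  decide +kernel

theorem ex_card : ((Finset.range 14 ×ˢ Finset.range 16).filter fun p => hol p = true).card = 72 := by
  decide +kernel

theorem holes_ex : holes 14 16 exS = (board 14 16).filter fun p => hol p = true := by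
  unfold holes
  apply filter_congr
  intro p _
  unfold hol
  rw [List.all_eq_true]
  constructor
  · intro h x hx
    have h1 := h _ (mem_exS.2 ⟨x, hx, rfl⟩)
    simp only [mem_insert, mem_singleton, not_or] at h1
    simp [h1]
  · rintro h d hd
    obtain ⟨x, hx, rfl⟩ := mem_exS.1 hd
    have h1 := h x hx
    simp at h1
    simp [h1]

theorem ex_gunport : IsGunport 14 16 exS where
  domino := by
    intro d hd
    obtain ⟨x, hx, rfl⟩ := mem_exS.1 hd
    obtain ⟨h1, h2, h3, h4, h5⟩ := ex_dom x hx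
    refine ⟨?_, x.1, x.2, (adjB_iff _ _).1 h5, rfl⟩
    intro p hp
    simp only [mem_insert, mem_singleton] at hp
    rcases hp with rfl | rfl
    · simp [board, h1, h2]
    · simp [board, h3, h4]
  disjoint := by
    intro d hd e he hne
    obtain ⟨x, hx, rfl⟩ := mem_exS.1 hd
    obtain ⟨y, hy, rfl⟩ := mem_exS.1 he
    have hxy : x ≠ y := by rintro rfl; exact hne rfl
    obtain ⟨h1, h2, h3, h4⟩ := ex_disj x hx y hy hxy
    rw [Finset.disjoint_left]
    intro p hp hq
    simp only [mem_insert, mem_singleton] at hp hq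
    rcases hp with rfl | rfl <;> rcases hq with h | h
    · exact h1 h
    · exact h2 h
    · exact h3 h
    · exact h4 h
  isolated := by
    have key : ∀ p ∈ holes 14 16 exS, ∀ q ∈ holes 14 16 exS,
        ¬ ((p.1 = q.1 ∧ p.2 + 1 = q.2) ∨ (p.2 = q.2 ∧ p.1 + 1 = q.1)) := by
      rintro ⟨i, j⟩ hp ⟨i', j'⟩ hq hadj
      rw [holes_ex, mem_filter] at hp hq
      have hb1 : i < 14 ∧ j < 16 := by simpa [board] using hp.1
      have hb2 : i' < 14 ∧ j' < 16 := by simpa [board] using hq.1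
      obtain ⟨h1, h2⟩ := ex_iso i hb1.1 j hb1.2 hp.2
      rcases hadj with ⟨e1, e2⟩ | ⟨e1, e2⟩
      · simp only at e1 e2
        subst e1; subst e2
        rw [h1 hb2.2] at hq
        exact absurd hq.2 (by decide)
      · simp only at e1 e2
        subst e1; subst e2
        rw [h2 hb2.1] at hq
        exact absurd hq.2 (by decide)
    rintro p hp q hq (⟨e, h | h⟩ | ⟨e, h | h⟩)
    · exact key p hp q hq (Or.inl ⟨e, h⟩)
    · exact key q hq p hp (Or.inl ⟨e.symm, h⟩)
    · exact key p hp q hq (Or.inr ⟨e, h⟩)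
    · exact key q hq p hp (Or.inr ⟨e.symm, h⟩)

theorem card_parity {m n : ℕ} {S : Finset (Finset (ℕ × ℕ))} (h : IsGunport m n S) :
    (holes m n S).card + 2 * S.card = m * n := by
  have h1 : board m n = holes m n S ∪ S.biUnion id := by
    ext p
    rw [mem_union, mem_biUnion]
    unfold holes
    rw [mem_filter]
    constructor
    · intro hp
      by_cases hc : ∀ d ∈ S, p ∉ d
      · exact Or.inl ⟨hp, hc⟩
      · push Not at hc
        obtain ⟨d, hd, hpd⟩ := hc
        exact Or.inr ⟨d, hd, hpd⟩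
    · rintro (hp | ⟨d, hd, hpd⟩)
      · exact hp.1
      · exact (h.domino d hd).1 hpd
  have h2 : Disjoint (holes m n S) (S.biUnion id) := by
    rw [Finset.disjoint_left]
    intro p hp hq
    rw [mem_biUnion] at hq
    obtain ⟨d, hd, hpd⟩ := hq
    exact (mem_filter.1 hp).2 d hd hpd
  have h3 : (S.biUnion id).card = 2 * S.card := by
    rw [card_biUnion (t := id) (fun d hd e he hne => h.disjoint d hd e he hne)]
    rw [sum_congr rfl (g := fun _ => 2), sum_const, smul_eq_mul, mul_comm]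
    intro d hd
    obtain ⟨-, p, q, hadj, rfl⟩ := h.domino d hd
    apply card_pair
    rintro rfl
    rcases hadj with ⟨_, h | h⟩ | ⟨_, h | h⟩ <;> omega
  have h4 : (board m n).card = m * n := by simp [board]
  rw [← h4, h1, card_union_of_disjoint h2, h3]

/-- The maximum number of holes on the `14 × 16` board is `72`. -/
theorem isGreatest_72 : IsGreatest {h : ℕ | ∃ S, IsGunport 14 16 S ∧ (holes 14 16 S).card = h} 72 := by
  constructor
  · refine ⟨exS, ex_gunport, ?_⟩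
    rw [holes_ex]
    exact ex_card
  · rintro h ⟨S, hS, rfl⟩
    have h1 := holes_le hS
    have h2 := card_parity hS
    omega

end Pool.Agent.N374.Gun
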