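import Pool.Agent.N374.Gun.Abs
import Pool.Agent.N374.Gun.Defs

/-! From gunport configurations to columns. -/

set_option autoImplicit false

namespace Pool.Agent.N374.Gun

open Finset

variable {m n : ℕ} {S : Finset (Finset (ℕ × ℕ))}

open Classical in
/-- state of a cell -/
noncomputable def cell (S : Finset (Finset (ℕ × ℕ))) (i j : ℕ) : Lt :=
  if ({(i, j), (i, j + 1)} : Finset (ℕ × ℕ)) ∈ S then .L
  else if ({(i, j), (i + 1, j)} : Finset (ℕ × ℕ)) ∈ S then .U
  else if 1 ≤ j ∧ ({(i, j - 1), (i, j)} : Finset (ℕ × ℕ)) ∈ S then .R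
  else if 1 ≤ i ∧ ({(i - 1, j), (i, j)} : Finset (ℕ × ℕ)) ∈ S then .D
  else .O

theorem uniq (h : IsGunport m n S) {d e : Finset (ℕ × ℕ)} (hd : d ∈ S) (he : e ∈ S) {p : ℕ × ℕ}
    (h1 : p ∈ d) (h2 : p ∈ e) : d = e := by
  by_contra hne
  exact (Finset.disjoint_left.1 (h.disjoint d hd e he hne)) h1 h2

theorem pair_eq {a b c d : ℕ × ℕ} (h : ({a, b} : Finset (ℕ × ℕ)) = {c, d}) :
    (a = c ∧ b = d) ∨ (a = d ∧ b = c) := by
  have ha : a ∈ ({c, d} : Finset (ℕ × ℕ)) := h ▸ by simp
  have hb : b ∈ ({c, d} : Finset (ℕ × ℕ)) := h ▸ by simp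
  have hc : c ∈ ({a, b} : Finset (ℕ × ℕ)) := h ▸ by simp
  have hd : d ∈ ({a, b} : Finset (ℕ × ℕ)) := h ▸ by simp
  simp only [mem_insert, mem_singleton] at ha hb hc hd
  rcases ha with rfl | rfl <;> rcases hb with rfl | rfl <;> tauto

theorem cell_L (i j : ℕ) : cell S i j = .L ↔ ({(i, j), (i, j + 1)} : Finset (ℕ × ℕ)) ∈ S := by
  unfold cell; split_ifs <;> simp_all

theorem cell_U (h : IsGunport m n S) (i j : ℕ) :
    cell S i j = .U ↔ ({(i, j), (i + 1, j)} : Finset (ℕ × ℕ)) ∈ S := by
  constructor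
  · intro hc
    unfold cell at hc
    split_ifs at hc with h1 h2 h3 h4
    exact h2
  · intro h2
    unfold cell
    rw [if_neg, if_pos h2]
    intro h1
    have := pair_eq (uniq h h1 h2 (p := (i, j)) (by simp) (by simp))
    simp only [Prod.mk.injEq] at this
    omega

theorem cell_R (h : IsGunport m n S) (i j : ℕ) :
    cell S i (j + 1) = .R ↔ ({(i, j), (i, j + 1)} : Finset (ℕ × ℕ)) ∈ S := by
  constructor
  · intro hc
    unfold cell at hc
    split_ifs at hc with h1 h2 h3 h4
    simpa using h3
  · intro h3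
    unfold cell
    rw [if_neg, if_neg, if_pos ⟨by omega, by simpa using h3⟩]
    · intro h1
      have := pair_eq (uniq h h1 h3 (p := (i, j + 1)) (by simp) (by simp))
      simp only [Prod.mk.injEq] at this
      omega
    · intro h1
      have := pair_eq (uniq h h1 h3 (p := (i, j + 1)) (by simp) (by simp))
      simp only [Prod.mk.injEq] at this
      omega

theorem cell_R0 (i : ℕ) : cell S i 0 ≠ .R := by
  intro hc
  unfold cell at hc
  split_ifs at hc with h1 h2 h3 h4
  omega

theorem cell_D (h : IsGunport m n S) (i j : ℕ) :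
    cell S (i + 1) j = .D ↔ ({(i, j), (i + 1, j)} : Finset (ℕ × ℕ)) ∈ S := by
  constructor
  · intro hc
    unfold cell at hc
    split_ifs at hc with h1 h2 h3 h4
    simpa using h4
  · intro h3
    unfold cell
    rw [if_neg, if_neg, if_neg, if_pos ⟨by omega, by simpa using h3⟩]
    · rintro ⟨h0, h1⟩
      have := pair_eq (uniq h h1 h3 (p := (i + 1, j)) (by simp) (by simp))
      simp only [Prod.mk.injEq] at this
      omega
    · intro h1
      have := pair_eq (uniq h h1 h3 (p := (i + 1, j)) (by simp) (by simp))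
      simp only [Prod.mk.injEq] at this
      omega
    · intro h1
      have := pair_eq (uniq h h1 h3 (p := (i + 1, j)) (by simp) (by simp))
      simp only [Prod.mk.injEq] at this
      omega

theorem cell_D0 (j : ℕ) : cell S 0 j ≠ .D := by
  intro hc
  unfold cell at hc
  split_ifs at hc with h1 h2 h3 h4
  omega

theorem cell_O (h : IsGunport m n S) {i j : ℕ} (hi : i < m) (hj : j < n) :
    cell S i j = .O ↔ (i, j) ∈ holes m n S := by
  unfold holes board
  rw [mem_filter]
  simp only [mem_product, mem_range, hi, hj, and_self, true_and]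
  constructor
  · intro hc d hd hp
    obtain ⟨-, p, q, hadj, rfl⟩ := h.domino d hd
    unfold cell at hc
    split_ifs at hc with h1 h2 h3 h4
    simp only [mem_insert, mem_singleton] at hp
    have key : ∀ p q : ℕ × ℕ, EdgeAdj p q → (i, j) = p → ({p, q} : Finset (ℕ × ℕ)) ∈ S → False := by
      rintro p ⟨q1, q2⟩ hadj rfl hmem
      rcases hadj with ⟨e, e1 | e1⟩ | ⟨e, e1 | e1⟩
      · simp only at e e1; subst e; subst e1; exact h1 hmem
      · simp only at e e1; subst e; subst e1
        apply h3
        refine ⟨by omega, ?_⟩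
        rw [Nat.add_sub_cancel, Finset.pair_comm]
        exact hmem
      · simp only at e e1; subst e; subst e1; exact h2 hmem
      · simp only at e e1; subst e; subst e1
        apply h4
        refine ⟨by omega, ?_⟩
        rw [Nat.add_sub_cancel, Finset.pair_comm]
        exact hmem
    rcases hp with hp | hp
    · exact key p q hadj hp hd
    · refine key q p ?_ hp (by rw [Finset.pair_comm]; exact hd)
      rcases hadj with ⟨e, e1⟩ | ⟨e, e1⟩
      · exact Or.inl ⟨e.symm, e1.symm⟩
      · exact Or.inr ⟨e.symm, e1.symm⟩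
  · intro hc
    unfold cell
    rw [if_neg, if_neg, if_neg, if_neg]
    · rintro ⟨_, h1⟩; exact hc _ h1 (by simp)
    · rintro ⟨_, h1⟩; exact hc _ h1 (by simp)
    · intro h1; exact hc _ h1 (by simp)
    · intro h1; exact hc _ h1 (by simp)

/-- rows `i, ..., i + k - 1` of the column `j` -/
noncomputable def colF (S : Finset (Finset (ℕ × ℕ))) (i k j : ℕ) : List Lt :=
  match k with
  | 0 => []
  | k + 1 => cell S i j :: colF S (i + 1) k j

theorem mem_board_of_mem (h : IsGunport m n S) {d : Finset (ℕ × ℕ)} (hd : d ∈ S) {p : ℕ × ℕ}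
    (hp : p ∈ d) : p.1 < m ∧ p.2 < n := by
  have := (h.domino d hd).1 hp
  simpa [board] using this

theorem row_ok (h : IsGunport m n S) {i j : ℕ} (hi : i + 1 < m) (hj : j + 1 < n) :
    okr (cell S i j) (cell S i (j + 1)) (cell S (i + 1) j) (cell S (i + 1) (j + 1)) := by
  refine ⟨?_, ?_, ?_, ?_, ?_, ?_⟩
  · rw [cell_U h, cell_D h]
  · rw [cell_U h, cell_D h]
  · rintro ⟨h1, h2⟩
    rw [cell_O h (by omega) (by omega)] at h1 h2
    exact h.isolated _ h1 _ h2 (Or.inr ⟨rfl, Or.inl rfl⟩)
  · rintro ⟨h1, h2⟩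
    rw [cell_O h (by omega) (by omega)] at h1 h2
    exact h.isolated _ h1 _ h2 (Or.inr ⟨rfl, Or.inl rfl⟩)
  · rw [cell_L, cell_R h]
  · rintro ⟨h1, h2⟩
    rw [cell_O h (by omega) (by omega)] at h1 h2
    exact h.isolated _ h1 _ h2 (Or.inl ⟨rfl, Or.inl rfl⟩)

theorem row_ok0 (h : IsGunport m n S) {j : ℕ} (hm : 0 < m) (hj : j + 1 < n) :
    okr .L .L (cell S 0 j) (cell S 0 (j + 1)) := by
  refine ⟨?_, ?_, ?_, ?_, ?_, ?_⟩
  · exact ⟨fun h => absurd h (by decide), fun h => absurd h (cell_D0 j)⟩
  · exact ⟨fun h => absurd h (by decide), fun h => absurd h (cell_D0 (j + 1))⟩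
  · rintro ⟨h1, _⟩; cases h1
  · rintro ⟨h1, _⟩; cases h1
  · rw [cell_L, cell_R h]
  · rintro ⟨h1, h2⟩
    rw [cell_O h (by omega) (by omega)] at h1 h2
    exact h.isolated _ h1 _ h2 (Or.inl ⟨rfl, Or.inl rfl⟩)

theorem not_U_last (h : IsGunport m n S) {i j : ℕ} (hi : i + 1 = m) : cell S i j ≠ .U := by
  intro hc
  rw [cell_U h] at hc
  have := (mem_board_of_mem h hc (p := (i + 1, j)) (by simp)).1
  simp only at this
  omega

theorem not_L_last (h : IsGunport m n S) {i j : ℕ} (hj : j + 1 = n) : cell S i j ≠ .L := by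
  intro hc
  rw [cell_L] at hc
  have := (mem_board_of_mem h hc (p := (i, j + 1)) (by simp)).2
  simp only at this
  omega

theorem V_col (h : IsGunport m n S) {j : ℕ} (hj : j + 1 < n) : ∀ k i : ℕ, i + 1 + k = m →
    V (cell S i j) (cell S i (j + 1)) (colF S (i + 1) k j) (colF S (i + 1) k (j + 1))
  | 0, i, hi => ⟨not_U_last h (by omega), not_U_last h (by omega)⟩
  | k + 1, i, hi => ⟨row_ok h (by omega) hj, V_col h hj k (i + 1) (by omega)⟩

theorem V_col0 (h : IsGunport m n S) {j : ℕ} (hm : 0 < m) (hj : j + 1 < n) :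
    V .L .L (colF S 0 m j) (colF S 0 m (j + 1)) := by
  obtain ⟨k, rfl⟩ : ∃ k, m = k + 1 := ⟨m - 1, by omega⟩
  exact ⟨row_ok0 h hm hj, V_col h hj k 0 (by omega)⟩

theorem colF_length (i k j : ℕ) : (colF S i k j).length = k := by
  induction k generalizing i with
  | zero => rfl
  | succ k ih => simp [colF, ih]

theorem mem_colF {i k j : ℕ} {y : Lt} (hy : y ∈ colF S i k j) : ∃ i', i ≤ i' ∧ i' < i + k ∧ y = cell S i' j := by
  induction k generalizing i with
  | zero => simp [colF] at hy
  | succ k ih =>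
    rw [colF, List.mem_cons] at hy
    rcases hy with rfl | hy
    · exact ⟨i, le_rfl, by omega, rfl⟩
    · obtain ⟨i', h1, h2, h3⟩ := ih hy
      exact ⟨i', by omega, by omega, h3⟩

theorem cols (h : IsGunport 14 16 S) : Cols (fun j => colF S 0 14 j) where
  len := colF_length 0 14 0
  pair := fun j hj => V_col0 h (by norm_num) (by omega)
  first := by
    intro y hy hR
    obtain ⟨i, _, _, rfl⟩ := mem_colF hy
    exact cell_R0 i hR
  last := by
    intro y hy hL
    obtain ⟨i, _, _, rfl⟩ := mem_colF hy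
    exact not_L_last h (by norm_num) hL

/-- number of `O` -/
def cO (p : List Lt) : ℤ := (p.map fun x => if x = .O then (1 : ℤ) else 0).sum

theorem s_eq : ∀ (p : List Lt) (b : Lt), V1 b p → s p = p.length - 3 * cO p -
    (if b = .U then 1 else 0)
  | [], b, h => by
      have hb : b ≠ .U := h
      simp [s, cL, cR, cO, hb]
  | x :: p, b, h => by
      obtain ⟨h1, h2, h3⟩ := h
      have ih := s_eq p x h3
      simp only [s, cL, cR, cO, List.map_cons, List.sum_cons, List.length_cons] at ih ⊢
      push_cast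
      revert h1 ih
      cases b <;> cases x <;> simp [wL, wR] <;> intro ih <;> linarith

theorem cO_colF (i k j : ℕ) : cO (colF S i k j) =
    ∑ t ∈ range k, (if cell S (i + t) j = .O then (1 : ℤ) else 0) := by
  induction k generalizing i with
  | zero => simp [colF, cO]
  | succ k ih =>
    have e : cO (colF S i (k + 1) j) = (if cell S i j = .O then (1 : ℤ) else 0) +
        cO (colF S (i + 1) k j) := by simp [colF, cO]
    rw [e, ih, sum_range_succ', add_comm]
    congr 1
    apply sum_congr rfl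
    intro t _
    rw [show i + 1 + t = i + (t + 1) by omega]

theorem card_holes (h : IsGunport m n S) : ((holes m n S).card : ℤ) =
    ∑ j ∈ range n, ∑ i ∈ range m, (if cell S i j = .O then (1 : ℤ) else 0) := by
  have e : holes m n S = (board m n).filter fun p => cell S p.1 p.2 = .O := by
    ext ⟨i, j⟩
    by_cases hb : (i, j) ∈ board m n
    · have hb' : i < m ∧ j < n := by simpa [board] using hb
      rw [mem_filter, ← cell_O h hb'.1 hb'.2]
      simp [hb]
    · unfold holes
      simp [hb]
  rw [e, card_filter, board, sum_product_right]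
  push_cast
  rfl

/-- A gunport configuration on the `14 × 16` board has at most `72` holes. -/
theorem holes_le (h : IsGunport 14 16 S) : (holes 14 16 S).card ≤ 73 := by
  have h1 := no_cols (cols h)
  have h2 : tot (fun j => colF S 0 14 j) = 224 - 3 * ((holes 14 16 S).card : ℤ) := by
    unfold tot
    have h3 : ∀ j ∈ range 16, s (colF S 0 14 j) =
        14 - 3 * ∑ i ∈ range 14, (if cell S i j = .O then (1 : ℤ) else 0) := by
      intro j hj
      have hV : V1 .L (colF S 0 14 j) := by
        rw [mem_range] at hj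
        by_cases h15 : j = 15
        · subst h15
          exact V1_right _ _ _ _ ((cols h).pair 14 (by norm_num))
        · exact V1_left _ _ _ _ ((cols h).pair j (by omega))
      rw [s_eq _ _ hV, colF_length, cO_colF]
      simp
    rw [sum_congr rfl h3, sum_sub_distrib, ← mul_sum, ← card_holes h]
    simp
  rw [h2] at h1
  have : ((holes 14 16 S).card : ℤ) ≤ 73 := by linarith
  exact_mod_cast this

end Pool.Agent.N374.Gun
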